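import Pool.Agent.MP_ca1109_lc.Mpg.Defs
import Pool.Agent.MP_ca1109_lc.MonoProb
import Pool.Agent.MP_ca1109_lc.Dnf.B1

/-!
# Anticoncentration from small characteristic functions
-/

namespace Pool.Agent.MP_ca1109_lc.Xg

open Finset Pool.Agent.MP_ca1109_lc.Mpg
open Pool.Agent.MP_ca1109_lc.Dnf (one one_le one_nonneg one_true one_false)

theorem norm_av_neg {Ω : Type*} [Fintype Ω] (x : Ω → ℝ) :
    ‖av fun ω => Complex.exp ((-(x ω) : ℝ) * Complex.I)‖ =
      ‖av fun ω => Complex.exp ((x ω : ℝ) * Complex.I)‖ := by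
  have h : (av fun ω => Complex.exp ((-(x ω) : ℝ) * Complex.I)) =
      (starRingEnd ℂ) (av fun ω => Complex.exp ((x ω : ℝ) * Complex.I)) := by
    unfold av
    rw [map_div₀, map_sum, map_natCast]
    congr 1
    refine Finset.sum_congr rfl fun ω _ => ?_
    rw [← Complex.exp_conj, map_mul, Complex.conj_ofReal, Complex.conj_I]
    congr 1
    push_cast
    ring
  rw [h, Complex.norm_conj]

theorem cos_one_half {y : ℝ} (hy : |y| ≤ 1) : 1 / 2 ≤ Real.cos y := by
  rw [← Real.cos_abs y]
  have h1 : |y| ≤ Real.pi / 3 := hy.trans (by have := Real.pi_gt_three; linarith)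
  have h2 := Real.cos_le_cos_of_nonneg_of_le_pi (abs_nonneg y) (by have := Real.pi_gt_three; linarith) h1
  rwa [Real.cos_pi_div_three] at h2

/-- **Anticoncentration**: Fejér kernel. -/
theorem fejer {Ω : Type*} [Fintype Ω] [Nonempty Ω] (S : Ω → ℝ) (θ : ℝ) {J ε : ℝ} (hJ : 0 < J)
    {L : ℕ} (hL : 0 < L) (hε : 0 ≤ ε)
    (h : ∀ l : ℕ, 1 ≤ l → l < L →
      ‖av fun ω => Complex.exp (((l : ℝ) / (L * J) * S ω : ℝ) * Complex.I)‖ ≤ ε) :
    (avg fun ω => one (|S ω - θ| ≤ J)) ≤ 4 * (1 / L + ε) := by
  have hL' : (0 : ℝ) < L := by exact_mod_cast hL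
  have hcard : (0 : ℝ) < Fintype.card Ω := by exact_mod_cast Fintype.card_pos
  set τ : ℝ := 1 / (L * J) with hτ
  have hτ0 : 0 < τ := by positivity
  set z : Ω → ℕ → ℂ := fun ω l => Complex.exp ((τ * l * (S ω - θ) : ℝ) * Complex.I) with hz
  set K : Ω → ℝ := fun ω => ‖(∑ l ∈ range L, z ω l) / L‖ ^ 2 with hK
  -- pointwise
  have h1 : ∀ ω, one (|S ω - θ| ≤ J) ≤ 4 * K ω := by
    intro ω
    have hK0 : 0 ≤ K ω := by positivity
    by_cases hS : |S ω - θ| ≤ J
    · rw [one_true hS]
      have h2 : ∀ l ∈ range L, 1 / 2 ≤ (z ω l).re := by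
        intro l hl
        rw [Finset.mem_range] at hl
        simp only [hz]
        rw [Complex.exp_ofReal_mul_I_re]
        refine cos_one_half ?_
        have h3 : |τ * l * (S ω - θ)| = τ * l * |S ω - θ| := by
          rw [abs_mul, abs_of_nonneg (by positivity)]
        rw [h3]
        have hl' : (l : ℝ) ≤ L := by exact_mod_cast hl.le
        calc τ * l * |S ω - θ| ≤ τ * L * J := by gcongr
          _ = 1 := by rw [hτ]; field_simp
      have h4 : (L : ℝ) * (1 / 2) ≤ (∑ l ∈ range L, z ω l).re := by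
        rw [Complex.re_sum]
        calc (L : ℝ) * (1 / 2) = ∑ _l ∈ range L, (1 / 2 : ℝ) := by simp
          _ ≤ _ := Finset.sum_le_sum h2
      have h5 : (1 / 2 : ℝ) ≤ ‖(∑ l ∈ range L, z ω l) / L‖ := by
        rw [norm_div, Complex.norm_natCast, le_div_iff₀ hL']
        calc (1 / 2 : ℝ) * L = L * (1 / 2) := by ring
          _ ≤ (∑ l ∈ range L, z ω l).re := h4
          _ ≤ |(∑ l ∈ range L, z ω l).re| := le_abs_self _
          _ ≤ _ := Complex.abs_re_le_norm _
      simp only [hK]
      nlinarith [norm_nonneg ((∑ l ∈ range L, z ω l) / (L : ℂ))]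
    · rw [one_false hS]
      positivity
  -- the average of the kernel
  have h2 : avg K ≤ 1 / L + ε := by
    have e1 : ∀ ω, ((K ω : ℝ) : ℂ) = (∑ l ∈ range L, ∑ l' ∈ range L,
        Complex.exp ((τ * ((l : ℝ) - l') * (S ω - θ) : ℝ) * Complex.I)) / (L * L) := by
      intro ω
      have e0 : ((K ω : ℝ) : ℂ) = ((∑ l ∈ range L, z ω l) / L) *
          (starRingEnd ℂ) ((∑ l ∈ range L, z ω l) / L) := by
        rw [Complex.mul_conj, Complex.normSq_eq_norm_sq]
      rw [e0, map_div₀, map_natCast, map_sum, div_mul_div_comm, Finset.sum_mul_sum]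
      congr 1
      refine Finset.sum_congr rfl fun l _ => Finset.sum_congr rfl fun l' _ => ?_
      simp only [hz]
      rw [← Complex.exp_conj, map_mul, Complex.conj_ofReal, Complex.conj_I, ← Complex.exp_add]
      congr 1
      push_cast
      ring
    have e2 : ((avg K : ℝ) : ℂ) = (∑ l ∈ range L, ∑ l' ∈ range L,
        av fun ω => Complex.exp ((τ * ((l : ℝ) - l') * (S ω - θ) : ℝ) * Complex.I)) / (L * L) := by
      unfold avg av
      push_cast
      have e3 : ∀ ω, ((K ω : ℝ) : ℂ) = (∑ l ∈ range L, ∑ l' ∈ range L,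
        Complex.exp ((τ * ((l : ℝ) - l') * (S ω - θ) : ℝ) * Complex.I)) / (L * L) := e1
      rw [Finset.sum_congr rfl fun ω _ => e3 ω, ← Finset.sum_div, div_right_comm]
      congr 1
      rw [Finset.sum_comm, Finset.sum_div]
      refine Finset.sum_congr rfl fun l _ => ?_
      rw [Finset.sum_comm, Finset.sum_div]
      push_cast
      rfl
    have e4 : ∀ l ∈ range L, ∀ l' ∈ range L,
        ‖av fun ω => Complex.exp ((τ * ((l : ℝ) - l') * (S ω - θ) : ℝ) * Complex.I)‖ ≤
          (if l' = l then 1 else 0) + ε := by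
      intro l hl l' hl'
      rw [Finset.mem_range] at hl hl'
      have e5 : (av fun ω => Complex.exp ((τ * ((l : ℝ) - l') * (S ω - θ) : ℝ) * Complex.I)) =
          Complex.exp ((-(τ * ((l : ℝ) - l') * θ) : ℝ) * Complex.I) *
            av fun ω => Complex.exp ((τ * ((l : ℝ) - l') * S ω : ℝ) * Complex.I) := by
        unfold av
        rw [mul_div_assoc', Finset.mul_sum]
        congr 1
        refine Finset.sum_congr rfl fun ω _ => ?_
        rw [← Complex.exp_add]
        congr 1
        push_cast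
        ring
      rw [e5, norm_mul, Complex.norm_exp_ofReal_mul_I, one_mul]
      rcases lt_trichotomy l l' with hlt | heq | hgt
      · rw [if_neg (by omega), zero_add]
        have e6 := h (l' - l) (by omega) (by omega)
        have e7 : ∀ ω, τ * ((l : ℝ) - l') * S ω = -(((l' - l : ℕ) : ℝ) / (L * J) * S ω) := by
          intro ω
          rw [Nat.cast_sub hlt.le, hτ]
          ring
        simp_rw [e7]
        rw [norm_av_neg fun ω => ((l' - l : ℕ) : ℝ) / (L * J) * S ω]
        exact e6
      · rw [if_pos heq.symm]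
        have e8 : (av fun ω => Complex.exp ((τ * ((l : ℝ) - l') * S ω : ℝ) * Complex.I)) = 1 := by
          unfold av
          rw [heq]
          simp only [sub_self, mul_zero, zero_mul, Complex.ofReal_zero, Complex.exp_zero,
            Finset.sum_const, Finset.card_univ, nsmul_eq_mul, mul_one]
          exact div_self (by exact_mod_cast hcard.ne')
        rw [e8, norm_one]
        linarith
      · rw [if_neg (by omega), zero_add]
        have e6 := h (l - l') (by omega) (by omega)
        have e7 : ∀ ω, τ * ((l : ℝ) - l') * S ω = ((l - l' : ℕ) : ℝ) / (L * J) * S ω := by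
          intro ω
          rw [Nat.cast_sub hgt.le, hτ]
          ring
        simp_rw [e7]
        exact e6
    have e9 : avg K ≤ ‖((avg K : ℝ) : ℂ)‖ := by
      rw [Complex.norm_real]
      exact le_abs_self _
    refine e9.trans ?_
    rw [e2, norm_div, norm_mul, Complex.norm_natCast, div_le_iff₀ (by positivity)]
    calc ‖∑ l ∈ range L, ∑ l' ∈ range L,
          av fun ω => Complex.exp ((τ * ((l : ℝ) - l') * (S ω - θ) : ℝ) * Complex.I)‖
        ≤ ∑ l ∈ range L, ∑ l' ∈ range L,
          ‖av fun ω => Complex.exp ((τ * ((l : ℝ) - l') * (S ω - θ) : ℝ) * Complex.I)‖ :=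
          (norm_sum_le _ _).trans (Finset.sum_le_sum fun l _ => norm_sum_le _ _)
      _ ≤ ∑ l ∈ range L, ∑ l' ∈ range L, ((if l' = l then 1 else 0) + ε) :=
          Finset.sum_le_sum fun l hl => Finset.sum_le_sum fun l' hl' => e4 l hl l' hl'
      _ = L + L * (L * ε) := by
          simp_rw [Finset.sum_add_distrib, Finset.sum_ite_eq', Finset.sum_const, Finset.card_range,
            nsmul_eq_mul]
          rw [Finset.sum_congr rfl (g := fun _ => (1 : ℝ)) fun l hl => if_pos hl]
          simp
      _ = (1 / L + ε) * (L * L) := by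
          field_simp
  calc (avg fun ω => one (|S ω - θ| ≤ J)) ≤ avg fun ω => 4 * K ω := avg_mono h1
    _ = 4 * avg K := avg_mul_left _ _
    _ ≤ 4 * (1 / L + ε) := by linarith

end Pool.Agent.MP_ca1109_lc.Xg
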