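import Pool.Agent.MP_ca1109_lc.Xg.BB

/-!
# A bounded function of the heavy terms times a product of unimodular weights
-/

namespace Pool.Agent.MP_ca1109_lc.Xg

open Finset Pool.Agent.MP_ca1109_lc.Mpg Pool.Agent.MP_ca1109_lc.Agp Pool.Agent.MP_ca1109_lc.Xp
open Pool.Agent.MP_ca1109_lc
open Pool.Agent.MP_ca1109_lc.Dnf (Cube ch one E Term E_add E_sub E_smul E_const E_sum E_mono
  E_nonneg E_term L1_term On)

variable {n : ℕ}

/-! ## Moebius inversion -/

/-- The Moebius transform. -/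
noncomputable def mob {κ : Type} (ψ : Finset κ → ℂ) (J : Finset κ) : ℂ :=
  ∑ I ∈ J.powerset, (-1) ^ (J.card + I.card) * ψ I

theorem mob_norm {κ : Type} (ψ : Finset κ → ℂ) (h : ∀ I, ‖ψ I‖ ≤ 1) (J : Finset κ) :
    ‖mob ψ J‖ ≤ 2 ^ J.card := by
  unfold mob
  refine (norm_sum_le _ _).trans ?_
  calc ∑ I ∈ J.powerset, ‖(-1 : ℂ) ^ (J.card + I.card) * ψ I‖ ≤ ∑ I ∈ J.powerset, (1 : ℝ) :=
        sum_le_sum fun I _ => by
          rw [norm_mul, norm_pow, norm_neg, norm_one, one_pow, one_mul]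
          exact h I
    _ = 2 ^ J.card := by rw [sum_const, card_powerset, nsmul_eq_mul, mul_one]; push_cast; rfl

theorem mob_insert {κ : Type} [DecidableEq κ] (ψ : Finset κ → ℂ) {a : κ} {J : Finset κ}
    (ha : a ∉ J) : mob ψ (insert a J) = mob (fun I => ψ (insert a I) - ψ I) J := by
  unfold mob
  rw [sum_powerset_insert ha, card_insert_of_notMem ha, ← sum_add_distrib]
  refine sum_congr rfl fun I hI => ?_
  have haI : a ∉ I := fun h => ha (mem_powerset.1 hI h)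
  rw [card_insert_of_notMem haI]
  ring

theorem mob_sum {κ : Type} [DecidableEq κ] (H : Finset κ) : ∀ ψ : Finset κ → ℂ,
    ∑ J ∈ H.powerset, mob ψ J = ψ H := by
  induction H using Finset.induction_on with
  | empty => intro ψ; simp [mob]
  | insert a H ha ih =>
    intro ψ
    rw [sum_powerset_insert ha, ih ψ]
    have : ∑ J ∈ H.powerset, mob ψ (insert a J) = ∑ J ∈ H.powerset,
        mob (fun I => ψ (insert a I) - ψ I) J :=
      sum_congr rfl fun J hJ => mob_insert ψ fun h => ha (mem_powerset.1 hJ h)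
    rw [this, ih]
    ring

/-- The cut Moebius expansion. -/
theorem mob_cut {κ : Type} [DecidableEq κ] (ψ : Finset κ → ℂ) (h : ∀ I, ‖ψ I‖ ≤ 1) (k : ℕ)
    (H : Finset κ) : ‖ψ H - ∑ J ∈ H.powerset.filter fun J => J.card ≤ k, mob ψ J‖ ≤
      2 * 3 ^ (k + 1) * (H.card.choose (k + 1) : ℝ) := by
  by_cases hk : H.card ≤ k
  · have : H.powerset.filter (fun J => J.card ≤ k) = H.powerset :=
      filter_true_of_mem fun J hJ => (card_le_card (mem_powerset.1 hJ)).trans hk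
    rw [this, mob_sum, sub_self, norm_zero]
    positivity
  · push Not at hk
    have h1 : ‖∑ J ∈ H.powerset.filter (fun J => J.card ≤ k), mob ψ J‖ ≤
        3 ^ (k + 1) * (H.card.choose (k + 1) : ℝ) := by
      refine (norm_sum_le _ _).trans ?_
      have h2 : ∑ J ∈ H.powerset.filter (fun J => J.card ≤ k), ‖mob ψ J‖ ≤
          ∑ j ∈ range (k + 2), ∑ J ∈ powersetCard j H, (2 : ℝ) ^ j := by
        have h3 : ∑ J ∈ H.powerset.filter (fun J => J.card ≤ k), ‖mob ψ J‖ ≤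
            ∑ J ∈ H.powerset.filter (fun J => J.card ≤ k), (2 : ℝ) ^ J.card :=
          sum_le_sum fun J _ => mob_norm ψ h J
        refine h3.trans ?_
        have h4 : ∑ J ∈ H.powerset.filter (fun J => J.card ≤ k), (2 : ℝ) ^ J.card =
            ∑ j ∈ range (k + 1), ∑ J ∈ powersetCard j H, (2 : ℝ) ^ j := by
          rw [← sum_fiberwise_of_maps_to (s := H.powerset.filter (fun J => J.card ≤ k))
            (t := range (k + 1)) (g := card)
            (fun J hJ => mem_range.2 (Nat.lt_succ_of_le (mem_filter.1 hJ).2))]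
          refine sum_congr rfl fun j hj => ?_
          have h5 : (H.powerset.filter (fun J => J.card ≤ k)).filter (fun J => J.card = j) =
              powersetCard j H := by
            ext J
            rw [mem_filter, mem_filter, mem_powersetCard, mem_powerset]
            have := mem_range.1 hj
            constructor
            · rintro ⟨⟨h1, _⟩, h2⟩; exact ⟨h1, h2⟩
            · rintro ⟨h1, h2⟩; exact ⟨⟨h1, by omega⟩, h2⟩
          rw [h5]
          exact sum_congr rfl fun J hJ => by rw [(mem_powersetCard.1 hJ).2]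
        rw [h4, sum_range_succ _ (k + 1)]
        exact le_add_of_nonneg_right (sum_nonneg fun _ _ => by positivity)
      refine h2.trans ?_
      have h6 : ∀ j ∈ range (k + 2), ∑ J ∈ powersetCard j H, (2 : ℝ) ^ j ≤
          (H.card.choose (k + 1) : ℝ) * ((2 : ℝ) ^ j * 1 ^ (k + 1 - j) * ((k + 1).choose j : ℝ)) := by
        intro j hj
        rw [sum_const, card_powersetCard, nsmul_eq_mul, one_pow, mul_one]
        have hj' : j ≤ k + 1 := Nat.lt_succ_iff.1 (mem_range.1 hj)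
        have h7 : H.card.choose j ≤ H.card.choose (k + 1) * (k + 1).choose j := by
          rw [Nat.choose_mul hj']
          exact Nat.le_mul_of_pos_right _ (Nat.choose_pos (by omega))
        have h8 : (H.card.choose j : ℝ) ≤ (H.card.choose (k + 1) : ℝ) * ((k + 1).choose j : ℝ) := by
          exact_mod_cast h7
        calc (H.card.choose j : ℝ) * 2 ^ j
            ≤ ((H.card.choose (k + 1) : ℝ) * ((k + 1).choose j : ℝ)) * 2 ^ j :=
              mul_le_mul_of_nonneg_right h8 (by positivity)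
          _ = _ := by ring
      refine (sum_le_sum h6).trans ?_
      rw [← mul_sum, ← add_pow, mul_comm]
      norm_num
    have h9 : (1 : ℝ) ≤ H.card.choose (k + 1) := by
      exact_mod_cast Nat.choose_pos hk
    have h10 : (1 : ℝ) ≤ 3 ^ (k + 1) := one_le_pow₀ (by norm_num)
    calc ‖ψ H - ∑ J ∈ H.powerset.filter (fun J => J.card ≤ k), mob ψ J‖
        ≤ ‖ψ H‖ + ‖∑ J ∈ H.powerset.filter (fun J => J.card ≤ k), mob ψ J‖ := norm_sub_le _ _
      _ ≤ 1 + 3 ^ (k + 1) * (H.card.choose (k + 1) : ℝ) := add_le_add (h H) h1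
      _ ≤ 3 ^ (k + 1) * (H.card.choose (k + 1) : ℝ) + 3 ^ (k + 1) * (H.card.choose (k + 1) : ℝ) :=
          add_le_add_left (by nlinarith) _
      _ = _ := by ring

theorem bh_sum_card {κ : Type} [DecidableEq κ] (H : Finset κ) (k : ℕ) :
    ∑ J ∈ H.powerset.filter (fun J => J.card ≤ k), (2 : ℝ) ^ J.card ≤
      (k + 1) * (2 * ((H.card : ℝ) + 1)) ^ k := by
  have h4 : ∑ J ∈ H.powerset.filter (fun J => J.card ≤ k), (2 : ℝ) ^ J.card =
      ∑ j ∈ range (k + 1), (H.card.choose j : ℝ) * 2 ^ j := by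
    rw [← sum_fiberwise_of_maps_to (s := H.powerset.filter (fun J => J.card ≤ k))
      (t := range (k + 1)) (g := card)
      (fun J hJ => mem_range.2 (Nat.lt_succ_of_le (mem_filter.1 hJ).2))]
    refine sum_congr rfl fun j hj => ?_
    have h5 : (H.powerset.filter (fun J => J.card ≤ k)).filter (fun J => J.card = j) =
        powersetCard j H := by
      ext J
      rw [mem_filter, mem_filter, mem_powersetCard, mem_powerset]
      have := mem_range.1 hj
      constructor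
      · rintro ⟨⟨h1, _⟩, h2⟩; exact ⟨h1, h2⟩
      · rintro ⟨h1, h2⟩; exact ⟨⟨h1, by omega⟩, h2⟩
    rw [h5, sum_congr rfl fun J hJ => by rw [(mem_powersetCard.1 hJ).2], sum_const,
      card_powersetCard, nsmul_eq_mul]
  rw [h4]
  calc ∑ j ∈ range (k + 1), (H.card.choose j : ℝ) * 2 ^ j
      ≤ ∑ j ∈ range (k + 1), (2 * ((H.card : ℝ) + 1)) ^ k := sum_le_sum fun j hj => by
        have hj' : j ≤ k := Nat.lt_succ_iff.1 (mem_range.1 hj)
        have h1 : (H.card.choose j : ℝ) ≤ ((H.card : ℝ) + 1) ^ j := by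
          have h2 : H.card.choose j ≤ (H.card + 1) ^ j :=
            (Nat.choose_le_pow H.card j).trans (Nat.pow_le_pow_left (Nat.le_succ _) _)
          exact_mod_cast h2
        calc (H.card.choose j : ℝ) * 2 ^ j ≤ ((H.card : ℝ) + 1) ^ j * 2 ^ j :=
              mul_le_mul_of_nonneg_right h1 (by positivity)
          _ = (2 * ((H.card : ℝ) + 1)) ^ j := by rw [← mul_pow]; ring
          _ ≤ _ := pow_le_pow_right₀ (by
              have : (0 : ℝ) ≤ H.card := Nat.cast_nonneg _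
              linarith) hj'
    _ = _ := by rw [sum_const, card_range, nsmul_eq_mul]; push_cast; ring

section heavy

variable {κ : Type} [DecidableEq κ]

open Classical in
/-- The true terms. -/
noncomputable def hx (H : Finset κ) (U : κ → Term n) (x : Cube n) : Finset κ :=
  H.filter fun u => (U u).Sat x

theorem bh_prod (H : Finset κ) (U : κ → Term n) (x : Cube n) {J : Finset κ} (hJ : J ⊆ H) :
    ∏ u ∈ J, (U u).f x = if J ⊆ hx H U x then 1 else 0 := by
  classical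
  split_ifs with h
  · exact prod_eq_one fun u hu => Dnf.one_true (mem_filter.1 (h hu)).2
  · obtain ⟨u, hu, hu'⟩ := not_subset.1 h
    refine prod_eq_zero hu (Dnf.one_false fun hs => hu' ?_)
    exact mem_filter.2 ⟨hJ hu, hs⟩

/-- The cut expansion as a function on the cube. -/
noncomputable def psk (ψ : Finset κ → ℂ) (H : Finset κ) (U : κ → Term n) (k : ℕ) (x : Cube n) : ℂ :=
  ∑ J ∈ H.powerset.filter fun J => J.card ≤ k, mob ψ J * ((∏ u ∈ J, (U u).f x : ℝ) : ℂ)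

/-- The number of `k + 1`-sets of true terms. -/
noncomputable def rk (H : Finset κ) (U : κ → Term n) (k : ℕ) (x : Cube n) : ℝ :=
  ∑ J ∈ powersetCard (k + 1) H, ∏ u ∈ J, (U u).f x

theorem rk_eq (H : Finset κ) (U : κ → Term n) (k : ℕ) (x : Cube n) :
    rk H U k x = ((hx H U x).card.choose (k + 1) : ℝ) := by
  classical
  unfold rk
  rw [sum_congr rfl fun J hJ => bh_prod H U x (mem_powersetCard.1 hJ).1, ← sum_filter, sum_const,
    nsmul_eq_mul, mul_one, ← card_powersetCard]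
  congr 2
  ext J
  rw [mem_filter, mem_powersetCard, mem_powersetCard]
  constructor
  · rintro ⟨⟨_, h2⟩, h3⟩; exact ⟨h3, h2⟩
  · rintro ⟨h1, h2⟩; exact ⟨⟨h1.trans (filter_subset _ _), h2⟩, h1⟩

theorem psk_eq (ψ : Finset κ → ℂ) (H : Finset κ) (U : κ → Term n) (k : ℕ) (x : Cube n) :
    psk ψ H U k x = ∑ J ∈ (hx H U x).powerset.filter fun J => J.card ≤ k, mob ψ J := by
  classical
  unfold psk
  have h1 : ∀ J ∈ H.powerset.filter (fun J => J.card ≤ k),
      mob ψ J * ((∏ u ∈ J, (U u).f x : ℝ) : ℂ) = if J ⊆ hx H U x then mob ψ J else 0 := by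
    intro J hJ
    rw [bh_prod H U x (mem_powerset.1 (mem_filter.1 hJ).1)]
    split_ifs <;> simp
  rw [sum_congr rfl h1, ← sum_filter]
  refine sum_congr ?_ fun _ _ => rfl
  ext J
  rw [mem_filter, mem_filter, mem_filter, mem_powerset, mem_powerset]
  constructor
  · rintro ⟨⟨_, h2⟩, h3⟩; exact ⟨h3, h2⟩
  · rintro ⟨h1, h2⟩; exact ⟨⟨h1.trans (filter_subset _ _), h2⟩, h1⟩

theorem psk_close (ψ : Finset κ → ℂ) (h : ∀ I, ‖ψ I‖ ≤ 1) (H : Finset κ) (U : κ → Term n) (k : ℕ)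
    (x : Cube n) : ‖ψ (hx H U x) - psk ψ H U k x‖ ≤ 2 * 3 ^ (k + 1) * rk H U k x := by
  rw [psk_eq, rk_eq]
  exact mob_cut ψ h k _

theorem bh_sp_prod (U : κ → Term n) (J : Finset κ) :
    Sp 1 (fun x => ((∏ u ∈ J, (U u).f x : ℝ) : ℂ)) := by
  have h1 := Sp.prod J (fun _ => (1 : ℝ)) (fun u x => (((U u).f x : ℝ) : ℂ))
    (fun u _ => (Sp_real (U u).f).mono (L1_term (U u)))
  rw [prod_const_one] at h1
  exact h1.of_eq fun x => by push_cast; rfl

theorem psk_sp (ψ : Finset κ → ℂ) (h : ∀ I, ‖ψ I‖ ≤ 1) (H : Finset κ) (U : κ → Term n) (k : ℕ) :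
    Sp ((k + 1) * (2 * ((H.card : ℝ) + 1)) ^ k) (psk ψ H U k) := by
  refine (Sp.sum _ (fun J => (2 : ℝ) ^ J.card) _ fun J _ => ?_).mono (bh_sum_card H k)
  refine ((bh_sp_prod U J).smul (mob ψ J)).mono ?_
  rw [mul_one]
  exact mob_norm ψ h J

theorem rk_sp (H : Finset κ) (U : κ → Term n) (k : ℕ) :
    Sp (((H.card : ℝ) + 1) ^ (k + 1)) (fun x => ((rk H U k x : ℝ) : ℂ)) := by
  refine ((Sp.sum (powersetCard (k + 1) H) (fun _ => (1 : ℝ)) _ fun J _ => bh_sp_prod U J).mono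
    ?_).of_eq fun x => by unfold rk; push_cast; rfl
  rw [sum_const, card_powersetCard, nsmul_eq_mul, mul_one]
  have h2 : H.card.choose (k + 1) ≤ (H.card + 1) ^ (k + 1) :=
    (Nat.choose_le_pow H.card (k + 1)).trans (Nat.pow_le_pow_left (Nat.le_succ _) _)
  exact_mod_cast h2

theorem bh_pow (H : Finset κ) (U : κ → Term n) (θ : ℝ) (x : Cube n) :
    ∏ u ∈ H, (1 + θ * (U u).f x) = (1 + θ) ^ (hx H U x).card := by
  classical
  unfold hx
  rw [← prod_const, prod_filter]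
  refine prod_congr rfl fun u _ => ?_
  unfold Term.f
  split_ifs with h
  · rw [Dnf.one_true h, mul_one]
  · rw [Dnf.one_false h, mul_zero, add_zero]

theorem rk_nonneg (H : Finset κ) (U : κ → Term n) (k : ℕ) (x : Cube n) : 0 ≤ rk H U k x := by
  rw [rk_eq]
  positivity

theorem rk_E {r : ℕ} (hr : 0 < r) (H : Finset κ) (U : κ → Term n)
    (hread : ∀ v, (H.filter fun u => v ∈ (U u).S).card ≤ r) {K : ℝ}
    (hK : ∑ u ∈ H, (1 / 2 : ℝ) ^ (U u).S.card ≤ K) (k : ℕ) :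
    E (rk H U k) ≤ (1 / 6) ^ (k + 1) * Real.exp ((7 ^ r - 1) / r * K) := by
  have h1 : ∀ x, rk H U k x ≤ (1 / 6) ^ (k + 1) * ∏ u ∈ H, (1 + 6 * (U u).f x) := by
    intro x
    rw [rk_eq, bh_pow]
    set N := (hx H U x).card
    have h2 : (N.choose (k + 1) : ℝ) * 6 ^ (k + 1) ≤ (1 + 6) ^ N := by
      by_cases hN : k + 1 ≤ N
      · rw [add_comm (1 : ℝ) 6, add_pow]
        have := single_le_sum (f := fun m => (6 : ℝ) ^ m * 1 ^ (N - m) * (N.choose m : ℝ))
          (s := range (N + 1)) (fun i _ => by positivity) (mem_range.2 (Nat.lt_succ_of_le hN))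
        simp only [one_pow, mul_one] at this ⊢
        linarith
      · rw [Nat.choose_eq_zero_of_lt (by omega)]
        simp
        positivity
    have h3 : (1 / 6 : ℝ) ^ (k + 1) * 6 ^ (k + 1) = 1 := by rw [← mul_pow]; norm_num
    calc (N.choose (k + 1) : ℝ) = (1 / 6) ^ (k + 1) * ((N.choose (k + 1) : ℝ) * 6 ^ (k + 1)) := by
          rw [mul_comm (N.choose (k + 1) : ℝ), ← mul_assoc, h3, one_mul]
      _ ≤ _ := mul_le_mul_of_nonneg_left h2 (by positivity)
  refine (E_mono h1).trans ?_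
  rw [E_smul]
  refine mul_le_mul_of_nonneg_left ((Xor.mgf r hr H U hread 6 (by norm_num)).trans ?_) (by positivity)
  have hr' : (0 : ℝ) < r := by exact_mod_cast hr
  have h4 : (0 : ℝ) ≤ (7 ^ r - 1) / r := div_nonneg (by linarith [one_le_pow₀ (by norm_num : (1 : ℝ) ≤ 7) (n := r)]) hr'.le
  rw [show (1 : ℝ) + 6 = 7 by norm_num]
  exact Real.exp_le_exp.2 (mul_le_mul_of_nonneg_left hK h4)

theorem rk_E2 {r : ℕ} (hr : 0 < r) (H : Finset κ) (U : κ → Term n)
    (hread : ∀ v, (H.filter fun u => v ∈ (U u).S).card ≤ r) {K : ℝ}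
    (hK : ∑ u ∈ H, (1 / 2 : ℝ) ^ (U u).S.card ≤ K) (k : ℕ) :
    E (fun x => rk H U k x ^ 2) ≤ Real.exp ((4 ^ r - 1) / r * K) := by
  have h1 : ∀ x, rk H U k x ^ 2 ≤ ∏ u ∈ H, (1 + 3 * (U u).f x) := by
    intro x
    rw [rk_eq, bh_pow]
    set N := (hx H U x).card
    have h2 : (N.choose (k + 1) : ℝ) ≤ 2 ^ N := by exact_mod_cast Nat.choose_le_two_pow N (k + 1)
    calc (N.choose (k + 1) : ℝ) ^ 2 ≤ ((2 : ℝ) ^ N) ^ 2 := pow_le_pow_left₀ (by positivity) h2 2
      _ = (1 + 3) ^ N := by rw [← pow_mul, mul_comm, pow_mul]; norm_num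
  refine (E_mono h1).trans ((Xor.mgf r hr H U hread 3 (by norm_num)).trans ?_)
  have hr' : (0 : ℝ) < r := by exact_mod_cast hr
  have h4 : (0 : ℝ) ≤ (4 ^ r - 1) / r := div_nonneg (by linarith [one_le_pow₀ (by norm_num : (1 : ℝ) ≤ 4) (n := r)]) hr'.le
  rw [show (1 : ℝ) + 3 = 4 by norm_num]
  exact Real.exp_le_exp.2 (mul_le_mul_of_nonneg_left hK h4)

end heavy

/-! ## Small bias -/

/-- Taylor's polynomial. -/
noncomputable def bpm (m : ℕ) (y : Cube n → ℝ) (x : Cube n) : ℂ :=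
  ∑ k ∈ range (2 * m), (Complex.I * (y x : ℂ)) ^ k / (k.factorial : ℂ)

/-- The remainder. -/
noncomputable def brm (m : ℕ) (y : Cube n → ℝ) (x : Cube n) : ℝ := y x ^ (2 * m) / (2 * m).factorial

theorem brm_nonneg (m : ℕ) (y : Cube n → ℝ) (x : Cube n) : 0 ≤ brm m y x := by
  unfold brm
  rw [pow_mul]
  positivity

theorem bpm_close (m : ℕ) (y : Cube n → ℝ) (x : Cube n) :
    ‖Complex.exp (Complex.I * (y x : ℂ)) - bpm m y x‖ ≤ brm m y x := by
  have h1 := gt_taylor (2 * m) (y x)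
  rw [(even_two_mul m).pow_abs] at h1
  exact h1

theorem brm_sp {y : Cube n → ℝ} {b : ℝ} (hb1 : 1 ≤ b) (hys : Sp b fun x => ((y x : ℝ) : ℂ)) (m : ℕ) :
    Sp (b ^ (2 * m)) (fun x => ((brm m y x : ℝ) : ℂ)) := by
  have h1 := (hys.pow (2 * m)).smul ((1 / (2 * m).factorial : ℝ) : ℂ)
  refine (h1.mono ?_).of_eq fun x => by unfold brm; push_cast; ring
  rw [Complex.norm_real, Real.norm_eq_abs, abs_of_nonneg (by positivity)]
  have h2 : (1 : ℝ) / (2 * m).factorial ≤ 1 := by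
    rw [div_le_one (by positivity)]
    exact_mod_cast Nat.one_le_iff_ne_zero.2 (Nat.factorial_ne_zero _)
  calc (1 : ℝ) / (2 * m).factorial * b ^ (2 * m) ≤ 1 * b ^ (2 * m) :=
        mul_le_mul_of_nonneg_right h2 (by positivity)
    _ = _ := one_mul _

theorem bpm_sp {y : Cube n → ℝ} {b : ℝ} (hb1 : 1 ≤ b) (hys : Sp b fun x => ((y x : ℝ) : ℂ)) (m : ℕ) :
    Sp (2 * m * b ^ (2 * m)) (bpm m y) := by
  have h1 : ∀ k ∈ range (2 * m), Sp (b ^ (2 * m))
      (fun x => (Complex.I * (y x : ℂ)) ^ k / (k.factorial : ℂ)) := by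
    intro k hk
    have h2 := ((hys.smul Complex.I).pow k).smul ((1 / k.factorial : ℝ) : ℂ)
    refine (h2.mono ?_).of_eq fun x => by push_cast; ring
    rw [Complex.norm_real, Real.norm_eq_abs, abs_of_nonneg (by positivity), Complex.norm_I, one_mul]
    have h3 : (1 : ℝ) / k.factorial ≤ 1 := by
      rw [div_le_one (by positivity)]
      exact_mod_cast Nat.one_le_iff_ne_zero.2 (Nat.factorial_ne_zero _)
    calc (1 : ℝ) / k.factorial * b ^ k ≤ 1 * b ^ (2 * m) :=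
          mul_le_mul h3 (pow_le_pow_right₀ hb1 (mem_range.1 hk).le) (by positivity) zero_le_one
      _ = _ := one_mul _
  refine (Sp.sum _ (fun _ => b ^ (2 * m)) _ h1).mono (le_of_eq ?_)
  rw [sum_const, card_range, nsmul_eq_mul]
  push_cast
  ring

theorem brm_sq (m : ℕ) (y : Cube n → ℝ) (x : Cube n) :
    brm m y x ^ 2 ≤ 16 ^ m * brm (2 * m) y x := by
  unfold brm
  have h1 : ((2 * (2 * m)).factorial : ℝ) ≤ 16 ^ m * ((2 * m).factorial : ℝ) ^ 2 := by
    have h2 : (2 * (2 * m)).factorial = (2 * (2 * m)).choose (2 * m) * (2 * m).factorial *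
        (2 * m).factorial := by
      have := Nat.choose_mul_factorial_mul_factorial (n := 2 * (2 * m)) (k := 2 * m) (by omega)
      rw [show 2 * (2 * m) - 2 * m = 2 * m by omega] at this
      exact this.symm
    have h3 : (2 * (2 * m)).choose (2 * m) ≤ 16 ^ m := by
      refine (Nat.choose_le_two_pow _ _).trans (le_of_eq ?_)
      rw [show 2 * (2 * m) = 4 * m by ring, pow_mul]
      norm_num
    have h4 : ((2 * (2 * m)).choose (2 * m) : ℝ) ≤ 16 ^ m := by exact_mod_cast h3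
    rw [h2]
    push_cast
    calc ((2 * (2 * m)).choose (2 * m) : ℝ) * (2 * m).factorial * (2 * m).factorial
        = ((2 * (2 * m)).choose (2 * m) : ℝ) * ((2 * m).factorial : ℝ) ^ 2 := by ring
      _ ≤ _ := mul_le_mul_of_nonneg_right h4 (by positivity)
  have h5 : (0 : ℝ) < (2 * (2 * m)).factorial := by positivity
  have h6 : (0 : ℝ) < ((2 * m).factorial : ℝ) ^ 2 := by positivity
  have h7 : (0 : ℝ) ≤ y x ^ (2 * (2 * m)) := by rw [pow_mul]; positivity
  rw [div_pow, ← pow_mul, show 2 * m * 2 = 2 * (2 * m) by ring, ← mul_div_assoc, div_le_div_iff₀ h6 h5]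
  calc y x ^ (2 * (2 * m)) * ((2 * (2 * m)).factorial : ℝ)
      ≤ y x ^ (2 * (2 * m)) * (16 ^ m * ((2 * m).factorial : ℝ) ^ 2) :=
        mul_le_mul_of_nonneg_left h1 h7
    _ = _ := by ring

/-- The bound for the norms. -/
theorem bh_norms (k m : ℕ) {u v : ℝ} (hu : 0 ≤ u) (hv : 0 ≤ v) :
    (2 * 3 ^ (k + 1) * (v + 1) ^ (k + 1) + (9 * (u + 1)) ^ (2 * m) +
      2 * 3 ^ (k + 1) * (v + 1) ^ (k + 1) * (9 * (u + 1)) ^ (2 * m)) +
      (k + 1) * (2 * (v + 1)) ^ k * (2 * m * (9 * (u + 1)) ^ (2 * m)) ≤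
      ((((6 * 3 ^ (k + 1) + (k + 1) * (2 * m) + 1) * 18 * (k + 2 + 2 * m) : ℕ) : ℝ) *
        (u + v + 1)) ^ ((6 * 3 ^ (k + 1) + (k + 1) * (2 * m) + 1) * 18 * (k + 2 + 2 * m)) := by
  obtain ⟨G, hG⟩ : ∃ G : ℕ, G = 6 * 3 ^ (k + 1) + (k + 1) * (2 * m) + 1 := ⟨_, rfl⟩
  obtain ⟨ck, hck⟩ : ∃ ck : ℝ, ck = 2 * 3 ^ (k + 1) := ⟨_, rfl⟩
  obtain ⟨b, hb⟩ : ∃ b : ℝ, b = 9 * (u + 1) := ⟨_, rfl⟩
  obtain ⟨N', hN'⟩ : ∃ N' : ℝ, N' = u + v + 1 := ⟨_, rfl⟩
  obtain ⟨B, hB⟩ : ∃ B : ℝ, B = 18 * N' := ⟨_, rfl⟩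
  obtain ⟨e, he⟩ : ∃ e : ℕ, e = k + 1 + 2 * m := ⟨_, rfl⟩
  rw [← hG, ← hck, ← hb, ← hN']
  have hN1 : 1 ≤ N' := by rw [hN']; linarith
  have hB1 : 1 ≤ B := by rw [hB]; linarith
  have h3 : (1 : ℝ) ≤ 3 ^ (k + 1) := one_le_pow₀ (by norm_num)
  have hck1 : 1 ≤ ck := by rw [hck]; linarith
  have hb0 : 0 ≤ b := by rw [hb]; linarith
  have b1 : (v + 1) ^ (k + 1) ≤ B ^ (k + 1) :=
    pow_le_pow_left₀ (by linarith) (by rw [hB, hN']; linarith) _
  have b2 : b ^ (2 * m) ≤ B ^ (2 * m) := pow_le_pow_left₀ hb0 (by rw [hb, hB, hN']; linarith) _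
  have b3 : (2 * (v + 1)) ^ k ≤ B ^ k :=
    pow_le_pow_left₀ (by linarith) (by rw [hB, hN']; linarith) _
  have c1 : B ^ (k + 1) ≤ B ^ e := pow_le_pow_right₀ hB1 (by omega)
  have c2 : B ^ (2 * m) ≤ B ^ e := pow_le_pow_right₀ hB1 (by omega)
  have c3 : B ^ (k + 1) * B ^ (2 * m) = B ^ e := by rw [← pow_add, he]
  have c4 : B ^ k * B ^ (2 * m) ≤ B ^ e := by
    rw [← pow_add]
    exact pow_le_pow_right₀ hB1 (by omega)
  have hB0 : 0 ≤ B := by linarith
  have hBe : 0 ≤ B ^ e := pow_nonneg hB0 e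
  have hck0 : 0 ≤ ck := by linarith
  have hv1 : 0 ≤ (v + 1) ^ (k + 1) := pow_nonneg (by linarith) _
  have hbm : 0 ≤ b ^ (2 * m) := pow_nonneg hb0 _
  have d1 : ck * (v + 1) ^ (k + 1) ≤ ck * B ^ e := mul_le_mul_of_nonneg_left (b1.trans c1) hck0
  have d2 : b ^ (2 * m) ≤ ck * B ^ e :=
    (b2.trans c2).trans (le_mul_of_one_le_left hBe hck1)
  have d3 : ck * (v + 1) ^ (k + 1) * b ^ (2 * m) ≤ ck * B ^ e := by
    rw [mul_assoc, ← c3]
    exact mul_le_mul_of_nonneg_left (mul_le_mul b1 b2 hbm (pow_nonneg hB0 _)) hck0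
  have d4 : (k + 1) * (2 * (v + 1)) ^ k * (2 * m * b ^ (2 * m)) ≤ ((k + 1) * (2 * m)) * B ^ e := by
    calc ((k : ℝ) + 1) * (2 * (v + 1)) ^ k * (2 * m * b ^ (2 * m))
        = (((k : ℝ) + 1) * (2 * m)) * ((2 * (v + 1)) ^ k * b ^ (2 * m)) := by ring
      _ ≤ (((k : ℝ) + 1) * (2 * m)) * (B ^ k * B ^ (2 * m)) :=
          mul_le_mul_of_nonneg_left (mul_le_mul b3 b2 hbm (pow_nonneg hB0 _)) (by positivity)
      _ ≤ _ := mul_le_mul_of_nonneg_left c4 (by positivity)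
  have hG1' : 1 ≤ G := by omega
  have hG1 : (1 : ℝ) ≤ G := by exact_mod_cast hG1'
  have f2 : (G : ℝ) = 3 * ck + (k + 1) * (2 * m) + 1 := by
    rw [hG, hck]
    push_cast
    ring
  have f1 : (ck * (v + 1) ^ (k + 1) + b ^ (2 * m) + ck * (v + 1) ^ (k + 1) * b ^ (2 * m)) +
      (k + 1) * (2 * (v + 1)) ^ k * (2 * m * b ^ (2 * m)) ≤ G * B ^ e := by
    have f9 : (G : ℝ) * B ^ e = ck * B ^ e + ck * B ^ e + ck * B ^ e + ((k + 1) * (2 * m)) * B ^ e +
        B ^ e := by rw [f2]; ring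
    rw [f9]
    linarith
  have f3 : (G : ℝ) * B ^ e ≤ (G * B) ^ (e + 1) := by
    rw [mul_pow (G : ℝ) B (e + 1)]
    exact mul_le_mul (le_self_pow₀ hG1 (Nat.succ_ne_zero e)) (pow_le_pow_right₀ hB1 (Nat.le_succ e))
      hBe (by positivity)
  have f4 : (G : ℝ) * B ≤ ((G * 18 * (k + 2 + 2 * m) : ℕ) : ℝ) * N' := by
    rw [hB]
    push_cast
    have f5 : (1 : ℝ) ≤ (k : ℝ) + 2 + 2 * m := by
      have h1 : (0 : ℝ) ≤ k := Nat.cast_nonneg _
      have h2 : (0 : ℝ) ≤ m := Nat.cast_nonneg _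
      linarith
    have f6 : 0 ≤ (G : ℝ) * 18 * N' := by positivity
    calc (G : ℝ) * (18 * N') = ((G : ℝ) * 18 * N') * 1 := by ring
      _ ≤ ((G : ℝ) * 18 * N') * ((k : ℝ) + 2 + 2 * m) := mul_le_mul_of_nonneg_left f5 f6
      _ = _ := by ring
  have f7 : 1 ≤ (G : ℝ) * B := one_le_mul_of_one_le_of_one_le hG1 hB1
  have f8 : e + 1 ≤ G * 18 * (k + 2 + 2 * m) := by
    calc e + 1 = 1 * (k + 2 + 2 * m) := by omega
      _ ≤ G * 18 * (k + 2 + 2 * m) := Nat.mul_le_mul_right _ (by omega)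
  calc _ ≤ _ := f1
    _ ≤ _ := f3
    _ ≤ (((G * 18 * (k + 2 + 2 * m) : ℕ) : ℝ) * N') ^ (e + 1) := pow_le_pow_left₀ (by linarith) f4 _
    _ ≤ _ := pow_le_pow_right₀ (f7.trans f4) f8

/-- Small bias fools a bounded function of the true heavy terms times a product of unimodular
weights with bounded quadratic mass. -/
theorem bbH (r : ℕ) (K V : ℝ) {ε : ℝ} (hε : 0 < ε) : ∃ C : ℕ, ∀ {n : ℕ} {ι κ : Type} [DecidableEq κ]
    (J : Finset ι) (T : ι → Term n) (z : ι → ℂ) (H : Finset κ) (U : κ → Term n) (ψ : Finset κ → ℂ),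
    (∀ v, (J.filter fun j => v ∈ (T j).S).card ≤ r) → (∀ j ∈ J, ‖z j‖ = 1) →
    ∑ j ∈ J, (1 / 2 : ℝ) ^ (T j).S.card * ‖1 - z j‖ ^ 2 ≤ V →
    (∀ v, (H.filter fun u => v ∈ (U u).S).card ≤ r) → ∑ u ∈ H, (1 / 2 : ℝ) ^ (U u).S.card ≤ K →
    (∀ I, ‖ψ I‖ ≤ 1) →
    ∀ {Ω : Type} [Fintype Ω] [Nonempty Ω] (Y : Ω → Cube n) (δ : ℝ), 0 ≤ δ → Bias δ Y →
    ‖(av fun ω => ψ (hx H U (Y ω)) * tj J T z (Y ω)) - av fun x => ψ (hx H U x) * tj J T z x‖ ≤
      ε + δ * (C * ((J.card : ℝ) + H.card + 1)) ^ C := by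
  set E1 : ℝ := Real.exp ((7 ^ (r + 1) - 1) / ((r + 1 : ℕ) : ℝ) * K) with hE1
  set E2 : ℝ := Real.exp ((4 ^ (r + 1) - 1) / ((r + 1 : ℕ) : ℝ) * K) with hE2
  set E3 : ℝ := Real.exp (((r + 1 : ℕ) : ℝ) * 4 ^ 2 * Real.exp (((r + 1 : ℕ) : ℝ) * 4 * Real.pi) *
    (3 * V)) with hE3
  have hE1p : 0 < E1 := Real.exp_pos _
  have hE2p : 0 < E2 := Real.exp_pos _
  have hE3p : 0 < E3 := Real.exp_pos _
  have hε8 : 0 < ε / 8 := by positivity
  obtain ⟨k, hk⟩ : ∃ k : ℕ, 2 * 3 ^ (k + 1) * ((1 / 6) ^ (k + 1) * E1) ≤ ε / 8 := by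
    obtain ⟨k, hk⟩ := exists_pow_lt_of_lt_one (div_pos hε8 (by positivity : 0 < 2 * E1))
      (by norm_num : (1 / 2 : ℝ) < 1)
    refine ⟨k, ?_⟩
    rw [lt_div_iff₀ (by positivity)] at hk
    have h1 : (2 : ℝ) * 3 ^ (k + 1) * ((1 / 6) ^ (k + 1) * E1) = (1 / 2) ^ (k + 1) * (2 * E1) := by
      rw [show (1 / 2 : ℝ) ^ (k + 1) = 3 ^ (k + 1) * (1 / 6) ^ (k + 1) by rw [← mul_pow]; norm_num]
      ring
    rw [h1, pow_succ]
    have h2 : (1 / 2 : ℝ) ^ k * (1 / 2) * (2 * E1) ≤ (1 / 2) ^ k * (2 * E1) := by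
      have : 0 ≤ (1 / 2 : ℝ) ^ k * (2 * E1) := by positivity
      nlinarith
    exact h2.trans hk.le
  set ck : ℝ := 2 * 3 ^ (k + 1) with hck
  have hckp : 0 < ck := by positivity
  set τ : ℝ := (ε / 8) / (ck ^ 2 * E2) with hτ
  have hτp : 0 < τ := by positivity
  obtain ⟨m, hm1, hm2⟩ : ∃ m : ℕ, 2 * E3 * (1 / 16) ^ m ≤ ε / 8 ∧
      2 * E3 * (1 / 16) ^ m ≤ ε / 8 * (4 * τ) := by
    obtain ⟨m, hm⟩ := exists_pow_lt_of_lt_one
      (div_pos (lt_min hε8 (by positivity : 0 < ε / 8 * (4 * τ))) (by positivity : 0 < 2 * E3))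
      (by norm_num : (1 / 16 : ℝ) < 1)
    rw [lt_div_iff₀ (by positivity)] at hm
    refine ⟨m, ?_, ?_⟩
    · have := min_le_left (ε / 8) (ε / 8 * (4 * τ))
      linarith
    · have := min_le_right (ε / 8) (ε / 8 * (4 * τ))
      linarith
  set G : ℕ := 6 * 3 ^ (k + 1) + (k + 1) * (2 * m) + 1 with hG
  refine ⟨G * 18 * (k + 2 + 2 * m), ?_⟩
  intro n ι κ _ J T z H U ψ hread hz hV hread' hK hψ Ω _ _ Y δ hδ hY
  set a : ι → ℝ := fun j => (z j).arg with ha
  have haα : ∀ j ∈ J, |a j| ≤ Real.pi := fun j _ => Complex.abs_arg_le_pi _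
  have hVa : ∑ j ∈ J, a j ^ 2 * (1 / 2 : ℝ) ^ (T j).S.card ≤ 3 * V := by
    calc ∑ j ∈ J, (z j).arg ^ 2 * (1 / 2 : ℝ) ^ (T j).S.card
        ≤ ∑ j ∈ J, 3 * ((1 / 2 : ℝ) ^ (T j).S.card * ‖1 - z j‖ ^ 2) := sum_le_sum fun j hj => by
          have := mul_le_mul_of_nonneg_right (bb_arg (hz j hj))
            (by positivity : (0 : ℝ) ≤ (1 / 2) ^ (T j).S.card)
          linarith
      _ = 3 * ∑ j ∈ J, (1 / 2 : ℝ) ^ (T j).S.card * ‖1 - z j‖ ^ 2 := by rw [mul_sum]
      _ ≤ 3 * V := by linarith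
  set y : Cube n → ℝ := ctr J T a with hy
  set b : ℝ := 9 * ((J.card : ℝ) + 1) with hb
  have hJ0 : (0 : ℝ) ≤ J.card := Nat.cast_nonneg _
  have hH0 : (0 : ℝ) ≤ H.card := Nat.cast_nonneg _
  have hb1 : 1 ≤ b := by rw [hb]; linarith
  have hys : Sp b (fun x => ((y x : ℝ) : ℂ)) := by
    refine (gt_ctr_sp J T a (by norm_num : (0 : ℝ) ≤ 4) (fun j hj => (haα j hj).trans ?_)).mono ?_
    · have := Real.pi_lt_d2
      linarith
    · rw [hb]; norm_num
  -- moments of the remainder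
  have hmom : ∀ q : ℕ, E (brm q y) ≤ 2 * E3 / 4 ^ (2 * q) := fun q =>
    gt_moment (Nat.succ_pos r) J T (fun v => (hread v).trans (Nat.le_succ r)) a haα hVa
      (by norm_num : (0 : ℝ) < 4) q
  have hE_rm : E (brm m y) ≤ ε / 8 := by
    refine (hmom m).trans (le_trans (le_of_eq ?_) hm1)
    rw [pow_mul, show (4 : ℝ) ^ 2 = 16 by norm_num, one_div_pow]
    ring
  have hE_rm2 : E (fun x => brm m y x ^ 2) ≤ ε / 8 * (4 * τ) := by
    refine (E_mono fun x => brm_sq m y x).trans ?_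
    rw [E_smul]
    refine le_trans (mul_le_mul_of_nonneg_left (hmom (2 * m)) (by positivity)) (le_trans (le_of_eq ?_) hm2)
    rw [show 2 * (2 * m) = 4 * m by ring, pow_mul, show (4 : ℝ) ^ 4 = 16 * 16 by norm_num, mul_pow,
      one_div_pow]
    field_simp
  have hE_rk : E (fun x => ck * rk H U k x) ≤ ε / 8 := by
    rw [E_smul]
    exact (mul_le_mul_of_nonneg_left (rk_E (Nat.succ_pos r) H U
      (fun v => (hread' v).trans (Nat.le_succ r)) hK k) hckp.le).trans hk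
  have hE_rk2 : E (fun x => (τ * ck ^ 2) * rk H U k x ^ 2) ≤ ε / 8 := by
    rw [E_smul]
    refine (mul_le_mul_of_nonneg_left (rk_E2 (Nat.succ_pos r) H U
      (fun v => (hread' v).trans (Nat.le_succ r)) hK k) (by positivity)).trans (le_of_eq ?_)
    rw [← hE2, hτ]
    field_simp
  -- the bound
  set Q : Cube n → ℝ := fun x => ck * rk H U k x + brm m y x + ck * rk H U k x * brm m y x with hQ
  have hQE : avg Q ≤ ε / 2 := by
    rw [spb_avg_E]
    have h1 : ∀ x, Q x ≤ (ck * rk H U k x + brm m y x) +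
        ((τ * ck ^ 2) * rk H U k x ^ 2 + (1 / (4 * τ)) * brm m y x ^ 2) := by
      intro x
      rw [hQ]
      simp only
      have h2 : ck * rk H U k x * brm m y x ≤
          (τ * ck ^ 2) * rk H U k x ^ 2 + (1 / (4 * τ)) * brm m y x ^ 2 := by
        have h3 : 0 ≤ (1 / (4 * τ)) * (2 * τ * (ck * rk H U k x) - brm m y x) ^ 2 := by positivity
        have h4 : (1 / (4 * τ)) * (2 * τ * (ck * rk H U k x) - brm m y x) ^ 2 =
            (τ * ck ^ 2) * rk H U k x ^ 2 + (1 / (4 * τ)) * brm m y x ^ 2 -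
              ck * rk H U k x * brm m y x := by
          field_simp
          ring
        linarith
      linarith
    refine (E_mono h1).trans ?_
    rw [E_add, E_add, E_add, E_smul (1 / (4 * τ))]
    have h5 : 1 / (4 * τ) * E (fun x => brm m y x ^ 2) ≤ ε / 8 := by
      rw [one_div, inv_mul_le_iff₀ (by positivity)]
      linarith
    linarith
  have hQ0 : ∀ x, 0 ≤ Q x := fun x => by
    rw [hQ]
    have h1 := rk_nonneg H U k x
    have h2 := brm_nonneg m y x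
    positivity
  have hQs : Sp (ck * ((H.card : ℝ) + 1) ^ (k + 1) + b ^ (2 * m) +
      ck * ((H.card : ℝ) + 1) ^ (k + 1) * b ^ (2 * m)) (fun x => ((Q x : ℝ) : ℂ)) := by
    have h1 := (rk_sp H U k).smul ((ck : ℝ) : ℂ)
    rw [Complex.norm_real, Real.norm_eq_abs, abs_of_pos hckp] at h1
    have h2 := brm_sp hb1 hys m
    refine ((h1.add h2).add (h1.mul h2)).of_eq fun x => ?_
    rw [hQ]
    push_cast
    ring
  have hPs : Sp ((k + 1) * (2 * ((H.card : ℝ) + 1)) ^ k * (2 * m * b ^ (2 * m)))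
      (fun x => psk ψ H U k x * bpm m y x) := (psk_sp ψ hψ H U k).mul (bpm_sp hb1 hys m)
  have hclose : ∀ x, ‖ψ (hx H U x) * Complex.exp (Complex.I * (y x : ℂ)) - psk ψ H U k x * bpm m y x‖ ≤
      Q x := by
    intro x
    have h1 := psk_close ψ hψ H U k x
    have h2 := bpm_close m y x
    have h3 : ‖Complex.exp (Complex.I * (y x : ℂ))‖ = 1 := by
      rw [mul_comm, Complex.norm_exp_ofReal_mul_I]
    have h4 : ‖psk ψ H U k x‖ ≤ 1 + ck * rk H U k x := by
      have : psk ψ H U k x = ψ (hx H U x) - (ψ (hx H U x) - psk ψ H U k x) := by ring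
      rw [this]
      exact (norm_sub_le _ _).trans (add_le_add (hψ _) h1)
    have h5 : ψ (hx H U x) * Complex.exp (Complex.I * (y x : ℂ)) - psk ψ H U k x * bpm m y x =
        (ψ (hx H U x) - psk ψ H U k x) * Complex.exp (Complex.I * (y x : ℂ)) +
        psk ψ H U k x * (Complex.exp (Complex.I * (y x : ℂ)) - bpm m y x) := by ring
    rw [h5]
    refine (norm_add_le _ _).trans ?_
    rw [norm_mul, norm_mul, h3, mul_one]
    have h6 := mul_le_mul h4 h2 (norm_nonneg _) (by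
      have := rk_nonneg H U k x
      positivity)
    rw [hQ]
    simp only
    linarith
  -- the phase of the mean
  have hph : ∀ x, ψ (hx H U x) * tj J T z x =
      Complex.exp (Complex.I * (∑ j ∈ J, a j * (1 / 2) ^ (T j).S.card : ℝ)) *
        (ψ (hx H U x) * Complex.exp (Complex.I * (y x : ℂ))) := by
    intro x
    rw [tj_eq J T z hz x]
    have : Complex.exp (Complex.I * (∑ j ∈ J, (z j).arg * (T j).f x : ℝ)) =
      Complex.exp (Complex.I * (∑ j ∈ J, a j * (1 / 2) ^ (T j).S.card : ℝ)) *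
        Complex.exp (Complex.I * (y x : ℂ)) := by
      rw [← Complex.exp_add, ← mul_add, ← Complex.ofReal_add]
      congr 3
      rw [hy]
      unfold ctr
      rw [← sum_add_distrib]
      exact sum_congr rfl fun j _ => by rw [ha]; ring
    rw [this]
    ring
  have hph1 : (av fun ω => ψ (hx H U (Y ω)) * tj J T z (Y ω)) =
      Complex.exp (Complex.I * (∑ j ∈ J, a j * (1 / 2) ^ (T j).S.card : ℝ)) *
        av fun ω => ψ (hx H U (Y ω)) * Complex.exp (Complex.I * (y (Y ω) : ℂ)) := by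
    rw [← spb_av_mul]
    congr 1
    funext ω
    exact hph (Y ω)
  have hph2 : (av fun x => ψ (hx H U x) * tj J T z x) =
      Complex.exp (Complex.I * (∑ j ∈ J, a j * (1 / 2) ^ (T j).S.card : ℝ)) *
        av fun x => ψ (hx H U x) * Complex.exp (Complex.I * (y x : ℂ)) := by
    rw [← spb_av_mul]
    congr 1
    funext x
    exact hph x
  rw [hph1, hph2, ← mul_sub, norm_mul, mul_comm Complex.I, Complex.norm_exp_ofReal_mul_I, one_mul]
  set F : Cube n → ℂ := fun x => ψ (hx H U x) * Complex.exp (Complex.I * (y x : ℂ)) with hF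
  set P : Cube n → ℂ := fun x => psk ψ H U k x * bpm m y x with hP
  have e1 : ‖(av fun ω => F (Y ω)) - av fun ω => P (Y ω)‖ ≤ avg fun ω => Q (Y ω) := by
    rw [← gt_av_sub]
    exact (norm_av_le _).trans (avg_mono fun ω => hclose (Y ω))
  have e2 : ‖av F - av P‖ ≤ avg Q := by
    rw [← gt_av_sub]
    exact (norm_av_le _).trans (avg_mono fun x => hclose x)
  have e3 := fool hδ hY hPs
  have e4 := (abs_le.1 (fool_real hδ hY hQs)).2
  have e5 : ‖(av fun ω => F (Y ω)) - av F‖ ≤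
      ‖(av fun ω => F (Y ω)) - av fun ω => P (Y ω)‖ + ‖(av fun ω => P (Y ω)) - av P‖ + ‖av F - av P‖ := by
    have h1 : (av fun ω => F (Y ω)) - av F =
      ((av fun ω => F (Y ω)) - av fun ω => P (Y ω)) + ((av fun ω => P (Y ω)) - av P) - (av F - av P) := by
      ring
    rw [h1]
    refine (norm_sub_le _ _).trans ?_
    exact add_le_add_left (norm_add_le _ _) _
  have e6 := bh_norms k m hJ0 hH0
  calc ‖(av fun ω => F (Y ω)) - av F‖ ≤ _ := e5
    _ ≤ 2 * avg Q + δ * ((2 * 3 ^ (k + 1) * ((H.card : ℝ) + 1) ^ (k + 1) +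
      (9 * ((J.card : ℝ) + 1)) ^ (2 * m) +
      2 * 3 ^ (k + 1) * ((H.card : ℝ) + 1) ^ (k + 1) * (9 * ((J.card : ℝ) + 1)) ^ (2 * m)) +
      (k + 1) * (2 * ((H.card : ℝ) + 1)) ^ k * (2 * m * (9 * ((J.card : ℝ) + 1)) ^ (2 * m))) := by
        rw [mul_add]
        linarith
    _ ≤ ε + δ * _ := add_le_add (by linarith) (mul_le_mul_of_nonneg_left e6 hδ)

end Pool.Agent.MP_ca1109_lc.Xg
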