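import Pool.Agent.MP_ca1109_lc.Xg.CO
import Pool.Agent.MP_ca1109_lc.Xp.QCUT
import Pool.Agent.MP_ca1109_lc.Xp.QGN
import Pool.Agent.MP_ca1109_lc.Xp.QGX

/-!
# The main assembly: the generator fools all products of unimodular weights
-/

namespace Pool.Agent.MP_ca1109_lc.Xg

open Finset Pool.Agent.H66 Pool.Agent.MP_ca1109_lc.Mpg Pool.Agent.MP_ca1109_lc.Agp
open Pool.Agent.MP_ca1109_lc.Xp
open Pool.Agent.MP_ca1109_lc.Dnf (Cube ch one E mix)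

variable {n : ℕ}

/-! ## Averages -/

theorem yma_norm_av {A : Type*} [Fintype A] [Nonempty A] {F : A → ℂ} {c : ℝ}
    (h : ∀ a, ‖F a‖ ≤ c) : ‖av F‖ ≤ c :=
  (norm_av_le F).trans ((avg_mono h).trans (le_of_eq (avg_const c)))

theorem yma_av_sub {A : Type*} [Fintype A] (F G : A → ℂ) :
    av (fun a => F a - G a) = av F - av G := by
  unfold av
  rw [Finset.sum_sub_distrib, sub_div]

theorem yma_av_const {A : Type*} [Fintype A] [Nonempty A] (c : ℂ) : av (fun _ : A => c) = c := by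
  have hc : (Fintype.card A : ℂ) ≠ 0 := by exact_mod_cast Fintype.card_ne_zero
  unfold av
  rw [Finset.sum_const, nsmul_eq_mul, Finset.card_univ, mul_comm, mul_div_assoc, div_self hc,
    mul_one]

theorem yma_close {A : Type*} [Fintype A] [Nonempty A] {F G : A → ℂ} {c : ℝ}
    (h : ∀ a, ‖F a - G a‖ ≤ c) : ‖av F - av G‖ ≤ c := by
  rw [← yma_av_sub]
  exact yma_norm_av h

theorem yma_close_const {A : Type*} [Fintype A] [Nonempty A] {F : A → ℂ} {d : ℂ} {c : ℝ}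
    (h : ∀ a, ‖F a - d‖ ≤ c) : ‖av F - d‖ ≤ c := by
  have h1 := yma_close (F := F) (G := fun _ => d) h
  rwa [yma_av_const] at h1

theorem yma_av_mul_left {A : Type*} [Fintype A] (c : ℂ) (F : A → ℂ) :
    av (fun a => c * F a) = c * av F := by
  unfold av
  rw [← Finset.mul_sum, mul_div_assoc]

/-! ## The average over the output of the generator -/

/-- The average over the output of the generator. -/
noncomputable def Pq {L c : ℕ} {Ω₁ Ω₂ Ω₃ : Type} [Fintype Ω₁] [Fintype Ω₂] [Fintype Ω₃]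
    (Y : Ω₁ → Cube n) (η : Fin L → Ω₂ → Finset (Fin n)) (H : Ω₃ → Fin n → Fin c → Bool)
    (f : Cube n → ℂ) : ℂ :=
  av fun b : Fin L → Fin c → Bool => av fun ω₂ => av fun ω₃ =>
    av fun ω₁ => f (gq (Y ω₁) (fun l => η l ω₂) (H ω₃) b)

section Pq

variable {L c : ℕ} {Ω₁ Ω₂ Ω₃ : Type} [Fintype Ω₁] [Fintype Ω₂] [Fintype Ω₃]
    (Y : Ω₁ → Cube n) (η : Fin L → Ω₂ → Finset (Fin n)) (H : Ω₃ → Fin n → Fin c → Bool)

theorem pq_mul (κ : ℂ) (f : Cube n → ℂ) :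
    Pq Y η H (fun x => κ * f x) = κ * Pq Y η H f := by
  unfold Pq
  simp only [yma_av_mul_left]

variable [Nonempty Ω₂] [Nonempty Ω₃]

theorem pq_const {f : Cube n → ℂ} {a : ℂ} {ε : ℝ}
    (h : ∀ s : Cube n, ‖(av fun ω₁ => f (xo (Y ω₁) s)) - a‖ ≤ ε) : ‖Pq Y η H f - a‖ ≤ ε := by
  unfold Pq
  refine yma_close_const fun b => yma_close_const fun ω₂ => yma_close_const fun ω₃ => ?_
  have h1 : (fun ω₁ => f (gq (Y ω₁) (fun l => η l ω₂) (H ω₃) b)) =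
      fun ω₁ => f (xo (Y ω₁) (gq (fun _ => false) (fun l => η l ω₂) (H ω₃) b)) := by
    funext ω₁
    rw [gq_xo]
  rw [h1]
  exact h _

theorem pq_close {f g : Cube n → ℂ} {ε : ℝ}
    (h : ∀ s : Cube n, ‖(av fun ω₁ => f (xo (Y ω₁) s)) - av fun ω₁ => g (xo (Y ω₁) s)‖ ≤ ε) :
    ‖Pq Y η H f - Pq Y η H g‖ ≤ ε := by
  unfold Pq
  refine yma_close fun b => yma_close fun ω₂ => yma_close fun ω₃ => ?_
  have h1 : ∀ f : Cube n → ℂ, (fun ω₁ => f (gq (Y ω₁) (fun l => η l ω₂) (H ω₃) b)) =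
      fun ω₁ => f (xo (Y ω₁) (gq (fun _ => false) (fun l => η l ω₂) (H ω₃) b)) := by
    intro f
    funext ω₁
    rw [gq_xo]
  rw [h1 f, h1 g]
  exact h _

omit [Nonempty Ω₂] [Nonempty Ω₃] in
theorem pq_level (l : Fin L) {f : Cube n → ℂ} {ε : ℝ}
    (h : ∀ sh : Ω₂ → Ω₃ → Cube n, ‖av fun ω₂ => av fun ω₃ => av fun ω₁ =>
      av fun u : Fin c → Bool => f (mq (xo (Y ω₁) (sh ω₂ ω₃)) (η l ω₂) (uv u (H ω₃)))‖ ≤ ε) :
    ‖Pq Y η H f‖ ≤ ε := by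
  unfold Pq
  rw [av_update l]
  refine yma_norm_av fun b => ?_
  have h1 : (av fun u : Fin c → Bool => av fun ω₂ => av fun ω₃ => av fun ω₁ =>
      f (gq (Y ω₁) (fun l => η l ω₂) (H ω₃) (Function.update b l u))) =
      av fun ω₂ => av fun ω₃ => av fun ω₁ => av fun u : Fin c → Bool =>
        f (mq (xo (Y ω₁) (gq (fun _ => false) (fun l => η l ω₂) (H ω₃)
          (Function.update b l fun _ => false))) (η l ω₂) (uv u (H ω₃))) := by
    rw [av_comm]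
    congr 1
    funext ω₂
    rw [av_comm]
    congr 1
    funext ω₃
    rw [av_comm]
    congr 1
    funext ω₁
    congr 1
    funext u
    rw [gq_update]
  rw [h1]
  exact h fun ω₂ ω₃ => gq (fun _ => false) (fun l => η l ω₂) (H ω₃)
    (Function.update b l fun _ => false)

end Pq

theorem yma_unif (f : Cube n → ℂ) (s v : Cube n) (η : Finset (Fin n)) :
    (av fun y : Cube n => f (mq (xo y s) η v)) = av f := by
  have h1 : (fun y : Cube n => f (mq (xo y s) η v)) =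
      fun y => (fun z => f (xo z fun i => decide (i ∈ η) && v i)) (xo y s) := rfl
  rw [h1, av_xo (fun z => f (xo z fun i => decide (i ∈ η) && v i)) s, av_xo]

/-! ## The products -/

theorem yma_norm_pr {ζ : Finset (Fin n) → ℂ} {M : Finset (Finset (Fin n))}
    (h : ∀ m ∈ M, ‖ζ m‖ = 1) (x : Cube n) : ‖pr ζ M x‖ = 1 := by
  unfold pr
  rw [norm_prod]
  refine Finset.prod_eq_one fun m hm => ?_
  split_ifs
  · exact h m hm
  · exact norm_one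

theorem yma_split (ζ : Finset (Fin n) → ℂ) (M : Finset (Finset (Fin n))) (x : Cube n) :
    pr ζ M x = pr ζ (M.filter fun m => ¬ m ≠ ∅) (fun _ => false) *
      pr ζ (M.filter fun m => m ≠ ∅) x := by
  have h1 : pr ζ M x = pr ζ (M.filter fun m => m ≠ ∅) x * pr ζ (M.filter fun m => ¬ m ≠ ∅) x := by
    unfold pr
    exact (Finset.prod_filter_mul_prod_filter_not M _ _).symm
  have h2 : pr ζ (M.filter fun m => ¬ m ≠ ∅) x =
      pr ζ (M.filter fun m => ¬ m ≠ ∅) (fun _ => false) := by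
    unfold pr
    refine Finset.prod_congr rfl fun m hm => ?_
    have h3 : m = ∅ := not_not.1 (Finset.mem_filter.1 hm).2
    subst h3
    have h4 : ∀ z : Cube n, Tr ∅ z := fun z i hi => absurd hi (Finset.notMem_empty i)
    rw [if_pos (h4 x), if_pos (h4 _)]
  rw [h1, h2, mul_comm]

theorem yma_rd {r : ℕ} {M M' : Finset (Finset (Fin n))} (h : Rd r M) (hs : M' ⊆ M) : Rd r M' :=
  fun i => (Finset.card_le_card (Finset.filter_subset_filter _ hs)).trans (h i)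

theorem yma_card {r : ℕ} {M : Finset (Finset (Fin n))} (h0 : ∀ m ∈ M, m ≠ ∅) (hM : Rd r M) :
    M.card ≤ r * n := by
  classical
  have h1 : M ⊆ (univ : Finset (Fin n)).biUnion fun i => M.filter fun m => i ∈ m := by
    intro m hm
    obtain ⟨i, hi⟩ := Finset.nonempty_iff_ne_empty.2 (h0 m hm)
    exact Finset.mem_biUnion.2 ⟨i, Finset.mem_univ _, Finset.mem_filter.2 ⟨hm, hi⟩⟩
  refine (Finset.card_le_card h1).trans (Finset.card_biUnion_le.trans ?_)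
  refine (Finset.sum_le_card_nsmul _ _ r fun i _ => hM i).trans ?_
  rw [Finset.card_univ, Fintype.card_fin, smul_eq_mul, mul_comm]

/-! ## Numbers -/

theorem yma_clog (n : ℕ) : (2 : ℝ) ^ Nat.clog 2 n ≤ 2 * ((n : ℝ) + 1) := by
  rcases Nat.lt_or_ge 1 n with h | h
  · have h1 := Nat.pow_pred_clog_lt_self one_lt_two h
    have h2 : Nat.clog 2 n ≠ 0 := (Nat.clog_pos one_lt_two h).ne'
    obtain ⟨k, hk⟩ := Nat.exists_eq_succ_of_ne_zero h2
    rw [hk, Nat.pred_succ] at h1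
    have h3 : ((2 ^ k : ℕ) : ℝ) < n := by exact_mod_cast h1
    push_cast at h3
    rw [hk, pow_succ]
    linarith
  · have h1 : Nat.clog 2 n = 0 := by
      rw [Nat.clog_of_right_le_one h]
    rw [h1, pow_zero]
    have : (0 : ℝ) ≤ n := Nat.cast_nonneg n
    linarith

theorem yma_clog' (n : ℕ) : (n : ℝ) ≤ (2 : ℝ) ^ Nat.clog 2 n := by
  exact_mod_cast Nat.le_pow_clog one_lt_two n

theorem yma_clog_le (n : ℕ) : Nat.clog 2 n ≤ n :=
  Nat.clog_le_of_le_pow Nat.lt_two_pow_self.le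

theorem yma_pow (n j K : ℕ) (h : j + 1 ≤ K) {c₀ : ℝ} (hc : 0 ≤ c₀) :
    1 / ((n : ℝ) + 1) ^ K * (c₀ * ((n : ℝ) + 1) ^ j) ≤ c₀ / ((n : ℝ) + 1) := by
  have hn : (1 : ℝ) ≤ (n : ℝ) + 1 := by
    have : (0 : ℝ) ≤ n := Nat.cast_nonneg n
    linarith
  have h1 : ((n : ℝ) + 1) ^ (j + 1) ≤ ((n : ℝ) + 1) ^ K := pow_le_pow_right₀ hn h
  have h2 : 0 < (n : ℝ) + 1 := by linarith
  rw [one_div, ← div_eq_inv_mul, div_le_div_iff₀ (by positivity) h2]
  calc c₀ * ((n : ℝ) + 1) ^ j * ((n : ℝ) + 1) = c₀ * ((n : ℝ) + 1) ^ (j + 1) := by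
        rw [pow_succ]; ring
    _ ≤ c₀ * ((n : ℝ) + 1) ^ K := mul_le_mul_of_nonneg_left h1 hc

/-- The error of the generator, times a polynomial. -/
theorem yma_err (n r j K : ℕ) (h : j + 5 ≤ K) {b X : ℝ} (hb : 0 ≤ b) (hX : 0 ≤ X)
    (hXb : X ≤ b * ((n : ℝ) + 1) ^ j) :
    2 ^ (2 * (2 * Nat.clog 2 n + r)) / ((n : ℝ) + 1) ^ K * X ≤ 16 * 4 ^ r * b / ((n : ℝ) + 1) := by
  have hn : (0 : ℝ) ≤ n := Nat.cast_nonneg n
  have h1 : (2 : ℝ) ^ (2 * (2 * Nat.clog 2 n + r)) ≤ 16 * 4 ^ r * ((n : ℝ) + 1) ^ 4 := by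
    have h2 : (2 : ℝ) ^ (2 * (2 * Nat.clog 2 n + r)) = 4 ^ r * ((2 : ℝ) ^ Nat.clog 2 n) ^ 4 := by
      rw [show (4 : ℝ) ^ r = (2 ^ 2) ^ r by norm_num, ← pow_mul, ← pow_mul, ← pow_add]
      congr 1
      ring
    rw [h2]
    have h3 : ((2 : ℝ) ^ Nat.clog 2 n) ^ 4 ≤ (2 * ((n : ℝ) + 1)) ^ 4 :=
      pow_le_pow_left₀ (by positivity) (yma_clog n) 4
    calc (4 : ℝ) ^ r * ((2 : ℝ) ^ Nat.clog 2 n) ^ 4 ≤ 4 ^ r * (2 * ((n : ℝ) + 1)) ^ 4 :=
          mul_le_mul_of_nonneg_left h3 (by positivity)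
      _ = 16 * 4 ^ r * ((n : ℝ) + 1) ^ 4 := by ring
  have h4 := yma_pow n (4 + j) K (by omega) (show (0 : ℝ) ≤ 16 * 4 ^ r * b by positivity)
  calc 2 ^ (2 * (2 * Nat.clog 2 n + r)) / ((n : ℝ) + 1) ^ K * X
      = 1 / ((n : ℝ) + 1) ^ K * (2 ^ (2 * (2 * Nat.clog 2 n + r)) * X) := by ring
    _ ≤ 1 / ((n : ℝ) + 1) ^ K * ((16 * 4 ^ r * ((n : ℝ) + 1) ^ 4) * (b * ((n : ℝ) + 1) ^ j)) := by
        refine mul_le_mul_of_nonneg_left ?_ (by positivity)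
        exact mul_le_mul h1 hXb hX (by positivity)
    _ = 1 / ((n : ℝ) + 1) ^ K * (16 * 4 ^ r * b * ((n : ℝ) + 1) ^ (4 + j)) := by
        rw [pow_add]
        ring
    _ ≤ _ := h4

/-! ## The main theorem -/

theorem gx_all (r : ℕ) {ε : ℝ} (hε : 0 < ε) : ∃ E G, NG E G ∧ ∃ n₀ : ℕ, ∀ n ≥ n₀,
    ∀ (M : Finset (Finset (Fin n))) (ζ : Finset (Fin n) → ℂ), Rd r M →
      (∀ m ∈ M, ‖ζ m‖ = 1) →
      ‖na (2 ^ E n) (fun p => pr ζ M (out G n p)) - av (pr ζ M)‖ ≤ ε := by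
  classical
  obtain ⟨c, C₁, n₁, t, ht, hcore⟩ := core r (show 0 < ε / 8 by positivity)
  obtain ⟨C₂, n₂, hone⟩ := bb_one r (2 * t) (show 0 < ε / 4 by positivity)
  obtain ⟨K, hK⟩ : ∃ K : ℕ, K = C₁ + C₂ + 14 := ⟨_, rfl⟩
  obtain ⟨E, G, hG, hgen⟩ := qgen r c K
  obtain ⟨a, ha⟩ : ∃ a : ℝ, a = 16 * 4 ^ r := ⟨_, rfl⟩
  have ha0 : 0 ≤ a := by rw [ha]; positivity
  obtain ⟨n₀, hn₀⟩ := exists_nat_gt (a + a * C₁ + a * (4 * ((r : ℝ) + 1) ^ 2) +
    (8 * r * (1 + a)) / ε)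
  refine ⟨E, G, hG, max (max n₁ n₂) (max n₀ 1), fun n hn M ζ hM hζ => ?_⟩
  have hn1 : n₁ ≤ n := (le_max_left _ _).trans ((le_max_left _ _).trans hn)
  have hn2 : n₂ ≤ n := (le_max_right _ _).trans ((le_max_left _ _).trans hn)
  have hn0 : n₀ ≤ n := (le_max_left _ _).trans ((le_max_right _ _).trans hn)
  have hn3 : 1 ≤ n := (le_max_right _ _).trans ((le_max_right _ _).trans hn)
  have hnn : (n₀ : ℝ) ≤ n := by exact_mod_cast hn0
  have hnr : (1 : ℝ) ≤ n := by exact_mod_cast hn3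
  have hC₁0 : (0 : ℝ) ≤ C₁ := Nat.cast_nonneg _
  have hr0 : (0 : ℝ) ≤ r := Nat.cast_nonneg _
  have hbig := hn₀.le.trans hnn
  have g1 : (0 : ℝ) ≤ a * C₁ := by positivity
  have g2 : (0 : ℝ) ≤ a * (4 * ((r : ℝ) + 1) ^ 2) := by positivity
  have g3 : (0 : ℝ) ≤ (8 * r * (1 + a)) / ε := by positivity
  -- the widths and the errors
  obtain ⟨W, hW⟩ : ∃ W : ℕ, W = 2 * Nat.clog 2 n := ⟨_, rfl⟩
  obtain ⟨δ, hδ⟩ : ∃ δ : ℝ, δ = 2 ^ (2 * (W + r)) / ((n : ℝ) + 1) ^ K := ⟨_, rfl⟩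
  have hδ0 : 0 ≤ δ := by rw [hδ]; positivity
  have hδ' : 1 / ((n : ℝ) + 1) ^ K ≤ δ := by
    rw [hδ]
    exact div_le_div_of_nonneg_right (one_le_pow₀ (by norm_num)) (by positivity)
  have hδ2 : δ = 2 ^ (2 * (2 * Nat.clog 2 n + r)) / ((n : ℝ) + 1) ^ K := by rw [hδ, hW]
  have e1 : δ * (n : ℝ) ^ C₂ ≤ 1 := by
    have h1 := yma_err n r C₂ K (by omega) zero_le_one (X := (n : ℝ) ^ C₂) (by positivity)
      (by rw [one_mul]; exact pow_le_pow_left₀ (by linarith) (by linarith) _)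
    rw [← hδ2, ← ha, mul_one] at h1
    refine h1.trans ?_
    rw [div_le_one (by linarith)]
    linarith
  have e2 : C₁ * δ * (n : ℝ) ^ C₁ ≤ 1 := by
    have h1 := yma_err n r C₁ K (by omega) hC₁0 (X := C₁ * (n : ℝ) ^ C₁) (by positivity)
      (mul_le_mul_of_nonneg_left (pow_le_pow_left₀ (by linarith) (by linarith) _) hC₁0)
    rw [← hδ2, ← ha] at h1
    calc C₁ * δ * (n : ℝ) ^ C₁ = δ * (C₁ * (n : ℝ) ^ C₁) := by ring
      _ ≤ a * C₁ / ((n : ℝ) + 1) := h1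
      _ ≤ 1 := by
        rw [div_le_one (by linarith)]
        linarith
  have e3 : ∀ N : ℕ, N ≤ r * n → δ * ((N : ℝ) + 1) ^ 2 * ((W : ℝ) + 1) ^ 2 ≤ 1 := by
    intro N hN
    have hN' : (N : ℝ) ≤ r * n := by exact_mod_cast hN
    have hN0 : (0 : ℝ) ≤ N := Nat.cast_nonneg _
    have hW0 : (0 : ℝ) ≤ W := Nat.cast_nonneg _
    have hW' : (W : ℝ) ≤ 2 * n := by
      rw [hW]
      exact_mod_cast Nat.mul_le_mul_left 2 (yma_clog_le n)
    have h2 : ((N : ℝ) + 1) ^ 2 ≤ (((r : ℝ) + 1) * ((n : ℝ) + 1)) ^ 2 :=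
      pow_le_pow_left₀ (by linarith) (by nlinarith) 2
    have h3 : ((W : ℝ) + 1) ^ 2 ≤ (2 * ((n : ℝ) + 1)) ^ 2 :=
      pow_le_pow_left₀ (by linarith) (by linarith) 2
    have h1 := yma_err n r 4 K (by omega) (show (0 : ℝ) ≤ 4 * ((r : ℝ) + 1) ^ 2 by positivity)
      (X := ((N : ℝ) + 1) ^ 2 * ((W : ℝ) + 1) ^ 2) (by positivity) (by
        calc ((N : ℝ) + 1) ^ 2 * ((W : ℝ) + 1) ^ 2 ≤
              (((r : ℝ) + 1) * ((n : ℝ) + 1)) ^ 2 * (2 * ((n : ℝ) + 1)) ^ 2 :=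
              mul_le_mul h2 h3 (by positivity) (by positivity)
          _ = 4 * ((r : ℝ) + 1) ^ 2 * ((n : ℝ) + 1) ^ 4 := by ring)
    rw [← hδ2, ← ha] at h1
    calc δ * ((N : ℝ) + 1) ^ 2 * ((W : ℝ) + 1) ^ 2 =
          δ * (((N : ℝ) + 1) ^ 2 * ((W : ℝ) + 1) ^ 2) := by ring
      _ ≤ a * (4 * ((r : ℝ) + 1) ^ 2) / ((n : ℝ) + 1) := h1
      _ ≤ 1 := by
        rw [div_le_one (by linarith)]
        linarith
  have e4 : ∀ N : ℕ, N ≤ r * n → 2 * (N : ℝ) * ((1 / 2) ^ W + δ) ≤ ε / 4 := by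
    intro N hN
    have hN' : (N : ℝ) ≤ r * n := by exact_mod_cast hN
    have h1 : ((1 : ℝ) / 2) ^ W ≤ 1 / n ^ 2 := by
      have h2 : ((1 : ℝ) / 2) ^ W = 1 / ((2 : ℝ) ^ Nat.clog 2 n) ^ 2 := by
        rw [hW, one_div_pow, mul_comm 2 (Nat.clog 2 n), pow_mul]
      rw [h2]
      apply one_div_le_one_div_of_le (by positivity)
      exact pow_le_pow_left₀ (by linarith) (yma_clog' n) 2
    have h3 : δ ≤ a / n ^ 2 := by
      have h4 := yma_err n r 1 K (by omega) zero_le_one (X := (n : ℝ)) (by linarith)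
        (by rw [one_mul, pow_one]; linarith)
      rw [← hδ2, ← ha, mul_one] at h4
      rw [le_div_iff₀ (by positivity)]
      have h5 : δ * n * (n : ℝ) ≤ a / ((n : ℝ) + 1) * n :=
        mul_le_mul_of_nonneg_right h4 (by linarith)
      have h6 : a / ((n : ℝ) + 1) * n ≤ a := by
        rw [div_mul_eq_mul_div, div_le_iff₀ (by linarith)]
        nlinarith
      calc δ * (n : ℝ) ^ 2 = δ * n * n := by ring
        _ ≤ a := h5.trans h6
    have h7 : (8 * r * (1 + a)) ≤ ε * n := by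
      have h8 : (8 * r * (1 + a)) / ε ≤ n := by linarith
      rw [div_le_iff₀ hε] at h8
      linarith
    calc 2 * (N : ℝ) * ((1 / 2) ^ W + δ) ≤ 2 * (r * n) * (1 / n ^ 2 + a / n ^ 2) := by
          refine mul_le_mul (by linarith) (add_le_add h1 h3) (by positivity) (by positivity)
      _ = 2 * r * (1 + a) / n := by
          field_simp
      _ ≤ ε / 4 := by
          rw [div_le_div_iff₀ (by linarith) (by norm_num)]
          linarith
  -- the generator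
  obtain ⟨M₁, M₂, M₃, hM₁, hM₂, hM₃, Y, η, H, hY, hη, hH, hf⟩ := hgen n
  have : Nonempty (Fin M₁) := ⟨⟨0, hM₁⟩⟩
  have : Nonempty (Fin M₂) := ⟨⟨0, hM₂⟩⟩
  have : Nonempty (Fin M₃) := ⟨⟨0, hM₃⟩⟩
  have hY' : Bias δ Y := Bias.mono hY hδ'
  have hU : Bias δ (fun x : Cube n => x) := Bias.mono Bias.unif hδ0
  have hH' : Hs ((1 / 2) ^ c + δ) H := fun Q hQ => (hH Q hQ).trans (by linarith)
  have hf' : na (2 ^ E n) (fun p => pr ζ M (out G n p)) = Pq Y η H (pr ζ M) := hf _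
  rw [hf']
  -- the empty monomial
  obtain ⟨P, hP⟩ : ∃ P, P = M.filter fun m => m ≠ ∅ := ⟨_, rfl⟩
  obtain ⟨κ, hκ⟩ : ∃ κ, κ = pr ζ (M.filter fun m => ¬ m ≠ ∅) (fun _ => false) := ⟨_, rfl⟩
  have hκ1 : ‖κ‖ = 1 := by
    rw [hκ]
    exact yma_norm_pr (fun m hm => hζ m (Finset.mem_filter.1 hm).1) _
  have hpr : pr ζ M = fun x => κ * pr ζ P x := by
    funext x
    rw [hκ, hP]
    exact yma_split ζ M x
  have hPs : P ⊆ M := by rw [hP]; exact Finset.filter_subset _ _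
  have hPζ : ∀ m ∈ P, ‖ζ m‖ = 1 := fun m hm => hζ m (hPs hm)
  have hPr : Rd r P := yma_rd hM hPs
  have hP0 : ∀ m ∈ P, m ≠ ∅ := fun m hm => by
    rw [hP] at hm
    exact (Finset.mem_filter.1 hm).2
  have hPc := yma_card hP0 hPr
  rw [hpr, pq_mul, yma_av_mul_left, ← mul_sub, norm_mul, hκ1, one_mul]
  -- the wide monomials
  obtain ⟨N, hN⟩ : ∃ N, N = P.filter fun m => m.card ≤ W := ⟨_, rfl⟩
  have hNs : N ⊆ P := by rw [hN]; exact Finset.filter_subset _ _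
  have hNζ : ∀ m ∈ N, ‖ζ m‖ = 1 := fun m hm => hPζ m (hNs hm)
  have hNr : Rd r N := yma_rd hPr hNs
  have hN0 : ∀ m ∈ N, m ≠ ∅ := fun m hm => hP0 m (hNs hm)
  have hNw : ∀ m ∈ N, m.card ≤ W := fun m hm => by
    rw [hN] at hm
    exact (Finset.mem_filter.1 hm).2
  have hNc := yma_card hN0 hNr
  have d1 : ‖Pq Y η H (pr ζ P) - Pq Y η H (pr ζ N)‖ ≤ ε / 4 := by
    refine (pq_close Y η H fun s => ?_).trans (e4 _ hPc)
    rw [hN]
    exact cut' hPζ (fun ω => xo (Y ω) s) hδ0 (hY'.xo s)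
  have d2 : ‖av (pr ζ P) - av (pr ζ N)‖ ≤ ε / 4 := by
    refine le_trans ?_ (e4 _ hPc)
    rw [hN]
    exact cut' hPζ (fun x : Cube n => x) hδ0 hU
  -- the narrow monomials
  have hgap0 : ∀ m ∈ N, 0 ≤ gap ζ m := fun m _ => by unfold gap; positivity
  have hgap1 : ∀ m ∈ N, gap ζ m ≤ 1 := by
    intro m hm
    have h1 : ‖1 - ζ m‖ ≤ 2 := by
      calc ‖1 - ζ m‖ ≤ ‖(1 : ℂ)‖ + ‖ζ m‖ := norm_sub_le _ _
        _ = 2 := by rw [hNζ m hm, norm_one]; norm_num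
    unfold gap
    have h2 := norm_nonneg (1 - ζ m)
    nlinarith
  have d3 : ‖Pq Y η H (pr ζ N) - av (pr ζ N)‖ ≤ ε / 4 := by
    rcases le_or_gt (mw (1 / 2) (gap ζ) N) t with hm | hm
    · refine pq_const Y η H fun s => ?_
      refine hone n hn2 N ζ hN0 hNr hNζ ?_ (fun ω => xo (Y ω) s) δ hδ0 e1 (hY'.xo s)
      exact (sum_le_mw hN0 hgap0).trans (by linarith)
    · have hL : N.card ≤ 2 ^ (Nat.clog 2 n + r + 1) := by
        have h1 : n ≤ 2 ^ Nat.clog 2 n := Nat.le_pow_clog one_lt_two n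
        have h2 : r ≤ 2 ^ r := Nat.lt_two_pow_self.le
        calc N.card ≤ r * n := hNc
          _ ≤ 2 ^ r * 2 ^ Nat.clog 2 n := Nat.mul_le_mul h2 h1
          _ = 2 ^ (Nat.clog 2 n + r) := by rw [pow_add, mul_comm]
          _ ≤ 2 ^ (Nat.clog 2 n + r + 1) := Nat.pow_le_pow_right (by norm_num) (by omega)
      obtain ⟨l, hl, hl1, hl2⟩ := level ht hgap0 hgap1 hL hm
      have hp0 : (0 : ℝ) ≤ (1 / 2) ^ (l + 1) := by positivity
      have hp1 : (1 / 2 : ℝ) ^ (l + 1) ≤ 1 / 2 := by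
        calc (1 / 2 : ℝ) ^ (l + 1) ≤ (1 / 2) ^ 1 :=
              pow_le_pow_of_le_one (by norm_num) (by norm_num) (by omega)
          _ = 1 / 2 := pow_one _
      have hmiss : Miss (2 * (W + r)) ((1 / 2 : ℝ) ^ (l + 1)) δ (η ⟨l, hl⟩) := by
        rw [hδ]
        exact hη ⟨l, hl⟩ (2 * (W + r))
      have hfam : Fam r W N := ⟨hN0, hNr, hNw⟩
      have k1 : ‖Pq Y η H (pr ζ N)‖ ≤ ε / 8 :=
        pq_level Y η H ⟨l, hl⟩ fun sh => hcore n hn1 W N ζ hfam hNζ _ δ hp0 hp1 hl1 hl2 hδ0 e2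
          (e3 _ hNc) Y (η ⟨l, hl⟩) H sh hY' hmiss hH'
      have k2 : ‖av (pr ζ N)‖ ≤ ε / 8 := by
        have h1 := hcore n hn1 W N ζ hfam hNζ _ δ hp0 hp1 hl1 hl2 hδ0 e2
          (e3 _ hNc) (fun x : Cube n => x) (η ⟨l, hl⟩) H (fun _ _ _ => false) hU hmiss hH'
        have h2 : (av fun ω₂ : Fin M₂ => av fun ω₃ : Fin M₃ => av fun x : Cube n =>
            av fun b : Fin c → Bool =>
            pr ζ N (mq (xo x fun _ => false) (η ⟨l, hl⟩ ω₂) (uv b (H ω₃)))) = av (pr ζ N) := by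
          have h3 : ∀ (ω₂ : Fin M₂) (ω₃ : Fin M₃), (av fun x : Cube n => av fun b : Fin c → Bool =>
              pr ζ N (mq (xo x fun _ => false) (η ⟨l, hl⟩ ω₂) (uv b (H ω₃)))) = av (pr ζ N) := by
            intro ω₂ ω₃
            rw [av_comm]
            simp only [yma_unif]
            exact yma_av_const _
          simp only [h3]
          rw [yma_av_const, yma_av_const]
        rw [h2] at h1
        exact h1
      calc ‖Pq Y η H (pr ζ N) - av (pr ζ N)‖ ≤ ‖Pq Y η H (pr ζ N)‖ + ‖av (pr ζ N)‖ :=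
            norm_sub_le _ _
        _ ≤ ε / 4 := by linarith
  calc ‖Pq Y η H (pr ζ P) - av (pr ζ P)‖
      = ‖(Pq Y η H (pr ζ P) - Pq Y η H (pr ζ N)) + (Pq Y η H (pr ζ N) - av (pr ζ N)) -
          (av (pr ζ P) - av (pr ζ N))‖ := by
        congr 1
        ring
    _ ≤ ‖(Pq Y η H (pr ζ P) - Pq Y η H (pr ζ N)) + (Pq Y η H (pr ζ N) - av (pr ζ N))‖ +
          ‖av (pr ζ P) - av (pr ζ N)‖ := norm_sub_le _ _
    _ ≤ (‖Pq Y η H (pr ζ P) - Pq Y η H (pr ζ N)‖ + ‖Pq Y η H (pr ζ N) - av (pr ζ N)‖) +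
          ‖av (pr ζ P) - av (pr ζ N)‖ := add_le_add (norm_add_le _ _) le_rfl
    _ ≤ ε := by linarith

end Pool.Agent.MP_ca1109_lc.Xg
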