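import Pool.Agent.MP_ca1109_lc.Xp.Defs
import Pool.Agent.MP_ca1109_lc.Agp.N1
import Pool.Agent.MP_ca1109_lc.Dnf.B1

/-!
# Combinations of products of unimodular weights, Boolean functions of approximable tests
-/

namespace Pool.Agent.MP_ca1109_lc.Xg

open Finset Pool.Agent.H66 Pool.Agent.MP_ca1109_lc.Mpg Pool.Agent.MP_ca1109_lc.Agp
open Pool.Agent.MP_ca1109_lc.Xp
open Pool.Agent.MP_ca1109_lc.Dnf (Cube ch one)

variable {n : ℕ}

/-- The string `X ω` fools, with error at most `ε`, all products of unimodular weights of monomials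
of read `r`. -/
def Fools (r : ℕ) (ε : ℝ) {Ω : Type*} [Fintype Ω] (X : Ω → Cube n) : Prop :=
  ∀ (M : Finset (Finset (Fin n))) (ζ : Finset (Fin n) → ℂ), Rd r M → (∀ m ∈ M, ‖ζ m‖ = 1) →
    ‖av (fun ω => pr ζ M (X ω)) - av (pr ζ M)‖ ≤ ε

/-- `f` is a combination of products of unimodular weights with coefficients of total size at most
`B`. -/
def Cmb (M : Finset (Finset (Fin n))) (B : ℝ) (f : Cube n → ℂ) : Prop :=
  ∃ (ι : Type) (_ : Fintype ι) (c : ι → ℂ) (ζ : ι → Finset (Fin n) → ℂ),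
    (∀ i, ∀ m ∈ M, ‖ζ i m‖ = 1) ∧ (∑ i, ‖c i‖ ≤ B) ∧ ∀ x, f x = ∑ i, c i * pr (ζ i) M x

theorem xth_pr_one (M : Finset (Finset (Fin n))) (x : Cube n) : pr (fun _ => 1) M x = 1 := by
  unfold pr
  refine prod_eq_one fun m _ => ?_
  split_ifs <;> rfl

theorem xth_pr_mul (ζ ζ' : Finset (Fin n) → ℂ) (M : Finset (Finset (Fin n))) (x : Cube n) :
    pr (fun m => ζ m * ζ' m) M x = pr ζ M x * pr ζ' M x := by
  unfold pr
  rw [← prod_mul_distrib]
  refine prod_congr rfl fun m _ => ?_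
  split_ifs
  · rfl
  · rw [one_mul]

theorem xth_norm_pr {M : Finset (Finset (Fin n))} {ζ : Finset (Fin n) → ℂ} (hζ : ∀ m ∈ M, ‖ζ m‖ = 1)
    (x : Cube n) : ‖pr ζ M x‖ = 1 := by
  unfold pr
  rw [norm_prod]
  refine prod_eq_one fun m hm => ?_
  split_ifs
  · exact hζ m hm
  · simp

section cmb

variable {M : Finset (Finset (Fin n))} {B B' : ℝ} {f g : Cube n → ℂ}

theorem Cmb.mono (h : Cmb M B f) (hB : B ≤ B') : Cmb M B' f := by
  obtain ⟨ι, hι, c, ζ, h1, h2, h3⟩ := h
  exact ⟨ι, hι, c, ζ, h1, h2.trans hB, h3⟩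

theorem Cmb.of_eq (h : Cmb M B f) (hfg : ∀ x, f x = g x) : Cmb M B g := by
  obtain ⟨ι, hι, c, ζ, h1, h2, h3⟩ := h
  exact ⟨ι, hι, c, ζ, h1, h2, fun x => (hfg x).symm.trans (h3 x)⟩

theorem Cmb.nonneg (h : Cmb M B f) : 0 ≤ B := by
  obtain ⟨ι, hι, c, ζ, h1, h2, h3⟩ := h
  exact (sum_nonneg fun i _ => norm_nonneg (c i)).trans h2

theorem Cmb.const (c : ℂ) : Cmb M ‖c‖ (fun _ => c) := by
  refine ⟨Unit, inferInstance, fun _ => c, fun _ _ => 1, fun _ _ _ => norm_one, ?_, fun x => ?_⟩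
  · simp
  · simp [xth_pr_one]

theorem Cmb.pr {ζ : Finset (Fin n) → ℂ} (hζ : ∀ m ∈ M, ‖ζ m‖ = 1) : Cmb M 1 (Xp.pr ζ M) := by
  refine ⟨Unit, inferInstance, fun _ => 1, fun _ => ζ, fun _ => hζ, ?_, fun x => ?_⟩
  · simp
  · simp

theorem Cmb.add (h : Cmb M B f) (h' : Cmb M B' g) : Cmb M (B + B') (fun x => f x + g x) := by
  obtain ⟨ι, hι, c, ζ, h1, h2, h3⟩ := h
  obtain ⟨ι', hι', c', ζ', h1', h2', h3'⟩ := h'
  refine ⟨ι ⊕ ι', inferInstance, Sum.elim c c', Sum.elim ζ ζ', ?_, ?_, fun x => ?_⟩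
  · rintro (i | i) m hm
    · exact h1 i m hm
    · exact h1' i m hm
  · rw [Fintype.sum_sum_type]
    exact add_le_add h2 h2'
  · show f x + g x = _
    rw [Fintype.sum_sum_type, h3, h3']
    rfl

theorem Cmb.smul (a : ℂ) (h : Cmb M B f) : Cmb M (‖a‖ * B) (fun x => a * f x) := by
  obtain ⟨ι, hι, c, ζ, h1, h2, h3⟩ := h
  refine ⟨ι, hι, fun i => a * c i, ζ, h1, ?_, fun x => ?_⟩
  · simp only [norm_mul, ← mul_sum]
    exact mul_le_mul_of_nonneg_left h2 (norm_nonneg _)
  · show a * f x = ∑ i, a * c i * Xp.pr (ζ i) M x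
    rw [h3, mul_sum]
    exact sum_congr rfl fun i _ => by ring

theorem Cmb.mul (h : Cmb M B f) (h' : Cmb M B' g) : Cmb M (B * B') (fun x => f x * g x) := by
  obtain ⟨ι, hι, c, ζ, h1, h2, h3⟩ := h
  obtain ⟨ι', hι', c', ζ', h1', h2', h3'⟩ := h'
  refine ⟨ι × ι', inferInstance, fun i => c i.1 * c' i.2, fun i m => ζ i.1 m * ζ' i.2 m, ?_, ?_,
    fun x => ?_⟩
  · intro i m hm
    rw [norm_mul, h1 _ m hm, h1' _ m hm, one_mul]
  · rw [Fintype.sum_prod_type]
    simp only [norm_mul, ← mul_sum, ← sum_mul]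
    exact mul_le_mul h2 h2' (sum_nonneg fun _ _ => norm_nonneg _)
      ((sum_nonneg fun _ _ => norm_nonneg _).trans h2)
  · show f x * g x = _
    rw [h3, h3', Fintype.sum_prod_type, sum_mul_sum]
    refine sum_congr rfl fun i _ => sum_congr rfl fun j _ => ?_
    rw [xth_pr_mul]
    ring

theorem Cmb.sum {ι : Type*} (s : Finset ι) (b : ι → ℝ) (F : ι → Cube n → ℂ)
    (h : ∀ i ∈ s, Cmb M (b i) (F i)) : Cmb M (∑ i ∈ s, b i) (fun x => ∑ i ∈ s, F i x) := by
  classical
  induction s using Finset.induction_on with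
  | empty =>
    simp only [sum_empty]
    exact (Cmb.const (M := M) 0).mono (by simp)
  | insert a s ha ih =>
    simp only [sum_insert ha]
    exact (h a (mem_insert_self a s)).add (ih fun i hi => h i (mem_insert_of_mem hi))

theorem Cmb.prod {ι : Type*} (s : Finset ι) (b : ι → ℝ) (F : ι → Cube n → ℂ)
    (h : ∀ i ∈ s, Cmb M (b i) (F i)) : Cmb M (∏ i ∈ s, b i) (fun x => ∏ i ∈ s, F i x) := by
  classical
  induction s using Finset.induction_on with
  | empty =>
    simp only [prod_empty]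
    exact (Cmb.const (M := M) 1).mono (by simp)
  | insert a s ha ih =>
    simp only [prod_insert ha]
    exact (h a (mem_insert_self a s)).mul (ih fun i hi => h i (mem_insert_of_mem hi))

theorem Fools.cmb {r : ℕ} {ε : ℝ} (hε : 0 ≤ ε) {Ω : Type*} [Fintype Ω] {X : Ω → Cube n}
    (hX : Fools r ε X) (hM : Rd r M) (hf : Cmb M B f) :
    ‖av (fun ω => f (X ω)) - av f‖ ≤ B * ε := by
  obtain ⟨ι, hι, c, ζ, h1, h2, h3⟩ := hf
  have e : ∀ {A : Type _} [Fintype A] (Y : A → Cube n),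
      av (fun ω => f (Y ω)) = ∑ i, c i * av (fun ω => Xp.pr (ζ i) M (Y ω)) := by
    intro A _ Y
    unfold av
    simp only [h3]
    rw [sum_comm, sum_div]
    refine sum_congr rfl fun i _ => ?_
    rw [← mul_sum, mul_div_assoc]
  have e2 : av f = ∑ i, c i * av (Xp.pr (ζ i) M) := by
    unfold av
    simp only [h3]
    rw [sum_comm, sum_div]
    refine sum_congr rfl fun i _ => ?_
    rw [← mul_sum, mul_div_assoc]
  rw [e X, e2, ← sum_sub_distrib]
  refine (norm_sum_le _ _).trans ?_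
  calc ∑ i, ‖c i * av (fun ω => Xp.pr (ζ i) M (X ω)) - c i * av (Xp.pr (ζ i) M)‖
      ≤ ∑ i, ‖c i‖ * ε := by
        refine sum_le_sum fun i _ => ?_
        rw [← mul_sub, norm_mul]
        exact mul_le_mul_of_nonneg_left (hX M (ζ i) hM (h1 i)) (norm_nonneg _)
    _ = (∑ i, ‖c i‖) * ε := by rw [sum_mul]
    _ ≤ B * ε := mul_le_mul_of_nonneg_right h2 hε

end cmb

/-! ## Boolean functions of approximable tests -/

theorem xth_prod_diff {ι : Type*} (s : Finset ι) (a b : ι → ℝ) (ha : ∀ i ∈ s, 0 ≤ a i ∧ a i ≤ 1)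
    (hb : ∀ i ∈ s, 0 ≤ b i ∧ b i ≤ 1) : |∏ i ∈ s, a i - ∏ i ∈ s, b i| ≤ ∑ i ∈ s, |a i - b i| := by
  classical
  induction s using Finset.induction_on with
  | empty => simp
  | insert j s hj ih =>
    rw [prod_insert hj, prod_insert hj, sum_insert hj]
    have h1 := ih (fun i hi => ha i (mem_insert_of_mem hi)) (fun i hi => hb i (mem_insert_of_mem hi))
    have hp0 : 0 ≤ ∏ i ∈ s, b i := prod_nonneg fun i hi => (hb i (mem_insert_of_mem hi)).1
    have hp1 : ∏ i ∈ s, b i ≤ 1 :=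
      prod_le_one (fun i hi => (hb i (mem_insert_of_mem hi)).1) fun i hi => (hb i (mem_insert_of_mem hi)).2
    have e : a j * ∏ i ∈ s, a i - b j * ∏ i ∈ s, b i =
        a j * (∏ i ∈ s, a i - ∏ i ∈ s, b i) + (a j - b j) * ∏ i ∈ s, b i := by ring
    rw [e]
    refine (abs_add_le _ _).trans ?_
    rw [abs_mul, abs_mul, abs_of_nonneg hp0, abs_of_nonneg (ha j (mem_insert_self j s)).1]
    have h2 : a j * |∏ i ∈ s, a i - ∏ i ∈ s, b i| ≤ 1 * |∏ i ∈ s, a i - ∏ i ∈ s, b i| :=
      mul_le_mul_of_nonneg_right (ha j (mem_insert_self j s)).2 (abs_nonneg _)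
    have h3 : |a j - b j| * ∏ i ∈ s, b i ≤ |a j - b j| * 1 :=
      mul_le_mul_of_nonneg_left hp1 (abs_nonneg _)
    linarith

/-- The multilinear extension of a Boolean function. -/
noncomputable def Phi {K : ℕ} (F : (Fin K → Bool) → Bool) (h : Fin K → ℝ) : ℝ :=
  ∑ A : Fin K → Bool, ind (F A) * ∏ i, (if A i = true then h i else 1 - h i)

theorem Phi_ind {K : ℕ} (F : (Fin K → Bool) → Bool) (b : Fin K → Bool) :
    Phi F (fun i => ind (b i)) = ind (F b) := by
  unfold Phi
  rw [sum_eq_single b]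
  · rw [prod_eq_one, mul_one]
    intro i _
    by_cases h : b i = true <;> simp [h, ind]
  · intro A _ hA
    have : ∃ i, A i ≠ b i := Function.ne_iff.1 hA
    obtain ⟨i, hi⟩ := this
    rw [prod_eq_zero (mem_univ i), mul_zero]
    cases h : b i <;> cases h' : A i <;> simp_all [ind]
  · intro h
    exact absurd (mem_univ b) h

theorem Phi_diff {K : ℕ} (F : (Fin K → Bool) → Bool) (h h' : Fin K → ℝ)
    (h01 : ∀ i, 0 ≤ h i ∧ h i ≤ 1) (h01' : ∀ i, 0 ≤ h' i ∧ h' i ≤ 1) :
    |Phi F h - Phi F h'| ≤ 2 ^ K * ∑ i, |h i - h' i| := by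
  unfold Phi
  rw [← sum_sub_distrib]
  refine (abs_sum_le_sum_abs _ _).trans ?_
  have key : ∀ A : Fin K → Bool, |ind (F A) * ∏ i, (if A i = true then h i else 1 - h i) -
      ind (F A) * ∏ i, (if A i = true then h' i else 1 - h' i)| ≤ ∑ i, |h i - h' i| := by
    intro A
    rw [← mul_sub, abs_mul, abs_of_nonneg (ind_nonneg _)]
    have h1 : |∏ i, (if A i = true then h i else 1 - h i) -
        ∏ i, (if A i = true then h' i else 1 - h' i)| ≤ ∑ i, |h i - h' i| := by
      refine (xth_prod_diff univ _ _ ?_ ?_).trans_eq (sum_congr rfl fun i _ => ?_)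
      · intro i _
        have := h01 i
        split_ifs
        · exact this
        · exact ⟨by linarith [this.2], by linarith [this.1]⟩
      · intro i _
        have := h01' i
        split_ifs
        · exact this
        · exact ⟨by linarith [this.2], by linarith [this.1]⟩
      · split_ifs
        · rfl
        · rw [show 1 - h i - (1 - h' i) = -(h i - h' i) by ring, abs_neg]
    calc ind (F A) * |_| ≤ 1 * |∏ i, (if A i = true then h i else 1 - h i) -
        ∏ i, (if A i = true then h' i else 1 - h' i)| :=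
          mul_le_mul_of_nonneg_right (ind_le_one _) (abs_nonneg _)
      _ ≤ _ := by rw [one_mul]; exact h1
  refine (sum_le_sum fun A _ => key A).trans_eq ?_
  rw [sum_const, card_univ, Fintype.card_fun, Fintype.card_bool, Fintype.card_fin, nsmul_eq_mul]
  push_cast
  rfl

theorem Phi_cmb {K : ℕ} (F : (Fin K → Bool) → Bool) {M : Finset (Finset (Fin n))} {C : ℝ}
    (H : Fin K → Cube n → ℝ) (hH : ∀ i, Cmb M C fun x => ((H i x : ℝ) : ℂ)) (hC : 0 ≤ C) :
    Cmb M (2 ^ K * (1 + C) ^ K) (fun x => ((Phi F (fun i => H i x) : ℝ) : ℂ)) := by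
  have h1 : ∀ A : Fin K → Bool, Cmb M ((1 + C) ^ K)
      (fun x => (((ind (F A) * ∏ i, (if A i = true then H i x else 1 - H i x) : ℝ)) : ℂ)) := by
    intro A
    have h2 : ∀ i : Fin K, Cmb M (1 + C)
        (fun x => (((if A i = true then H i x else 1 - H i x : ℝ)) : ℂ)) := by
      intro i
      by_cases hA : A i = true
      · simp only [hA, if_true]
        exact (hH i).mono (by linarith)
      · simp only [hA]
        have := (Cmb.const (M := M) 1).add ((hH i).smul (-1))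
        refine (this.of_eq fun x => ?_).mono ?_
        · push_cast
          ring
        · simp
    have h3 := Cmb.prod (univ : Finset (Fin K)) (fun _ => 1 + C) _ fun i _ => h2 i
    have h4 := h3.smul ((ind (F A) : ℝ) : ℂ)
    refine (h4.of_eq fun x => ?_).mono ?_
    · push_cast
      rfl
    · rw [prod_const, card_univ, Fintype.card_fin, Complex.norm_real,
        Real.norm_of_nonneg (ind_nonneg _)]
      calc ind (F A) * (1 + C) ^ K ≤ 1 * (1 + C) ^ K :=
            mul_le_mul_of_nonneg_right (ind_le_one _) (by positivity)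
        _ = _ := one_mul _
  have h2 := Cmb.sum (univ : Finset (Fin K → Bool)) (fun _ => (1 + C) ^ K) _ fun A _ => h1 A
  refine (h2.of_eq fun x => ?_).mono (le_of_eq ?_)
  · unfold Phi
    push_cast
    rfl
  · rw [sum_const, card_univ, Fintype.card_fun, Fintype.card_bool, Fintype.card_fin, nsmul_eq_mul]
    push_cast
    rfl

theorem xth_ofReal_avg {A : Type*} [Fintype A] (f : A → ℝ) :
    ((avg f : ℝ) : ℂ) = av (fun a => ((f a : ℝ) : ℂ)) := by
  unfold avg av
  push_cast
  rfl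

theorem xth_abs_avg_le {A : Type*} [Fintype A] (f : A → ℝ) : |avg f| ≤ avg fun a => |f a| := by
  unfold avg
  rw [abs_div, Nat.abs_cast]
  exact div_le_div_of_nonneg_right (abs_sum_le_sum_abs _ _) (Nat.cast_nonneg _)

theorem bool_close {K : ℕ} {ε₁ : ℝ} (F : (Fin K → Bool) → Bool)
    (b : Fin K → Cube n → Bool) (H : Fin K → Cube n → ℝ) (h01 : ∀ i x, 0 ≤ H i x ∧ H i x ≤ 1)
    {A : Type*} [Fintype A] (Y : A → Cube n)
    (hY : ∀ i, (avg fun ω => |ind (b i (Y ω)) - H i (Y ω)|) ≤ ε₁) :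
    |(avg fun ω => ind (F fun i => b i (Y ω))) - avg fun ω => Phi F fun i => H i (Y ω)| ≤
      2 ^ K * (K * ε₁) := by
  rw [← avg_sub]
  refine (xth_abs_avg_le _).trans ?_
  have h1 : ∀ ω, |ind (F fun i => b i (Y ω)) - Phi F fun i => H i (Y ω)| ≤
      2 ^ K * ∑ i, |ind (b i (Y ω)) - H i (Y ω)| := by
    intro ω
    rw [← Phi_ind]
    exact Phi_diff F _ _ (fun i => ⟨ind_nonneg _, ind_le_one _⟩) fun i => h01 i _
  refine (avg_mono h1).trans ?_
  rw [avg_mul_left, avg_sum]
  refine mul_le_mul_of_nonneg_left ?_ (by positivity)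
  refine (sum_le_sum fun i _ => hY i).trans_eq ?_
  rw [sum_const, card_univ, Fintype.card_fin, nsmul_eq_mul]

/-- Boolean functions of approximable tests are fooled. -/
theorem fool_bool {K r : ℕ} {ε₀ ε₁ C : ℝ} (hε₀ : 0 ≤ ε₀) (hC : 0 ≤ C)
    {M : Finset (Finset (Fin n))} (hM : Rd r M) (F : (Fin K → Bool) → Bool)
    (b : Fin K → Cube n → Bool) (H : Fin K → Cube n → ℝ) (h01 : ∀ i x, 0 ≤ H i x ∧ H i x ≤ 1)
    (hH : ∀ i, Cmb M C fun x => ((H i x : ℝ) : ℂ)) {Ω : Type*} [Fintype Ω] {X : Ω → Cube n}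
    (hX : Fools r ε₀ X) (hU : ∀ i, (avg fun x => |ind (b i x) - H i x|) ≤ ε₁)
    (hXi : ∀ i, (avg fun ω => |ind (b i (X ω)) - H i (X ω)|) ≤ ε₁) :
    |(avg fun ω => ind (F fun i => b i (X ω))) - avg fun x => ind (F fun i => b i x)| ≤
      2 * (2 ^ K * (K * ε₁)) + 2 ^ K * (1 + C) ^ K * ε₀ := by
  have h1 := bool_close F b H h01 X hXi
  have h2 := bool_close F b H h01 (fun x : Cube n => x) hU
  have h3 := hX.cmb hε₀ hM (Phi_cmb F H hH hC)
  rw [← xth_ofReal_avg, ← xth_ofReal_avg, ← Complex.ofReal_sub, Complex.norm_real, Real.norm_eq_abs] at h3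
  have h4 := abs_le.1 h1
  have h5 := abs_le.1 h2
  have h6 := abs_le.1 h3
  rw [abs_le]
  constructor <;> linarith [h4.1, h4.2, h5.1, h5.2, h6.1, h6.2]

/-! ## Tests with values in a finite abelian group -/

section abl

variable {G : Type} [AddCommGroup G]

open Classical in
/-- The sum of the values of the true monomials. -/
noncomputable def vl (c : Finset (Fin n) → G) (M : Finset (Finset (Fin n))) (x : Cube n) : G :=
  ∑ m ∈ M, if Tr m x then c m else 0

theorem map_vl (c : Finset (Fin n) → G) (M : Finset (Finset (Fin n))) (χ : AddChar G ℂ)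
    (x : Cube n) : χ (vl c M x) = pr (fun m => χ (c m)) M x := by
  classical
  unfold vl pr
  induction M using Finset.induction_on with
  | empty => rw [sum_empty, prod_empty, AddChar.map_zero_eq_one]
  | insert a s ha ih =>
    rw [sum_insert ha, prod_insert ha, AddChar.map_add_eq_mul, ih]
    congr 1
    split_ifs
    · rfl
    · exact AddChar.map_zero_eq_one χ

theorem cmb_abl [Fintype G] (c : Finset (Fin n) → G) (M : Finset (Finset (Fin n)))
    (A : Finset G) : Cmb M A.card (fun x => ((one (vl c M x ∈ A) : ℝ) : ℂ)) := by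
  classical
  have hc : (Fintype.card G : ℂ) ≠ 0 := by exact_mod_cast Fintype.card_ne_zero
  have h1 : ∀ a ∈ A, Cmb M 1 (fun x => ((one (vl c M x = a) : ℝ) : ℂ)) := by
    intro a _
    refine ⟨AddChar G ℂ, inferInstance, fun χ => χ (-a) / (Fintype.card G : ℂ),
      fun χ m => χ (c m), fun χ m _ => AddChar.norm_apply χ _, ?_, fun x => ?_⟩
    · have : ∀ χ : AddChar G ℂ, ‖χ (-a) / (Fintype.card G : ℂ)‖ = 1 / (Fintype.card G : ℝ) := by
        intro χ
        rw [norm_div, Complex.norm_natCast, AddChar.norm_apply]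
      simp only [this]
      rw [sum_const, card_univ, AddChar.card_eq, nsmul_eq_mul, mul_one_div_cancel]
      exact_mod_cast Fintype.card_ne_zero
    · have e : ∀ χ : AddChar G ℂ, χ (-a) / (Fintype.card G : ℂ) * pr (fun m => χ (c m)) M x =
          χ (vl c M x - a) / (Fintype.card G : ℂ) := by
        intro χ
        rw [← map_vl, sub_eq_add_neg, AddChar.map_add_eq_mul]
        ring
      rw [sum_congr rfl fun χ _ => e χ, ← sum_div, AddChar.sum_apply_eq_ite]
      show ((one (vl c M x = a) : ℝ) : ℂ) = _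
      by_cases h : vl c M x = a
      · rw [Dnf.one_true h, if_pos (sub_eq_zero.2 h)]
        push_cast
        field_simp
      · rw [Dnf.one_false h, if_neg (fun h' => h (sub_eq_zero.1 h'))]
        simp
  have h2 := Cmb.sum A (fun _ => 1) _ h1
  refine (h2.of_eq fun x => ?_).mono (by simp)
  rw [← Complex.ofReal_sum]
  congr 1
  by_cases h : vl c M x ∈ A
  · rw [Dnf.one_true h, sum_eq_single (vl c M x)]
    · exact Dnf.one_true rfl
    · intro a _ ha
      exact Dnf.one_false (Ne.symm ha)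
    · intro h'
      exact absurd h h'
  · rw [Dnf.one_false h]
    refine sum_eq_zero fun a ha => Dnf.one_false fun h' => h ?_
    rw [h']
    exact ha

end abl

end Pool.Agent.MP_ca1109_lc.Xg
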