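import Pool.Agent.MP_ca1109_lc.Xg.Defs
import Pool.Agent.MP_ca1109_lc.Xp.GT

/-!
# Small bias fools products of unimodular weights of terms with bounded quadratic mass
-/

namespace Pool.Agent.MP_ca1109_lc.Xg

open Finset Pool.Agent.MP_ca1109_lc.Mpg Pool.Agent.MP_ca1109_lc.Agp Pool.Agent.MP_ca1109_lc.Xp
open Pool.Agent.MP_ca1109_lc
open Pool.Agent.MP_ca1109_lc.Dnf (Cube ch one E Term)

variable {n : ℕ}

/-- The argument is bounded by the distance from `1`. -/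
theorem bb_arg {z : ℂ} (hz : ‖z‖ = 1) : z.arg ^ 2 ≤ 3 * ‖1 - z‖ ^ 2 := by
  have h1 : z = Complex.exp (Complex.I * (z.arg : ℂ)) := by
    have := Complex.norm_mul_exp_arg_mul_I z
    rw [hz, Complex.ofReal_one, one_mul] at this
    rw [mul_comm]
    exact this.symm
  have h2 : ‖1 - z‖ = 2 * |Real.sin (z.arg / 2)| := by
    rw [norm_sub_rev]
    conv_lhs => rw [h1]
    rw [Complex.norm_exp_I_mul_ofReal_sub_one, Real.norm_eq_abs, abs_mul, abs_two]
  have h3 : |z.arg| ≤ Real.pi := Complex.abs_arg_le_pi z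
  have h4 : 2 / Real.pi * (|z.arg| / 2) ≤ Real.sin (|z.arg| / 2) :=
    Real.mul_le_sin (by positivity) (by linarith)
  have h5 : |Real.sin (z.arg / 2)| = Real.sin (|z.arg| / 2) := by
    rcases abs_cases z.arg with ⟨h, h'⟩ | ⟨h, h'⟩
    · rw [h, abs_of_nonneg]
      exact Real.sin_nonneg_of_nonneg_of_le_pi (by linarith) (by linarith [abs_le.1 h3, Real.pi_pos])
    · rw [h, neg_div, Real.sin_neg, abs_of_nonpos]
      have : 0 ≤ Real.sin (-(z.arg / 2)) :=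
        Real.sin_nonneg_of_nonneg_of_le_pi (by linarith) (by linarith [(abs_le.1 h3).1, Real.pi_pos])
      rw [Real.sin_neg] at this
      linarith
  have hpi := Real.pi_pos
  have h6 : |z.arg| ≤ Real.pi / 2 * ‖1 - z‖ := by
    rw [h2, h5]
    have h7 : 2 / Real.pi * (|z.arg| / 2) = |z.arg| / Real.pi := by ring
    rw [h7, div_le_iff₀ hpi] at h4
    linarith
  have h8 : Real.pi < 3.15 := Real.pi_lt_d2
  have h9 : |z.arg| ^ 2 ≤ (Real.pi / 2 * ‖1 - z‖) ^ 2 := pow_le_pow_left₀ (abs_nonneg _) h6 2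
  rw [sq_abs, mul_pow] at h9
  have h10 : (Real.pi / 2) ^ 2 ≤ 3 := by nlinarith
  exact h9.trans (mul_le_mul_of_nonneg_right h10 (by positivity))

open Classical in
/-- The product of the weights of the true terms. -/
noncomputable def tj {ι : Type} (J : Finset ι) (T : ι → Term n) (z : ι → ℂ) (x : Cube n) : ℂ :=
  ∏ j ∈ J, if (T j).Sat x then z j else 1

theorem tj_eq {ι : Type} (J : Finset ι) (T : ι → Term n) (z : ι → ℂ) (hz : ∀ j ∈ J, ‖z j‖ = 1)
    (x : Cube n) :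
    tj J T z x = Complex.exp (Complex.I * (∑ j ∈ J, (z j).arg * (T j).f x : ℝ)) := by
  unfold tj
  push_cast
  rw [mul_sum, Complex.exp_sum]
  refine prod_congr rfl fun j hj => ?_
  unfold Term.f
  by_cases h : (T j).Sat x
  · rw [if_pos h, Dnf.one_true h]
    have := Complex.norm_mul_exp_arg_mul_I (z j)
    rw [hz j hj, Complex.ofReal_one, one_mul] at this
    rw [Complex.ofReal_one, mul_one, mul_comm]
    exact this.symm
  · rw [if_neg h, Dnf.one_false h]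
    simp

/-- Small bias fools products with bounded quadratic mass. -/
theorem bbJ (r : ℕ) (V : ℝ) {ε : ℝ} (hε : 0 < ε) : ∃ C : ℕ, ∀ {n : ℕ} {ι : Type}
    (J : Finset ι) (T : ι → Term n) (z : ι → ℂ),
    (∀ v, (J.filter fun j => v ∈ (T j).S).card ≤ r) → (∀ j ∈ J, ‖z j‖ = 1) →
    ∑ j ∈ J, (1 / 2 : ℝ) ^ (T j).S.card * ‖1 - z j‖ ^ 2 ≤ V →
    ∀ {Ω : Type} [Fintype Ω] [Nonempty Ω] (Y : Ω → Cube n) (δ : ℝ), 0 ≤ δ → Bias δ Y →
    ‖(av fun ω => tj J T z (Y ω)) - av (tj J T z)‖ ≤ ε + δ * (C * ((J.card : ℝ) + 1)) ^ C := by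
  obtain ⟨C, hC⟩ := gt_fool r Real.pi (3 * V) hε
  refine ⟨C, ?_⟩
  intro n ι J T z hread hz hV Ω _ _ Y δ hδ hY
  have h1 := hC J T (fun j => (z j).arg) hread (fun j _ => Complex.abs_arg_le_pi _) (by
    calc ∑ j ∈ J, (z j).arg ^ 2 * (1 / 2 : ℝ) ^ (T j).S.card
        ≤ ∑ j ∈ J, 3 * ((1 / 2 : ℝ) ^ (T j).S.card * ‖1 - z j‖ ^ 2) := sum_le_sum fun j hj => by
          have := mul_le_mul_of_nonneg_right (bb_arg (hz j hj))
            (by positivity : (0 : ℝ) ≤ (1 / 2) ^ (T j).S.card)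
          linarith
      _ = 3 * ∑ j ∈ J, (1 / 2 : ℝ) ^ (T j).S.card * ‖1 - z j‖ ^ 2 := by rw [mul_sum]
      _ ≤ 3 * V := by linarith) Y δ hδ hY
  have h2 : (av fun ω => tj J T z (Y ω)) =
      av fun ω => Complex.exp (Complex.I * (∑ j ∈ J, (z j).arg * (T j).f (Y ω) : ℝ)) := by
    congr 1
    funext ω
    exact tj_eq J T z hz (Y ω)
  have h3 : av (tj J T z) =
      av fun x => Complex.exp (Complex.I * (∑ j ∈ J, (z j).arg * (T j).f x : ℝ)) := by
    congr 1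
    funext x
    exact tj_eq J T z hz x
  rw [h2, h3]
  exact h1

/-- Families of nonempty terms of bounded read are small. -/
theorem bb_card {ι : Type} {r : ℕ} (J : Finset ι) (T : ι → Term n)
    (hread : ∀ v, (J.filter fun j => v ∈ (T j).S).card ≤ r) (h0 : ∀ j ∈ J, (T j).S.Nonempty) :
    J.card ≤ r * n := by
  have h1 : ∑ j ∈ J, (T j).S.card = ∑ v : Fin n, (J.filter fun j => v ∈ (T j).S).card := by
    simp only [card_eq_sum_ones, sum_filter]
    rw [sum_comm]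
    refine sum_congr rfl fun j _ => ?_
    rw [← sum_filter]
    simp
  calc J.card = ∑ j ∈ J, 1 := by simp
    _ ≤ ∑ j ∈ J, (T j).S.card := sum_le_sum fun j hj => card_pos.2 (h0 j hj)
    _ = _ := h1
    _ ≤ ∑ _v : Fin n, r := sum_le_sum fun v _ => hread v
    _ = r * n := by simp [mul_comm]

/-- The same with a negligible error. -/
theorem bbn (r : ℕ) (V : ℝ) {ε : ℝ} (hε : 0 < ε) : ∃ C n₀ : ℕ, ∀ n ≥ n₀, ∀ {ι : Type}
    (J : Finset ι) (T : ι → Term n) (z : ι → ℂ), (∀ j ∈ J, (T j).S.Nonempty) →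
    (∀ v, (J.filter fun j => v ∈ (T j).S).card ≤ r) → (∀ j ∈ J, ‖z j‖ = 1) →
    ∑ j ∈ J, (1 / 2 : ℝ) ^ (T j).S.card * ‖1 - z j‖ ^ 2 ≤ V →
    ∀ {Ω : Type} [Fintype Ω] [Nonempty Ω] (Y : Ω → Cube n) (δ : ℝ), 0 ≤ δ → δ * (n : ℝ) ^ C ≤ 1 →
    Bias δ Y → ‖(av fun ω => tj J T z (Y ω)) - av (tj J T z)‖ ≤ ε := by
  obtain ⟨C, hC⟩ := bbJ r V (half_pos hε)
  obtain ⟨n₁, hn₁⟩ := exists_nat_ge (((C : ℝ) * ((r : ℝ) + 1)) ^ C / (ε / 2))
  refine ⟨C + 1, n₁ + 1, ?_⟩
  intro n hn ι J T z h0 hread hz hV Ω _ _ Y δ hδ hδn hY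
  have h1 := hC J T z hread hz hV Y δ hδ hY
  have hn1 : (1 : ℝ) ≤ n := by exact_mod_cast (by omega : 1 ≤ n)
  have hcard : (J.card : ℝ) + 1 ≤ ((r : ℝ) + 1) * n := by
    have : (J.card : ℝ) ≤ r * n := by exact_mod_cast bb_card J T hread h0
    linarith
  have hC0 : (0 : ℝ) ≤ C := Nat.cast_nonneg _
  have h2 : ((C : ℝ) * ((J.card : ℝ) + 1)) ^ C ≤ ((C : ℝ) * ((r : ℝ) + 1)) ^ C * (n : ℝ) ^ C := by
    rw [← mul_pow]
    refine pow_le_pow_left₀ (by positivity) ?_ C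
    rw [mul_assoc]
    exact mul_le_mul_of_nonneg_left hcard hC0
  have h3 : ((C : ℝ) * ((r : ℝ) + 1)) ^ C ≤ ε / 2 * n := by
    have h4 : (n₁ : ℝ) ≤ n := by exact_mod_cast (by omega : n₁ ≤ n)
    have := hn₁.trans h4
    rw [div_le_iff₀ (half_pos hε)] at this
    linarith
  have h5 : δ * ((C : ℝ) * ((J.card : ℝ) + 1)) ^ C ≤ ε / 2 := by
    calc δ * ((C : ℝ) * ((J.card : ℝ) + 1)) ^ C
        ≤ δ * (((C : ℝ) * ((r : ℝ) + 1)) ^ C * (n : ℝ) ^ C) := mul_le_mul_of_nonneg_left h2 hδ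
      _ ≤ δ * ((ε / 2 * n) * (n : ℝ) ^ C) := mul_le_mul_of_nonneg_left
          (mul_le_mul_of_nonneg_right h3 (by positivity)) hδ
      _ = ε / 2 * (δ * (n : ℝ) ^ (C + 1)) := by ring
      _ ≤ ε / 2 * 1 := mul_le_mul_of_nonneg_left hδn (half_pos hε).le
      _ = ε / 2 := mul_one _
  linarith

/-- Case 1. -/
theorem bb_one (r : ℕ) (V : ℝ) {ε : ℝ} (hε : 0 < ε) : ∃ C n₀ : ℕ, ∀ n ≥ n₀,
    ∀ (M : Finset (Finset (Fin n))) (ζ : Finset (Fin n) → ℂ), (∀ m ∈ M, m ≠ ∅) → Rd r M →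
      (∀ m ∈ M, ‖ζ m‖ = 1) → ∑ m ∈ M, gap ζ m * (1 / 2 : ℝ) ^ m.card ≤ V →
      ∀ {Ω : Type} [Fintype Ω] [Nonempty Ω] (Y : Ω → Cube n) (δ : ℝ), 0 ≤ δ → δ * (n : ℝ) ^ C ≤ 1 →
        Bias δ Y → ‖(av fun ω => pr ζ M (Y ω)) - av (pr ζ M)‖ ≤ ε := by
  obtain ⟨C, n₀, hC⟩ := bbn r (4 * V) hε
  refine ⟨C, n₀, ?_⟩
  intro n hn M ζ h0 hM hζ hV Ω _ _ Y δ hδ hδn hY
  have h1 := hC n hn M (fun m => (⟨m, fun _ => true⟩ : Term n)) ζ
    (fun m hm => nonempty_iff_ne_empty.2 (h0 m hm)) hM hζ (by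
      calc ∑ m ∈ M, (1 / 2 : ℝ) ^ m.card * ‖1 - ζ m‖ ^ 2
          = 4 * ∑ m ∈ M, gap ζ m * (1 / 2 : ℝ) ^ m.card := by
            rw [mul_sum]
            exact sum_congr rfl fun m _ => by unfold gap; ring
        _ ≤ 4 * V := by linarith) Y δ hδ hδn hY
  exact h1

theorem bb_mq (m η : Finset (Fin n)) (y v : Cube n) :
    Tr m (mq y η v) ↔ (⟨m, fun i => !(decide (i ∈ η) && v i)⟩ : Term n).Sat y := by
  unfold Tr Term.Sat mq
  refine forall_congr' fun i => forall_congr' fun _ => ?_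
  simp only
  cases y i <;> cases (decide (i ∈ η) && v i) <;> decide

theorem bb_mq_disj {m η : Finset (Fin n)} (h : Disjoint m η) (y v : Cube n) :
    Tr m (mq y η v) ↔ Tr m y := by
  unfold Tr mq
  refine forall_congr' fun i => forall_congr' fun hi => ?_
  have : i ∉ η := disjoint_left.1 h hi
  simp [this]

/-- Case 2: the pairs; `s` is the shift from the other levels. -/
theorem bb_two (r : ℕ) (V : ℝ) {ε : ℝ} (hε : 0 < ε) : ∃ C n₀ : ℕ, ∀ n ≥ n₀,
    ∀ (M : Finset (Finset (Fin n))) (ζ : Finset (Fin n) → ℂ), (∀ m ∈ M, m ≠ ∅) → Rd r M →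
      (∀ m ∈ M, ‖ζ m‖ = 1) → ∀ (η : Finset (Fin n)) (s v v' : Cube n), hw (gap ζ) M η ≤ V →
      ∀ {Ω : Type} [Fintype Ω] [Nonempty Ω] (Y : Ω → Cube n) (δ : ℝ), 0 ≤ δ → δ * (n : ℝ) ^ C ≤ 1 →
        Bias δ Y →
        ‖(av fun ω => pr ζ M (mq (xo (Y ω) s) η v) * (starRingEnd ℂ) (pr ζ M (mq (xo (Y ω) s) η v'))) -
          av fun y : Cube n => pr ζ M (mq y η v) * (starRingEnd ℂ) (pr ζ M (mq y η v'))‖ ≤ ε := by
  classical
  obtain ⟨C, n₀, hC⟩ := bbn (2 * r) (8 * V) hε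
  refine ⟨C, n₀, ?_⟩
  intro n hn M ζ h0 hM hζ η s v v' hV Ω _ _ Y δ hδ hδn hY
  set M' : Finset (Finset (Fin n)) := M.filter fun m => ¬ Disjoint m η with hM'
  set J : Finset (Finset (Fin n) × Bool) := M' ×ˢ (univ : Finset Bool) with hJ
  set T : Finset (Fin n) × Bool → Term n := fun j =>
    ⟨j.1, fun i => !(decide (i ∈ η) && (if j.2 then v i else v' i))⟩ with hT
  set z : Finset (Fin n) × Bool → ℂ := fun j => if j.2 then ζ j.1 else (starRingEnd ℂ) (ζ j.1) with hz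
  have hsub : ∀ m ∈ M', m ∈ M := fun m hm => (mem_filter.1 hm).1
  have hkey : ∀ y : Cube n, pr ζ M (mq y η v) * (starRingEnd ℂ) (pr ζ M (mq y η v')) = tj J T z y := by
    intro y
    have h1 : pr ζ M (mq y η v) * (starRingEnd ℂ) (pr ζ M (mq y η v')) =
        ∏ m ∈ M, ((if Tr m (mq y η v) then ζ m else 1) *
          (if Tr m (mq y η v') then (starRingEnd ℂ) (ζ m) else 1)) := by
      unfold pr
      rw [map_prod, ← prod_mul_distrib]
      refine prod_congr rfl fun m _ => ?_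
      congr 1
      split_ifs
      · rfl
      · exact map_one _
    have h2 : ∏ m ∈ M, ((if Tr m (mq y η v) then ζ m else 1) *
          (if Tr m (mq y η v') then (starRingEnd ℂ) (ζ m) else 1)) =
        ∏ m ∈ M', ((if Tr m (mq y η v) then ζ m else 1) *
          (if Tr m (mq y η v') then (starRingEnd ℂ) (ζ m) else 1)) := by
      rw [hM']
      refine (prod_subset (filter_subset _ _) fun m hm hm' => ?_).symm
      have hd : Disjoint m η := by
        by_contra hd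
        exact hm' (mem_filter.2 ⟨hm, hd⟩)
      simp only [bb_mq_disj hd]
      split_ifs
      · rw [Complex.mul_conj, Complex.normSq_eq_norm_sq, hζ m hm]
        simp
      · simp
    rw [h1, h2]
    unfold tj
    rw [hJ, prod_product]
    refine prod_congr rfl fun m _ => ?_
    rw [Fintype.prod_bool]
    have e1 : (T (m, true)).Sat y ↔ Tr m (mq y η v) := by
      rw [hT]
      simp only [if_true]
      exact (bb_mq m η y v).symm
    have e2 : (T (m, false)).Sat y ↔ Tr m (mq y η v') := by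
      rw [hT]
      simp only [Bool.false_eq_true, if_false]
      exact (bb_mq m η y v').symm
    simp only [e1, e2, hz, if_true, Bool.false_eq_true, if_false]
  have hread : ∀ u, (J.filter fun j => u ∈ (T j).S).card ≤ 2 * r := by
    intro u
    have h1 : (J.filter fun j => u ∈ (T j).S) ⊆ (M.filter fun m => u ∈ m) ×ˢ (univ : Finset Bool) := by
      intro j hj
      rw [mem_filter] at hj
      rw [mem_product, mem_filter]
      rw [hJ, mem_product] at hj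
      exact ⟨⟨hsub _ hj.1.1, hj.2⟩, mem_univ _⟩
    refine (card_le_card h1).trans ?_
    rw [card_product, card_univ, Fintype.card_bool]
    have := hM u
    omega
  have hzn : ∀ j ∈ J, ‖z j‖ = 1 := by
    intro j hj
    rw [hJ, mem_product] at hj
    have h1 := hζ j.1 (hsub _ hj.1)
    rw [hz]
    simp only
    split_ifs
    · exact h1
    · rw [RCLike.norm_conj]; exact h1
  have hne : ∀ j ∈ J, (T j).S.Nonempty := by
    intro j hj
    rw [hJ, mem_product] at hj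
    exact nonempty_iff_ne_empty.2 (h0 j.1 (hsub _ hj.1))
  have hmass : ∑ j ∈ J, (1 / 2 : ℝ) ^ (T j).S.card * ‖1 - z j‖ ^ 2 ≤ 8 * V := by
    rw [hJ, sum_product]
    have h1 : ∀ m ∈ M', ∑ b : Bool, (1 / 2 : ℝ) ^ (T (m, b)).S.card * ‖1 - z (m, b)‖ ^ 2 =
        8 * (gap ζ m * (1 / 2 : ℝ) ^ m.card) := by
      intro m _
      rw [Fintype.sum_bool]
      have h2 : ‖1 - (starRingEnd ℂ) (ζ m)‖ = ‖1 - ζ m‖ := by
        rw [show (1 : ℂ) - (starRingEnd ℂ) (ζ m) = (starRingEnd ℂ) (1 - ζ m) by rw [map_sub, map_one],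
          RCLike.norm_conj]
      simp only [hz, hT, if_true, Bool.false_eq_true, if_false, h2]
      unfold gap
      ring
    rw [sum_congr rfl h1, ← mul_sum]
    refine mul_le_mul_of_nonneg_left (le_trans (le_of_eq ?_) hV) (by norm_num)
    unfold hw
    rw [hM', sum_filter]
    refine sum_congr rfl fun m _ => ?_
    by_cases hd : ¬ Disjoint m η
    · rw [if_pos hd, Dnf.one_true hd, mul_one]
    · rw [if_neg hd, Dnf.one_false hd, mul_zero, mul_zero]
  have h1 := hC n hn J T z hne hread hzn hmass (fun ω => xo (Y ω) s) δ hδ hδn (hY.xo s)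
  rw [show (fun ω => pr ζ M (mq (xo (Y ω) s) η v) * (starRingEnd ℂ) (pr ζ M (mq (xo (Y ω) s) η v'))) =
    fun ω => tj J T z (xo (Y ω) s) from funext fun ω => hkey _,
    show (fun y : Cube n => pr ζ M (mq y η v) * (starRingEnd ℂ) (pr ζ M (mq y η v'))) = tj J T z from
      funext hkey]
  exact h1

end Pool.Agent.MP_ca1109_lc.Xg
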