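import Pool.Agent.MP_ca1109_lc.Xg.Defs

/-!
# Good monomials
-/

namespace Pool.Agent.MP_ca1109_lc.Xg

open Finset Pool.Agent.MP_ca1109_lc.Mpg Pool.Agent.MP_ca1109_lc.Agp Pool.Agent.MP_ca1109_lc.Xp
open Pool.Agent.MP_ca1109_lc.Dnf (Cube ch one)

variable {n : ℕ}

/-- The product of the weights of the monomials through `v` inside `m`. -/
noncomputable def xgd_zv (z : Finset (Fin n) → ℂ) (M : Finset (Finset (Fin n))) (m : Finset (Fin n))
    (v : Fin n) : ℂ :=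
  ∏ m' ∈ M.filter (fun m' => v ∈ m' ∧ m' ⊆ m), z m'

theorem xgd_gap_nonneg (z : Finset (Fin n) → ℂ) (m : Finset (Fin n)) : 0 ≤ gap z m := by
  unfold gap
  positivity

theorem gap_le {ζ : Finset (Fin n) → ℂ} {m : Finset (Fin n)} (h : ‖ζ m‖ = 1) : gap ζ m ≤ 1 := by
  unfold gap
  have h1 : ‖1 - ζ m‖ ≤ 2 := by
    have := norm_sub_le (1 : ℂ) (ζ m)
    rw [norm_one, h] at this
    linarith
  have h2 : ‖1 - ζ m‖ ^ 2 ≤ 2 ^ 2 := pow_le_pow_left₀ (norm_nonneg _) h1 2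
  linarith

theorem gc_nonneg {r : ℕ} {M : Finset (Finset (Fin n))} {ζ : Finset (Fin n) → ℂ} {m : Finset (Fin n)} :
    0 ≤ gc r ζ M m := by
  unfold gc
  split_ifs
  · have := xgd_gap_nonneg ζ m
    positivity
  · exact le_rfl

theorem gc_le {r : ℕ} {M : Finset (Finset (Fin n))} {ζ : Finset (Fin n) → ℂ} {m : Finset (Fin n)}
    (h : ‖ζ m‖ = 1) : gc r ζ M m ≤ 1 := by
  unfold gc
  split_ifs
  · have := gap_le h
    linarith
  · norm_num

/-- The distance of a product of unimodular numbers from `1`. -/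
theorem xgd_one_sub_prod {ι : Type*} (s : Finset ι) (z : ι → ℂ) (hz : ∀ i ∈ s, ‖z i‖ = 1) :
    ‖1 - ∏ i ∈ s, z i‖ ≤ ∑ i ∈ s, ‖1 - z i‖ := by
  classical
  induction s using Finset.induction_on with
  | empty => simp
  | insert a s ha ih =>
    rw [Finset.prod_insert ha, Finset.sum_insert ha]
    have h1 : 1 - z a * ∏ i ∈ s, z i = (1 - z a) + z a * (1 - ∏ i ∈ s, z i) := by ring
    rw [h1]
    refine (norm_add_le _ _).trans ?_
    rw [norm_mul, hz a (Finset.mem_insert_self a s), one_mul]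
    have := ih fun i hi => hz i (Finset.mem_insert_of_mem hi)
    linarith

theorem xgd_zv_far {r : ℕ} {z : Finset (Fin n) → ℂ} {M : Finset (Finset (Fin n))} (hM : Rd r M)
    (hz : ∀ m ∈ M, ‖z m‖ = 1) {m : Finset (Fin n)} (hmM : m ∈ M) (hg : Good r z M m) {v : Fin n}
    (hv : v ∈ m) : ‖1 - z m‖ / 2 ≤ ‖1 - xgd_zv z M m v‖ := by
  classical
  set s := M.filter (fun m' => v ∈ m' ∧ m' ⊆ m) with hs
  have hms : m ∈ s := Finset.mem_filter.2 ⟨hmM, hv, Finset.Subset.refl m⟩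
  have hsr : s.card ≤ r :=
    (Finset.card_le_card (Finset.monotone_filter_right _ fun m' _ h => h.1)).trans (hM v)
  have h1 : xgd_zv z M m v = z m * ∏ m' ∈ s.erase m, z m' := by
    unfold xgd_zv
    rw [← hs, Finset.mul_prod_erase s z hms]
  have hzs : ∀ m' ∈ s.erase m, ‖z m'‖ = 1 := fun m' h =>
    hz m' (Finset.mem_filter.1 (Finset.mem_of_mem_erase h)).1
  have h2 : ‖1 - ∏ m' ∈ s.erase m, z m'‖ ≤ ∑ m' ∈ s.erase m, ‖1 - z m'‖ := xgd_one_sub_prod _ _ hzs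
  have h3 : ∀ m' ∈ s.erase m, 2 * r * ‖1 - z m'‖ ≤ ‖1 - z m‖ := by
    intro m' h
    obtain ⟨ha, hb⟩ := Finset.mem_erase.1 h
    obtain ⟨hc, hd, he⟩ := Finset.mem_filter.1 hb
    exact hg m' hc (Finset.ssubset_iff_subset_ne.2 ⟨he, ha⟩)
  have h4 : 2 * (r : ℝ) * ∑ m' ∈ s.erase m, ‖1 - z m'‖ ≤ ((s.erase m).card : ℝ) * ‖1 - z m‖ := by
    rw [Finset.mul_sum]
    refine (Finset.sum_le_sum h3).trans ?_
    rw [Finset.sum_const, nsmul_eq_mul]
  have h5 : ((s.erase m).card : ℝ) ≤ r := by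
    have : (s.erase m).card ≤ r := (Finset.card_le_card (Finset.erase_subset _ _)).trans hsr
    exact_mod_cast this
  have hr1 : (1 : ℝ) ≤ r := by
    have : 1 ≤ r := le_trans (Finset.card_pos.2 ⟨m, hms⟩) hsr
    exact_mod_cast this
  have h6 : ∑ m' ∈ s.erase m, ‖1 - z m'‖ ≤ ‖1 - z m‖ / 2 := by
    have h7 : ((s.erase m).card : ℝ) * ‖1 - z m‖ ≤ r * ‖1 - z m‖ :=
      mul_le_mul_of_nonneg_right h5 (norm_nonneg _)
    have h8 : (r : ℝ) * (2 * ∑ m' ∈ s.erase m, ‖1 - z m'‖) ≤ r * ‖1 - z m‖ := by linarith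
    have h9 := le_of_mul_le_mul_left h8 (by linarith)
    linarith
  have h10 : 1 - xgd_zv z M m v = (1 - z m) + z m * (1 - ∏ m' ∈ s.erase m, z m') := by
    rw [h1]
    ring
  have h11 : ‖z m * (1 - ∏ m' ∈ s.erase m, z m')‖ ≤ ‖1 - z m‖ / 2 := by
    rw [norm_mul, hz m hmM, one_mul]
    exact h2.trans h6
  have h12 := norm_sub_le ((1 - z m) + z m * (1 - ∏ m' ∈ s.erase m, z m'))
    (z m * (1 - ∏ m' ∈ s.erase m, z m'))
  rw [add_sub_cancel_right] at h12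
  rw [h10]
  linarith

/-- The number of the members above `m`. -/
def xgd_up (M : Finset (Finset (Fin n))) (m : Finset (Fin n)) : ℕ := (M.filter fun m' => m ⊆ m').card

theorem xgd_up_le {r : ℕ} {M : Finset (Finset (Fin n))} (hM : Rd r M) {m : Finset (Fin n)}
    (hm : m ≠ ∅) : xgd_up M m ≤ r := by
  obtain ⟨v, hv⟩ := Finset.nonempty_iff_ne_empty.2 hm
  exact (Finset.card_le_card (Finset.monotone_filter_right _ fun m' _ h => h hv)).trans (hM v)

theorem xgd_up_pos {M : Finset (Finset (Fin n))} {m : Finset (Fin n)} (hm : m ∈ M) : 1 ≤ xgd_up M m :=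
  Finset.card_pos.2 ⟨m, Finset.mem_filter.2 ⟨hm, Finset.Subset.refl m⟩⟩

theorem xgd_up_lt {M : Finset (Finset (Fin n))} {m' m : Finset (Fin n)} (hm' : m' ∈ M)
    (h : m' ⊂ m) : xgd_up M m < xgd_up M m' := by
  refine Finset.card_lt_card ?_
  refine Finset.ssubset_iff_subset_ne.2 ⟨?_, fun heq => ?_⟩
  · exact Finset.monotone_filter_right _ fun m'' _ h' => h.1.trans h'
  · have h1 : m' ∈ M.filter fun m'' => m' ⊆ m'' :=
      Finset.mem_filter.2 ⟨hm', Finset.Subset.refl m'⟩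
    rw [← heq] at h1
    exact h.2 (Finset.mem_filter.1 h1).2

theorem xgd_below {r : ℕ} (hr : 1 ≤ r) {z : Finset (Fin n) → ℂ} {M : Finset (Finset (Fin n))}
    (hM : Rd r M) (h0 : ∀ m ∈ M, m ≠ ∅) {m : Finset (Fin n)} (hm : m ∈ M) :
    ∃ m' ∈ M, Good r z M m' ∧ m' ⊆ m ∧ ‖1 - z m‖ ≤ (2 * r) ^ (r - 1) * ‖1 - z m'‖ := by
  classical
  have hne : (M.filter fun m' => m' ⊆ m).Nonempty :=
    ⟨m, Finset.mem_filter.2 ⟨hm, Finset.Subset.refl m⟩⟩
  obtain ⟨a, ha, hmax⟩ := Finset.exists_max_image (M.filter fun m' => m' ⊆ m)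
    (fun m' => ‖1 - z m'‖ * (2 * (r : ℝ)) ^ xgd_up M m') hne
  obtain ⟨haM, ham⟩ := Finset.mem_filter.1 ha
  have hr1 : (1 : ℝ) ≤ r := by exact_mod_cast hr
  have h2r : (1 : ℝ) ≤ 2 * r := by linarith
  refine ⟨a, haM, fun m' hm' hs => ?_, ham, ?_⟩
  · have h1 := hmax m' (Finset.mem_filter.2 ⟨hm', hs.1.trans ham⟩)
    have h2 : xgd_up M a + 1 ≤ xgd_up M m' := xgd_up_lt hm' hs
    have h3 : (2 * (r : ℝ)) ^ (xgd_up M a + 1) ≤ (2 * r) ^ xgd_up M m' := pow_le_pow_right₀ h2r h2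
    have h4 : ‖1 - z m'‖ * (2 * (r : ℝ)) ^ (xgd_up M a + 1) ≤ ‖1 - z a‖ * (2 * r) ^ xgd_up M a :=
      (mul_le_mul_of_nonneg_left h3 (norm_nonneg _)).trans h1
    have h5 : (0 : ℝ) < (2 * r) ^ xgd_up M a := by positivity
    rw [pow_succ] at h4
    have h6 : (2 * r * ‖1 - z m'‖) * (2 * (r : ℝ)) ^ xgd_up M a ≤ ‖1 - z a‖ * (2 * r) ^ xgd_up M a := by
      linarith
    exact le_of_mul_le_mul_right h6 h5
  · have h1 := hmax m (Finset.mem_filter.2 ⟨hm, Finset.Subset.refl m⟩)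
    have h2 : xgd_up M a ≤ xgd_up M m + (r - 1) := by
      have := xgd_up_le hM (h0 a haM)
      have := xgd_up_pos hm
      omega
    have h3 : (2 * (r : ℝ)) ^ xgd_up M a ≤ (2 * r) ^ (xgd_up M m + (r - 1)) := pow_le_pow_right₀ h2r h2
    have h4 : ‖1 - z m‖ * (2 * (r : ℝ)) ^ xgd_up M m ≤
        ‖1 - z a‖ * (2 * r) ^ (xgd_up M m + (r - 1)) :=
      h1.trans (mul_le_mul_of_nonneg_left h3 (norm_nonneg _))
    have h5 : (0 : ℝ) < (2 * r) ^ xgd_up M m := by positivity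
    rw [pow_add] at h4
    have h6 : ‖1 - z m‖ * (2 * (r : ℝ)) ^ xgd_up M m ≤
        ((2 * r) ^ (r - 1) * ‖1 - z a‖) * (2 * r) ^ xgd_up M m := by linarith
    exact le_of_mul_le_mul_right h6 h5

theorem xgd_transfer {r : ℕ} (hr : 1 ≤ r) {z : Finset (Fin n) → ℂ}
    {M : Finset (Finset (Fin n))} (hM : Rd r M) (h0 : ∀ m ∈ M, m ≠ ∅) (g : ℕ → ℝ)
    (hg0 : ∀ k, 0 ≤ g k) (hg : ∀ k l, 1 ≤ k → k ≤ l → g l ≤ g k) :
    ∑ m ∈ M, gap z m * g m.card ≤
      4 * (r * (2 * r) ^ (2 * (r - 1))) * ∑ m ∈ M, gc r z M m * g m.card := by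
  classical
  have h1 : ∀ m : Finset (Fin n), ∃ a : Finset (Fin n), m ∈ M →
      a ∈ M ∧ Good r z M a ∧ a ⊆ m ∧ ‖1 - z m‖ ≤ (2 * r) ^ (r - 1) * ‖1 - z a‖ := by
    intro m
    by_cases hm : m ∈ M
    · obtain ⟨a, ha, hg', hb, hc⟩ := xgd_below hr hM h0 (z := z) hm
      exact ⟨a, fun _ => ⟨ha, hg', hb, hc⟩⟩
    · exact ⟨∅, fun h => absurd h hm⟩
  choose a ha using h1
  have h2 : ∀ m ∈ M, gap z m * g m.card ≤
      (2 * r) ^ (2 * (r - 1)) * (4 * gc r z M (a m) * g (a m).card) := by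
    intro m hm
    obtain ⟨h3, h3', h4, h5⟩ := ha m hm
    have h6 : gap z m ≤ (2 * r) ^ (2 * (r - 1)) * (4 * gc r z M (a m)) := by
      unfold gc
      rw [if_pos h3']
      unfold gap
      have h7 := pow_le_pow_left₀ (norm_nonneg _) h5 2
      rw [mul_pow, ← pow_mul, mul_comm (r - 1) 2] at h7
      linarith
    have hcard : 1 ≤ (a m).card :=
      Finset.card_pos.2 (Finset.nonempty_iff_ne_empty.2 (h0 _ h3))
    have h8 : g m.card ≤ g (a m).card := hg _ _ hcard (Finset.card_le_card h4)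
    have h9 : (0 : ℝ) ≤ gc r z M (a m) := gc_nonneg
    calc gap z m * g m.card ≤ ((2 * r) ^ (2 * (r - 1)) * (4 * gc r z M (a m))) * g (a m).card :=
          mul_le_mul h6 h8 (hg0 _) (by positivity)
      _ = _ := by ring
  refine (Finset.sum_le_sum h2).trans ?_
  rw [← Finset.mul_sum]
  have h3 : ∑ m ∈ M, 4 * gc r z M (a m) * g (a m).card ≤ r * ∑ m ∈ M, 4 * gc r z M m * g m.card := by
    rw [← Finset.sum_fiberwise_of_maps_to (s := M) (t := M) (g := a)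
      (fun m hm => (ha m hm).1), Finset.mul_sum]
    refine Finset.sum_le_sum fun b hb => ?_
    have h4 : ∑ m ∈ M.filter (fun m => a m = b), 4 * gc r z M (a m) * g (a m).card =
        ((M.filter fun m => a m = b).card : ℝ) * (4 * gc r z M b * g b.card) := by
      rw [Finset.sum_congr rfl fun m hm => by rw [(Finset.mem_filter.1 hm).2],
        Finset.sum_const, nsmul_eq_mul]
    rw [h4]
    have h9 : (0 : ℝ) ≤ gc r z M b := gc_nonneg
    refine mul_le_mul_of_nonneg_right ?_ (mul_nonneg (by positivity) (hg0 _))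
    have h5 : (M.filter fun m => a m = b).card ≤ xgd_up M b := by
      refine Finset.card_le_card fun m hm => ?_
      obtain ⟨h6, h7⟩ := Finset.mem_filter.1 hm
      exact Finset.mem_filter.2 ⟨h6, h7 ▸ (ha m h6).2.2.1⟩
    exact_mod_cast h5.trans (xgd_up_le hM (h0 b hb))
  have h4 : ∑ m ∈ M, 4 * gc r z M m * g m.card = 4 * ∑ m ∈ M, gc r z M m * g m.card := by
    rw [Finset.mul_sum]
    exact Finset.sum_congr rfl fun m _ => by ring
  rw [h4] at h3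
  calc (2 * (r : ℝ)) ^ (2 * (r - 1)) * ∑ m ∈ M, 4 * gc r z M (a m) * g (a m).card ≤
        (2 * (r : ℝ)) ^ (2 * (r - 1)) * (r * (4 * ∑ m ∈ M, gc r z M m * g m.card)) :=
        mul_le_mul_of_nonneg_left h3 (by positivity)
    _ = _ := by ring

/-- `2^-k (1 - (1-p)^k)` is nonincreasing for `k ≥ 1`. -/
theorem xgd_anti {p : ℝ} (hp : 0 ≤ p) (hp1 : p ≤ 1) (k l : ℕ) (hk : 1 ≤ k) (hkl : k ≤ l) :
    (1 / 2 : ℝ) ^ l * (1 - (1 - p) ^ l) ≤ (1 / 2) ^ k * (1 - (1 - p) ^ k) := by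
  induction l, hkl using Nat.le_induction with
  | base => exact le_rfl
  | succ l hl ih =>
    refine le_trans ?_ ih
    set q : ℝ := 1 - p with hq
    have hq0 : 0 ≤ q := by linarith
    have hq1 : q ≤ 1 := by linarith
    have hl1 : 1 ≤ l := hk.trans hl
    have h1 : q ^ l ≤ q := by
      calc q ^ l ≤ q ^ 1 := pow_le_pow_of_le_one hq0 hq1 hl1
        _ = q := pow_one q
    have h2 : q ^ l * (2 - q) ≤ 1 := by
      have h3 : q ^ l * (2 - q) ≤ q * (2 - q) := mul_le_mul_of_nonneg_right h1 (by linarith)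
      nlinarith [sq_nonneg (1 - q)]
    have h4 : (1 / 2 : ℝ) * (1 - q ^ (l + 1)) ≤ 1 - q ^ l := by
      rw [pow_succ]
      nlinarith
    calc (1 / 2 : ℝ) ^ (l + 1) * (1 - q ^ (l + 1)) = (1 / 2) ^ l * ((1 / 2) * (1 - q ^ (l + 1))) := by
          rw [pow_succ]; ring
      _ ≤ (1 / 2) ^ l * (1 - q ^ l) := mul_le_mul_of_nonneg_left h4 (by positivity)

theorem transfer {r : ℕ} (hr : 1 ≤ r) {M : Finset (Finset (Fin n))} {ζ : Finset (Fin n) → ℂ} (hM : Rd r M)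
    (h0 : ∀ m ∈ M, m ≠ ∅) {p : ℝ} (hp : 0 ≤ p) (hp1 : p ≤ 1) :
    mw p (gap ζ) M ≤ 4 * r * (2 * r) ^ (2 * r) * mw p (gc r ζ M) M := by
  have h1 := xgd_transfer hr hM h0 (z := ζ) (fun k => (1 / 2 : ℝ) ^ k * (1 - (1 - p) ^ k))
    (fun k => mul_nonneg (by positivity)
      (sub_nonneg.2 (pow_le_one₀ (by linarith) (by linarith))))
    (fun k l hk hkl => xgd_anti hp hp1 k l hk hkl)
  unfold mw
  refine h1.trans ?_
  have h2 : 0 ≤ ∑ m ∈ M, gc r ζ M m * ((1 / 2 : ℝ) ^ m.card * (1 - (1 - p) ^ m.card)) :=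
    Finset.sum_nonneg fun m _ => mul_nonneg gc_nonneg (mul_nonneg (by positivity)
      (sub_nonneg.2 (pow_le_one₀ (by linarith) (by linarith))))
  refine mul_le_mul_of_nonneg_right ?_ h2
  have hr1 : (1 : ℝ) ≤ r := by exact_mod_cast hr
  have h3 : (2 * (r : ℝ)) ^ (2 * (r - 1)) ≤ (2 * r) ^ (2 * r) :=
    pow_le_pow_right₀ (by linarith) (by omega)
  calc 4 * ((r : ℝ) * (2 * r) ^ (2 * (r - 1))) = 4 * r * (2 * r) ^ (2 * (r - 1)) := by ring
    _ ≤ 4 * r * (2 * r) ^ (2 * r) := mul_le_mul_of_nonneg_left h3 (by positivity)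

/-- The gap of `(1 + z) / 2`. -/
theorem xgd_half {z : ℂ} (hz : ‖z‖ = 1) : ‖(1 + z) / 2‖ ≤ Real.exp (-(‖1 - z‖ ^ 2 / 8)) := by
  have h1 : ‖(1 + z) / 2‖ ^ 2 = 1 - ‖1 - z‖ ^ 2 / 4 := by
    have h2 : ‖1 + z‖ ^ 2 + ‖1 - z‖ ^ 2 = 4 := by
      have := parallelogram_law_with_norm ℝ (1 : ℂ) z
      rw [norm_one, hz] at this
      nlinarith
    rw [norm_div, Complex.norm_two, div_pow]
    linarith
  have h3 : 1 - ‖1 - z‖ ^ 2 / 4 ≤ Real.exp (-(‖1 - z‖ ^ 2 / 8)) ^ 2 := by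
    rw [← Real.exp_nat_mul]
    have := Real.add_one_le_exp (-(‖1 - z‖ ^ 2 / 4))
    have h4 : ((2 : ℕ) : ℝ) * -(‖1 - z‖ ^ 2 / 8) = -(‖1 - z‖ ^ 2 / 4) := by
      push_cast
      ring
    rw [h4]
    linarith
  rw [← h1] at h3
  exact le_of_sq_le_sq h3 (Real.exp_pos _).le

/-- The angle and the distance from `1`. -/
theorem xgd_arg_sq {a : ℝ} (ha : |a| ≤ Real.pi) :
    a ^ 2 ≤ 10 * (‖1 - Complex.exp (a * Complex.I)‖ ^ 2 / 4) := by
  have h1 : ‖1 - Complex.exp (a * Complex.I)‖ ^ 2 = 4 * Real.sin (a / 2) ^ 2 := by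
    have h2 : 1 - Complex.exp (a * Complex.I) =
        ((1 - Real.cos a : ℝ) : ℂ) + ((-Real.sin a : ℝ) : ℂ) * Complex.I := by
      rw [Complex.exp_mul_I]
      push_cast
      ring
    rw [h2, ← Complex.normSq_eq_norm_sq, Complex.normSq_add_mul_I]
    have h3 := Real.cos_two_mul (a / 2)
    have h4 : 2 * (a / 2) = a := by ring
    rw [h4] at h3
    have h5 := Real.sin_sq_add_cos_sq a
    have h6 := Real.sin_sq_add_cos_sq (a / 2)
    nlinarith
  have h7 : |a| ≤ Real.pi * |Real.sin (a / 2)| := by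
    have h8 : |Real.sin (a / 2)| = Real.sin (|a| / 2) := by
      rcases abs_cases a with ⟨h9, h10⟩ | ⟨h9, h10⟩
      · rw [h9, abs_of_nonneg]
        apply Real.sin_nonneg_of_nonneg_of_le_pi
        · linarith
        · rw [h9] at ha
          linarith [Real.pi_pos]
      · rw [h9]
        have h11 : a / 2 = -(-a / 2) := by ring
        rw [h11, Real.sin_neg, abs_neg, abs_of_nonneg]
        apply Real.sin_nonneg_of_nonneg_of_le_pi
        · linarith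
        · rw [h9] at ha
          linarith [Real.pi_pos]
    rw [h8]
    have h12 := Real.mul_le_sin (x := |a| / 2) (by positivity) (by linarith)
    have h13 : 2 / Real.pi * (|a| / 2) = |a| / Real.pi := by
      field_simp
    rw [h13, div_le_iff₀ Real.pi_pos] at h12
    linarith
  have h14 : a ^ 2 ≤ Real.pi ^ 2 * Real.sin (a / 2) ^ 2 := by
    have := pow_le_pow_left₀ (abs_nonneg a) h7 2
    rwa [sq_abs, mul_pow, sq_abs] at this
  have h15 : Real.pi ^ 2 ≤ 10 := by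
    have := Real.pi_lt_d2
    have := Real.pi_pos
    nlinarith
  rw [h1]
  have h16 : Real.pi ^ 2 * Real.sin (a / 2) ^ 2 ≤ 10 * Real.sin (a / 2) ^ 2 :=
    mul_le_mul_of_nonneg_right h15 (sq_nonneg _)
  linarith

/-- Every unimodular weight is `exp (i a)` with `a² ≤ 10 gap`. -/
theorem xgd_arg_gap {z : Finset (Fin n) → ℂ} {m : Finset (Fin n)} (hz : ‖z m‖ = 1) :
    ∃ a : ℝ, |a| ≤ Real.pi ∧ z m = Complex.exp (a * Complex.I) ∧ a ^ 2 ≤ 10 * gap z m := by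
  have h1 : z m = Complex.exp ((Complex.arg (z m) : ℝ) * Complex.I) := by
    have := Complex.norm_mul_exp_arg_mul_I (z m)
    rw [hz, Complex.ofReal_one, one_mul] at this
    exact this.symm
  refine ⟨Complex.arg (z m), Complex.abs_arg_le_pi _, h1, ?_⟩
  have h2 := xgd_arg_sq (Complex.abs_arg_le_pi (z m))
  rw [← h1] at h2
  exact h2

end Pool.Agent.MP_ca1109_lc.Xg
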