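import Pool.Agent.MP_ca1109_lc.Xg.Defs

namespace Pool.Agent.MP_ca1109_lc.Xg

open Finset Pool.Agent.H66 Pool.Agent.MP_ca1109_lc.Mpg Pool.Agent.MP_ca1109_lc.Agp
open Pool.Agent.MP_ca1109_lc.Xp
open Pool.Agent.MP_ca1109_lc.Dnf (Cube ch one E mix)

variable {n : ℕ}

/-! ## HT: the mass of the monomials which meet `η` -/

theorem xht_not {Ω : Type} [Fintype Ω] [Nonempty Ω] (P : Ω → Prop) :
    (avg fun ω => one (¬ P ω)) = 1 - avg fun ω => one (P ω) := by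
  have h : (fun ω => one (¬ P ω)) = fun ω => 1 - one (P ω) := by
    funext ω
    unfold one
    by_cases hP : P ω <;> simp [hP]
  rw [h, avg_sub, avg_const]

theorem hit_avg {W : ℕ} {M : Finset (Finset (Fin n))} {c : Finset (Fin n) → ℝ} (hW : ∀ m ∈ M, m.card ≤ W)
    (hc : ∀ m ∈ M, 0 ≤ c m) (hc1 : ∀ m ∈ M, c m ≤ 1)
    {Ω : Type} [Fintype Ω] [Nonempty Ω] {η : Ω → Finset (Fin n)} {p δ : ℝ} (hδ : 0 ≤ δ)
    (hη : Miss W p δ η) : (avg fun ω => hw c M (η ω)) ≤ mw p c M + δ * M.card := by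
  unfold hw mw
  rw [avg_sum M fun m ω => c m * ((1 / 2 : ℝ) ^ m.card * one (¬ Disjoint m (η ω)))]
  have h1 : δ * (M.card : ℝ) = ∑ _m ∈ M, δ := by
    rw [sum_const, nsmul_eq_mul, mul_comm]
  rw [h1, ← sum_add_distrib]
  refine sum_le_sum fun m hm => ?_
  rw [avg_mul_left, avg_mul_left, xht_not]
  have h2 := hη m (hW m hm)
  have h3 : (avg fun ω => one (Disjoint m (η ω))) = avg fun ω => one (Disjoint (η ω) m) := by
    congr 1
    funext ω
    rw [disjoint_comm]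
  rw [h3]
  have h4 : 1 - (avg fun ω => one (Disjoint (η ω) m)) ≤ 1 - (1 - p) ^ m.card + δ := by
    have := (abs_le.1 h2).1
    linarith
  have h5 : (0 : ℝ) ≤ (1 / 2) ^ m.card := by positivity
  have h6 : ((1 / 2 : ℝ)) ^ m.card ≤ 1 := pow_le_one₀ (by norm_num) (by norm_num)
  calc c m * ((1 / 2 : ℝ) ^ m.card * (1 - avg fun ω => one (Disjoint (η ω) m)))
      ≤ c m * ((1 / 2 : ℝ) ^ m.card * (1 - (1 - p) ^ m.card + δ)) :=
        mul_le_mul_of_nonneg_left (mul_le_mul_of_nonneg_left h4 h5) (hc m hm)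
    _ = c m * ((1 / 2 : ℝ) ^ m.card * (1 - (1 - p) ^ m.card)) + (c m * (1 / 2 : ℝ) ^ m.card) * δ := by
        ring
    _ ≤ _ := by
        have h7 : c m * (1 / 2 : ℝ) ^ m.card ≤ 1 := mul_le_one₀ (hc1 m hm) h5 h6
        nlinarith

/-! ## LV: the choice of the level -/

theorem sum_le_mw {M : Finset (Finset (Fin n))} {c : Finset (Fin n) → ℝ} (h0 : ∀ m ∈ M, m ≠ ∅)
    (hc : ∀ m ∈ M, 0 ≤ c m) : ∑ m ∈ M, c m * (1 / 2 : ℝ) ^ m.card ≤ 2 * mw (1 / 2) c M := by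
  unfold mw
  rw [mul_sum]
  refine sum_le_sum fun m hm => ?_
  have hk : m.card ≠ 0 := fun h => h0 m hm (card_eq_zero.1 h)
  have h1 : (1 / 2 : ℝ) ^ m.card ≤ 1 / 2 := by
    calc (1 / 2 : ℝ) ^ m.card ≤ (1 / 2 : ℝ) ^ 1 :=
          pow_le_pow_of_le_one (by norm_num) (by norm_num) (Nat.one_le_iff_ne_zero.2 hk)
      _ = 1 / 2 := pow_one _
  have h2 : (1 - 1 / 2 : ℝ) ^ m.card = (1 / 2) ^ m.card := by norm_num
  rw [h2]
  have h3 : (0 : ℝ) ≤ (1 / 2) ^ m.card := by positivity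
  have h4 : (1 / 2 : ℝ) ^ m.card ≤ 2 * ((1 / 2 : ℝ) ^ m.card * (1 - (1 / 2) ^ m.card)) := by
    nlinarith
  have := mul_le_mul_of_nonneg_left h4 (hc m hm)
  linarith

theorem xht_half (q : ℝ) (hq : 0 ≤ q) (hq1 : q ≤ 1) (k : ℕ) :
    ((1 + q) / 2) ^ k ≤ (1 + q ^ k) / 2 := by
  induction k with
  | zero => norm_num
  | succ k ih =>
    have h1 : q ^ k ≤ 1 := pow_le_one₀ hq hq1
    have h2 : 0 ≤ (1 + q) / 2 := by linarith
    calc ((1 + q) / 2) ^ (k + 1) = ((1 + q) / 2) ^ k * ((1 + q) / 2) := pow_succ _ _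
      _ ≤ (1 + q ^ k) / 2 * ((1 + q) / 2) := mul_le_mul_of_nonneg_right ih h2
      _ ≤ (1 + q ^ (k + 1)) / 2 := by
          rw [pow_succ]
          nlinarith [mul_nonneg (sub_nonneg.2 hq1) (sub_nonneg.2 h1)]

theorem xht_mono {M : Finset (Finset (Fin n))} {c : Finset (Fin n) → ℝ}
    (hc : ∀ m ∈ M, 0 ≤ c m) {p : ℝ} (hp : 0 ≤ p) (hp1 : p ≤ 1) :
    mw p c M ≤ 2 * mw (p / 2) c M := by
  unfold mw
  rw [mul_sum]
  refine sum_le_sum fun m hm => ?_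
  have h1 := xht_half (1 - p) (by linarith) (by linarith) m.card
  have h2 : (1 + (1 - p)) / 2 = 1 - p / 2 := by ring
  rw [h2] at h1
  have h3 : (0 : ℝ) ≤ c m * (1 / 2) ^ m.card := mul_nonneg (hc m hm) (by positivity)
  have h4 : 1 - (1 - p) ^ m.card ≤ 2 * (1 - (1 - p / 2) ^ m.card) := by linarith
  have := mul_le_mul_of_nonneg_left h4 h3
  linarith

theorem xht_le {M : Finset (Finset (Fin n))} {c : Finset (Fin n) → ℝ}
    (hc : ∀ m ∈ M, 0 ≤ c m) (hc1 : ∀ m ∈ M, c m ≤ 1) {p : ℝ} (hp : 0 ≤ p) (hp1 : p ≤ 1) :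
    mw p c M ≤ M.card * p := by
  unfold mw
  have h1 : (M.card : ℝ) * p = ∑ _m ∈ M, p := by
    rw [sum_const, nsmul_eq_mul]
  rw [h1]
  refine sum_le_sum fun m hm => ?_
  have h2 : 1 + (m.card : ℝ) * (-p) ≤ (1 + (-p)) ^ m.card :=
    one_add_mul_le_pow (by linarith) m.card
  have h3 : 1 - (1 - p) ^ m.card ≤ m.card * p := by
    have : (1 + (-p)) = 1 - p := by ring
    rw [this] at h2
    linarith
  have h4 : (m.card : ℝ) * (1 / 2) ^ m.card ≤ 1 := by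
    have h5 : (m.card : ℝ) ≤ 2 ^ m.card := by
      exact_mod_cast (Nat.lt_two_pow_self (n := m.card)).le
    have h6 : (0 : ℝ) ≤ (1 / 2) ^ m.card := by positivity
    calc (m.card : ℝ) * (1 / 2) ^ m.card ≤ 2 ^ m.card * (1 / 2) ^ m.card :=
          mul_le_mul_of_nonneg_right h5 h6
      _ = 1 := by rw [← mul_pow]; norm_num
  have h7 : (0 : ℝ) ≤ (1 / 2) ^ m.card := by positivity
  have h8 : (1 / 2 : ℝ) ^ m.card * (1 - (1 - p) ^ m.card) ≤ p := by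
    calc (1 / 2 : ℝ) ^ m.card * (1 - (1 - p) ^ m.card) ≤ (1 / 2 : ℝ) ^ m.card * (m.card * p) :=
          mul_le_mul_of_nonneg_left h3 h7
      _ = ((m.card : ℝ) * (1 / 2) ^ m.card) * p := by ring
      _ ≤ 1 * p := mul_le_mul_of_nonneg_right h4 hp
      _ = p := one_mul p
  have h9 : (0 : ℝ) ≤ (1 / 2 : ℝ) ^ m.card * (1 - (1 - p) ^ m.card) := by
    refine mul_nonneg h7 ?_
    have : (1 - p) ^ m.card ≤ 1 := pow_le_one₀ (by linarith) (by linarith)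
    linarith
  calc c m * ((1 / 2 : ℝ) ^ m.card * (1 - (1 - p) ^ m.card))
      ≤ 1 * ((1 / 2 : ℝ) ^ m.card * (1 - (1 - p) ^ m.card)) :=
        mul_le_mul_of_nonneg_right (hc1 m hm) h9
    _ ≤ p := by rw [one_mul]; exact h8

theorem level {M : Finset (Finset (Fin n))} {c : Finset (Fin n) → ℝ} {C : ℝ} {L : ℕ} (hC : 1 ≤ C)
    (hc : ∀ m ∈ M, 0 ≤ c m) (hc1 : ∀ m ∈ M, c m ≤ 1) (hL : M.card ≤ 2 ^ L)
    (h : C < mw (1 / 2) c M) :
    ∃ l < L, C / 2 ≤ mw ((1 / 2) ^ (l + 1)) c M ∧ mw ((1 / 2) ^ (l + 1)) c M ≤ C := by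
  classical
  have hL' : (M.card : ℝ) ≤ 2 ^ L := by exact_mod_cast hL
  have hL0 : L ≠ 0 := by
    rintro rfl
    have h1 := xht_le hc hc1 (p := 1 / 2) (by norm_num) (by norm_num)
    rw [pow_zero] at hL'
    linarith
  have hex : ∃ l : ℕ, mw ((1 / 2) ^ (l + 1)) c M ≤ C := by
    refine ⟨L - 1, ?_⟩
    have h2 : L - 1 + 1 = L := by omega
    rw [h2]
    have h1 := xht_le hc hc1 (p := (1 / 2) ^ L) (by positivity)
      (pow_le_one₀ (by norm_num) (by norm_num))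
    have h3 : (M.card : ℝ) * (1 / 2) ^ L ≤ 1 := by
      calc (M.card : ℝ) * (1 / 2) ^ L ≤ 2 ^ L * (1 / 2) ^ L :=
            mul_le_mul_of_nonneg_right hL' (by positivity)
        _ = 1 := by rw [← mul_pow]; norm_num
    linarith
  have hP := Nat.find_spec hex
  have hlt : Nat.find hex < L := by
    have h2 : L - 1 + 1 = L := by omega
    have : Nat.find hex ≤ L - 1 := by
      refine Nat.find_min' hex ?_
      rw [h2]
      have h1 := xht_le hc hc1 (p := (1 / 2) ^ L) (by positivity)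
        (pow_le_one₀ (by norm_num) (by norm_num))
      have h3 : (M.card : ℝ) * (1 / 2) ^ L ≤ 1 := by
        calc (M.card : ℝ) * (1 / 2) ^ L ≤ 2 ^ L * (1 / 2) ^ L :=
              mul_le_mul_of_nonneg_right hL' (by positivity)
          _ = 1 := by rw [← mul_pow]; norm_num
      linarith
    omega
  refine ⟨Nat.find hex, hlt, ?_, hP⟩
  have hpos : Nat.find hex ≠ 0 := by
    intro h0
    rw [h0] at hP
    rw [zero_add, pow_one] at hP
    linarith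
  obtain ⟨j, hj⟩ := Nat.exists_eq_succ_of_ne_zero hpos
  have hmin : ¬ mw ((1 / 2) ^ (j + 1)) c M ≤ C := Nat.find_min hex (by omega)
  have h4 := xht_mono hc (p := (1 / 2) ^ (j + 1)) (by positivity)
    (pow_le_one₀ (by norm_num) (by norm_num))
  have h5 : (1 / 2 : ℝ) ^ (j + 1) / 2 = (1 / 2) ^ (Nat.find hex + 1) := by
    rw [hj, Nat.succ_eq_add_one, pow_succ (1 / 2 : ℝ) (j + 1)]
    ring
  rw [h5] at h4
  push Not at hmin
  linarith

end Pool.Agent.MP_ca1109_lc.Xg
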