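import Pool.Agent.MP_ca1109_lc.Xg.KL
import Pool.Agent.MP_ca1109_lc.Xp.EB

/-!
# The expectations of the pivot conditions on the string
-/

namespace Pool.Agent.MP_ca1109_lc.Xg

open Finset Pool.Agent.H66 Pool.Agent.MP_ca1109_lc.Mpg Pool.Agent.MP_ca1109_lc.Agp
open Pool.Agent.MP_ca1109_lc.Xp
open Pool.Agent.MP_ca1109_lc.Dnf (Cube ch one E mix E_mono one_nonneg one_mono)

variable {n : ℕ} {r : ℕ} {M : Finset (Finset (Fin n))}
  {w : Finset (Fin n) → Finset (Fin n) → Fin n}

theorem px_one_and (a b : Prop) : one a * one b = one (a ∧ b) := by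
  classical
  unfold one
  by_cases ha : a <;> by_cases hb : b <;> simp [ha, hb]

theorem px_E (hw : Kil r M w) {m : Finset (Fin n)} (hm : m ∈ M) {i : Fin n} (hi : i ∈ m) :
    (E fun x => one (PX M w m i x)) = (1 / 2) ^ (m.card - 1 + (kl M w m i).card) := by
  have hd : Disjoint (m.erase i) (kl M w m i) :=
    (kl_disj hw hm hi).symm.mono_left (Finset.erase_subset _ _)
  have h := E_cyl (m.erase i) (kl M w m i) hd
  rw [Finset.card_erase_of_mem hi] at h
  exact h

theorem px_far (hw : Kil r M w) {m m' : Finset (Fin n)} (hm : m ∈ M) (hm' : m' ∈ M)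
    {i i' : Fin n} (hi : i ∈ m) (hi' : i' ∈ m') (hd : Disjoint (dom M w m) (dom M w m')) :
    (E fun x => one (PX M w m i x) * one (PX M w m' i' x)) =
      (1 / 2) ^ (m.card - 1 + (kl M w m i).card) * (1 / 2) ^ (m'.card - 1 + (kl M w m' i').card) := by
  classical
  have hs := kl_dom hw hm hi
  have hs' := kl_dom hw hm' hi'
  have d1 : Disjoint (m ∪ kl M w m i) (m' ∪ kl M w m' i') := hd.mono hs hs'
  rw [Finset.disjoint_union_left, Finset.disjoint_union_right, Finset.disjoint_union_right] at d1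
  obtain ⟨⟨a1, a2⟩, a3, a4⟩ := d1
  have b1 := kl_disj hw hm hi
  have b2 := kl_disj hw hm' hi'
  have e1 : m.erase i ⊆ m := Finset.erase_subset _ _
  have e2 : m'.erase i' ⊆ m' := Finset.erase_subset _ _
  have hAB : Disjoint (m.erase i ∪ m'.erase i') (kl M w m i ∪ kl M w m' i') := by
    rw [Finset.disjoint_union_left, Finset.disjoint_union_right, Finset.disjoint_union_right]
    exact ⟨⟨b1.symm.mono_left e1, a2.mono_left e1⟩, a3.symm.mono_left e2, b2.symm.mono_left e2⟩
  have h := E_cyl _ _ hAB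
  rw [Finset.card_union_of_disjoint (a1.mono e1 e2), Finset.card_union_of_disjoint a4,
    Finset.card_erase_of_mem hi, Finset.card_erase_of_mem hi'] at h
  rw [← pow_add]
  have hexp : m.card - 1 + (kl M w m i).card + (m'.card - 1 + (kl M w m' i').card) =
      m.card - 1 + (m'.card - 1) + ((kl M w m i).card + (kl M w m' i').card) := by omega
  rw [hexp, ← h]
  congr 1
  funext x
  rw [px_one_and]
  congr 1
  unfold PX Tr
  simp only [Finset.mem_union, eq_iff_iff]
  constructor
  · rintro ⟨⟨c1, c2⟩, c3, c4⟩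
    exact ⟨fun j hj => hj.elim (c1 j) (c3 j), fun j hj => hj.elim (c2 j) (c4 j)⟩
  · rintro ⟨c1, c2⟩
    exact ⟨⟨fun j hj => c1 j (Or.inl hj), fun j hj => c2 j (Or.inl hj)⟩,
      fun j hj => c1 j (Or.inr hj), fun j hj => c2 j (Or.inr hj)⟩

theorem px_near {m m' : Finset (Fin n)} {i i' : Fin n} (hi : i ∈ m) (hi' : i' ∈ m') :
    (E fun x => one (PX M w m i x) * one (PX M w m' i' x)) ≤ 4 * (1 / 2) ^ (m ∪ m').card := by
  classical
  have h := E_cyl (m.erase i ∪ m'.erase i') ∅ (Finset.disjoint_empty_right _)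
  have h1 : (E fun x => one (PX M w m i x) * one (PX M w m' i' x)) ≤
      (1 / 2) ^ ((m.erase i ∪ m'.erase i').card + (∅ : Finset (Fin n)).card) := by
    rw [← h]
    refine E_mono fun x => ?_
    rw [px_one_and]
    refine one_mono ?_
    rintro ⟨⟨c1, _⟩, c3, _⟩
    refine ⟨fun j hj => ?_, by simp⟩
    rcases Finset.mem_union.1 hj with hj | hj
    · exact c1 j hj
    · exact c3 j hj
  refine h1.trans ?_
  rw [Finset.card_empty, Nat.add_zero]
  have hc : (m ∪ m').card ≤ (m.erase i ∪ m'.erase i').card + 2 := by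
    have hsub : m ∪ m' ⊆ (m.erase i ∪ m'.erase i') ∪ {i, i'} := by
      intro j hj
      simp only [Finset.mem_union, Finset.mem_erase, Finset.mem_insert, Finset.mem_singleton] at hj ⊢
      tauto
    calc (m ∪ m').card ≤ ((m.erase i ∪ m'.erase i') ∪ {i, i'}).card := Finset.card_le_card hsub
      _ ≤ (m.erase i ∪ m'.erase i').card + ({i, i'} : Finset (Fin n)).card := Finset.card_union_le _ _
      _ ≤ (m.erase i ∪ m'.erase i').card + 2 := Nat.add_le_add_left Finset.card_le_two _
  have h2 : (1 / 2 : ℝ) ^ ((m.erase i ∪ m'.erase i').card + 2) ≤ (1 / 2) ^ (m ∪ m').card :=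
    pow_le_pow_of_le_one (by norm_num) (by norm_num) hc
  have h3 : (1 / 2 : ℝ) ^ (m.erase i ∪ m'.erase i').card =
      4 * (1 / 2) ^ ((m.erase i ∪ m'.erase i').card + 2) := by
    rw [pow_add]; ring
  rw [h3]
  linarith

end Pool.Agent.MP_ca1109_lc.Xg
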