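import Pool.Agent.MP_ca1109_lc.Xg.KL
import Pool.Agent.MP_ca1109_lc.Xg.EX
import Pool.Agent.MP_ca1109_lc.Xg.EE

/-!
# The probabilities of the pivot events
-/

namespace Pool.Agent.MP_ca1109_lc.Xg

open Finset Pool.Agent.H66 Pool.Agent.MP_ca1109_lc.Mpg Pool.Agent.MP_ca1109_lc.Agp
open Pool.Agent.MP_ca1109_lc.Xp
open Pool.Agent.MP_ca1109_lc.Dnf (Cube ch one E mix)

variable {n : ℕ}

/-! ## Auxiliary facts -/

private theorem xpr_later_insert {s : Finset (Fin n)} {a : Fin n} (h : ∀ x ∈ s, a < x) :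
    later (insert a s) a = s := by
  unfold later
  ext j
  simp only [mem_filter, mem_insert]
  constructor
  · rintro ⟨rfl | hj, hlt⟩
    · exact absurd hlt (lt_irrefl _)
    · exact hj
  · intro hj
    exact ⟨Or.inr hj, h j hj⟩

private theorem xpr_later_insert' {s : Finset (Fin n)} {a i : Fin n} (h : ∀ x ∈ s, a < x)
    (hi : i ∈ s) : later (insert a s) i = later s i := by
  unfold later
  ext j
  simp only [mem_filter, mem_insert]
  constructor
  · rintro ⟨rfl | hj, hlt⟩
    · exact absurd hlt (not_lt.mpr (h i hi).le)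
    · exact ⟨hj, hlt⟩
  · rintro ⟨hj, hlt⟩
    exact ⟨Or.inr hj, hlt⟩

/-- The position of the last success. -/
private theorem xpr_geom (p : ℝ) (m : Finset (Fin n)) :
    ∑ i ∈ m, p * (1 - p) ^ (later m i).card = 1 - (1 - p) ^ m.card := by
  induction m using Finset.induction_on_min with
  | empty => simp
  | insert a s h ih =>
    have ha : a ∉ s := fun hh => lt_irrefl a (h a hh)
    rw [sum_insert ha, xpr_later_insert h, card_insert_of_notMem ha]
    have : ∑ i ∈ s, p * (1 - p) ^ (later (insert a s) i).card =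
        ∑ i ∈ s, p * (1 - p) ^ (later s i).card :=
      sum_congr rfl fun i hi => by rw [xpr_later_insert' h hi]
    rw [this, ih]
    ring

section PR
variable {r s : ℕ} {M : Finset (Finset (Fin n))} {w : Finset (Fin n) → Finset (Fin n) → Fin n}
  {Ω : Type} [Fintype Ω] [Nonempty Ω] {η : Ω → Finset (Fin n)} {p δ : ℝ}

private theorem xpr_unique {m : Finset (Fin n)} {η : Finset (Fin n)} {i j : Fin n} (hi : i ∈ m)
    (hj : j ∈ m) (h : PE M w m i η) (h' : PE M w m j η) : i = j := by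
  have aux : ∀ a b : Fin n, b ∈ m → PE M w m a η → PE M w m b η → ¬ a < b := by
    intro a b hb ha hb' hlt
    exact disjoint_left.1 ha.2 hb'.1 (mem_union_left _ (mem_filter.2 ⟨hb, hlt⟩))
  exact le_antisymm (not_lt.1 (aux j i hi h' h)) (not_lt.1 (aux i j hj h h'))

theorem pv_eq (m : Finset (Fin n)) (η : Finset (Fin n)) (x : Cube n) :
    one (Pv M w m η x) = ∑ i ∈ m, one (PE M w m i η) * one (PX M w m i x) := by
  classical
  by_cases h : Pv M w m η x
  · obtain ⟨i, hi, h1, h2⟩ := h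
    rw [Dnf.one_true ⟨i, hi, h1, h2⟩, sum_eq_single_of_mem i hi, Dnf.one_true h1, Dnf.one_true h2,
      one_mul]
    intro j hj hji
    rw [Dnf.one_false (fun h3 => hji (xpr_unique hj hi h3 h1)), zero_mul]
  · rw [Dnf.one_false h]
    symm
    refine sum_eq_zero fun i hi => ?_
    by_cases h1 : PE M w m i η
    · rw [Dnf.one_false (p := PX M w m i x) (fun h2 => h ⟨i, hi, h1, h2⟩), mul_zero]
    · rw [Dnf.one_false h1, zero_mul]

private theorem xpr_E_pv (m : Finset (Fin n)) (η : Finset (Fin n)) :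
    (E fun x => one (Pv M w m η x)) =
      ∑ i ∈ m, one (PE M w m i η) * E fun x => one (PX M w m i x) := by
  have h : (fun x => one (Pv M w m η x)) =
      fun x => ∑ i ∈ m, one (PE M w m i η) * one (PX M w m i x) := funext fun x => pv_eq m η x
  rw [h, Dnf.E_sum]
  exact sum_congr rfl fun i _ => Dnf.E_smul _ _

private theorem xpr_E_pv2 (m m' : Finset (Fin n)) (η : Finset (Fin n)) :
    (E fun x => one (Pv M w m η x) * one (Pv M w m' η x)) =
      ∑ i ∈ m, ∑ j ∈ m', (one (PE M w m i η) * one (PE M w m' j η)) *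
        E fun x => one (PX M w m i x) * one (PX M w m' j x) := by
  have h : (fun x => one (Pv M w m η x) * one (Pv M w m' η x)) =
      fun x => ∑ i ∈ m, ∑ j ∈ m', (one (PE M w m i η) * one (PE M w m' j η)) *
        (one (PX M w m i x) * one (PX M w m' j x)) := by
    funext x
    rw [pv_eq, pv_eq, sum_mul_sum]
    exact sum_congr rfl fun i _ => sum_congr rfl fun j _ => by ring
  rw [h, Dnf.E_sum]
  refine sum_congr rfl fun i _ => ?_
  rw [Dnf.E_sum]
  exact sum_congr rfl fun j _ => Dnf.E_smul _ _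

theorem pv_one (hM : Rd r M) (hw : Kil r M w) (hη : Miss s p δ η) {m : Finset (Fin n)}
    (hm : m ∈ M) (hs : m.card + r ≤ s) :
    |(avg fun ω => E fun x => one (Pv M w m (η ω) x)) - aw p M w m| ≤ 2 * δ * m.card := by
  have h1 : (avg fun ω => E fun x => one (Pv M w m (η ω) x)) =
      ∑ i ∈ m, (avg fun ω => one (PE M w m i (η ω))) *
        (1 / 2) ^ (m.card - 1 + (kl M w m i).card) := by
    simp_rw [xpr_E_pv]
    rw [avg_sum]
    refine sum_congr rfl fun i hi => ?_
    rw [px_E hw hm hi]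
    have : (fun ω => one (PE M w m i (η ω)) * (1 / 2 : ℝ) ^ (m.card - 1 + (kl M w m i).card)) =
        fun ω => (1 / 2 : ℝ) ^ (m.card - 1 + (kl M w m i).card) * one (PE M w m i (η ω)) :=
      funext fun ω => mul_comm _ _
    rw [this, avg_mul_left, mul_comm]
  rw [h1, aw, ← sum_sub_distrib]
  refine (abs_sum_le_sum_abs _ _).trans ?_
  have h2 : ∀ i ∈ m, |(avg fun ω => one (PE M w m i (η ω))) *
      (1 / 2) ^ (m.card - 1 + (kl M w m i).card) -
      p * (1 - p) ^ ((later m i).card + (kl M w m i).card) *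
        (1 / 2) ^ (m.card - 1 + (kl M w m i).card)| ≤ 2 * δ := by
    intro i hi
    rw [← sub_mul, abs_mul]
    have h3 := pe_avg hw hη hm hi hs (by have := kl_card (w := w) hM hm hi; omega)
    have h4 : |(1 / 2 : ℝ) ^ (m.card - 1 + (kl M w m i).card)| ≤ 1 := by
      rw [abs_of_nonneg (by positivity)]
      exact pow_le_one₀ (by norm_num) (by norm_num)
    calc _ ≤ 2 * δ * 1 := mul_le_mul h3 h4 (abs_nonneg _) ((abs_nonneg _).trans h3)
      _ = 2 * δ := mul_one _
  calc _ ≤ ∑ i ∈ m, 2 * δ := sum_le_sum h2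
    _ = 2 * δ * m.card := by rw [sum_const, nsmul_eq_mul, mul_comm]

theorem pv_far (hM : Rd r M) (hw : Kil r M w) (hη : Miss s p δ η) {m m' : Finset (Fin n)}
    (hm : m ∈ M) (hm' : m' ∈ M) (hs : m.card + m'.card + 2 * r ≤ s)
    (hd : Disjoint (dom M w m) (dom M w m')) :
    (avg fun ω => E fun x => one (Pv M w m (η ω) x) * one (Pv M w m' (η ω) x)) ≤
      aw p M w m * aw p M w m' + 4 * δ * (m.card * m'.card) := by
  have h1 : (avg fun ω => E fun x => one (Pv M w m (η ω) x) * one (Pv M w m' (η ω) x)) =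
      ∑ i ∈ m, ∑ j ∈ m', (avg fun ω => one (PE M w m i (η ω)) * one (PE M w m' j (η ω))) *
        ((1 / 2) ^ (m.card - 1 + (kl M w m i).card) *
          (1 / 2) ^ (m'.card - 1 + (kl M w m' j).card)) := by
    simp_rw [xpr_E_pv2]
    rw [avg_sum]
    refine sum_congr rfl fun i hi => ?_
    rw [avg_sum]
    refine sum_congr rfl fun j hj => ?_
    rw [px_far hw hm hm' hi hj hd]
    have : (fun ω => one (PE M w m i (η ω)) * one (PE M w m' j (η ω)) *
        ((1 / 2 : ℝ) ^ (m.card - 1 + (kl M w m i).card) *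
          (1 / 2) ^ (m'.card - 1 + (kl M w m' j).card))) =
        fun ω => ((1 / 2 : ℝ) ^ (m.card - 1 + (kl M w m i).card) *
          (1 / 2) ^ (m'.card - 1 + (kl M w m' j).card)) *
          (one (PE M w m i (η ω)) * one (PE M w m' j (η ω))) :=
      funext fun ω => mul_comm _ _
    rw [this, avg_mul_left, mul_comm]
  have h2 : ∀ i ∈ m, ∀ j ∈ m',
      (avg fun ω => one (PE M w m i (η ω)) * one (PE M w m' j (η ω))) *
        ((1 / 2 : ℝ) ^ (m.card - 1 + (kl M w m i).card) *
          (1 / 2) ^ (m'.card - 1 + (kl M w m' j).card)) ≤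
      (p * (1 - p) ^ ((later m i).card + (kl M w m i).card) *
        (1 / 2) ^ (m.card - 1 + (kl M w m i).card)) *
      (p * (1 - p) ^ ((later m' j).card + (kl M w m' j).card) *
        (1 / 2) ^ (m'.card - 1 + (kl M w m' j).card)) + 4 * δ := by
    intro i hi j hj
    have h3 := pe_far hw hη hm hm' hi hj hs (by have := kl_card (w := w) hM hm hi; omega)
      (by have := kl_card (w := w) hM hm' hj; omega) hd
    have h4 := (abs_le.1 h3).2
    have hδ : 0 ≤ 4 * δ := (abs_nonneg _).trans h3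
    have hc0 : (0 : ℝ) ≤ (1 / 2 : ℝ) ^ (m.card - 1 + (kl M w m i).card) *
        (1 / 2) ^ (m'.card - 1 + (kl M w m' j).card) := by positivity
    have hc1 : (1 / 2 : ℝ) ^ (m.card - 1 + (kl M w m i).card) *
        (1 / 2) ^ (m'.card - 1 + (kl M w m' j).card) ≤ 1 :=
      mul_le_one₀ (pow_le_one₀ (by norm_num) (by norm_num)) (by positivity)
        (pow_le_one₀ (by norm_num) (by norm_num))
    calc _ ≤ ((p * (1 - p) ^ ((later m i).card + (kl M w m i).card)) *
          (p * (1 - p) ^ ((later m' j).card + (kl M w m' j).card)) + 4 * δ) *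
          ((1 / 2 : ℝ) ^ (m.card - 1 + (kl M w m i).card) *
            (1 / 2) ^ (m'.card - 1 + (kl M w m' j).card)) :=
          mul_le_mul_of_nonneg_right (by linarith) hc0
      _ = (p * (1 - p) ^ ((later m i).card + (kl M w m i).card) *
        (1 / 2) ^ (m.card - 1 + (kl M w m i).card)) *
      (p * (1 - p) ^ ((later m' j).card + (kl M w m' j).card) *
        (1 / 2) ^ (m'.card - 1 + (kl M w m' j).card)) +
          4 * δ * ((1 / 2 : ℝ) ^ (m.card - 1 + (kl M w m i).card) *
            (1 / 2) ^ (m'.card - 1 + (kl M w m' j).card)) := by ring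
      _ ≤ _ := by
          have := mul_le_mul_of_nonneg_left hc1 hδ
          rw [mul_one] at this
          linarith
  rw [h1]
  calc _ ≤ ∑ i ∈ m, ∑ j ∈ m',
      ((p * (1 - p) ^ ((later m i).card + (kl M w m i).card) *
        (1 / 2) ^ (m.card - 1 + (kl M w m i).card)) *
      (p * (1 - p) ^ ((later m' j).card + (kl M w m' j).card) *
        (1 / 2) ^ (m'.card - 1 + (kl M w m' j).card)) + 4 * δ) :=
        sum_le_sum fun i hi => sum_le_sum fun j hj => h2 i hi j hj
    _ = aw p M w m * aw p M w m' + 4 * δ * (m.card * m'.card) := by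
        simp_rw [sum_add_distrib, sum_const, nsmul_eq_mul]
        rw [aw, aw, sum_mul_sum]
        ring

private theorem xpr_pe_sum_le_one {m : Finset (Fin n)} (η : Finset (Fin n)) :
    ∑ i ∈ m, one (PE M w m i η) ≤ 1 := (pe_sum η).trans (Dnf.one_le _)

theorem pv_near (hη : Miss s p δ η) {m m' : Finset (Fin n)} (hs : m.card ≤ s) :
    (avg fun ω => E fun x => one (Pv M w m (η ω) x) * one (Pv M w m' (η ω) x)) ≤
      4 * (1 / 2) ^ (m ∪ m').card * (1 - (1 - p) ^ m.card + δ) := by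
  have h1 : ∀ ω, (E fun x => one (Pv M w m (η ω) x) * one (Pv M w m' (η ω) x)) ≤
      (4 * (1 / 2) ^ (m ∪ m').card) * (1 - one (Disjoint (η ω) m)) := by
    intro ω
    rw [xpr_E_pv2]
    have hc : (0 : ℝ) ≤ 4 * (1 / 2) ^ (m ∪ m').card := by positivity
    have hs0 : 0 ≤ ∑ i ∈ m, one (PE M w m i (η ω)) := sum_nonneg fun i _ => Dnf.one_nonneg _
    calc _ ≤ ∑ i ∈ m, ∑ j ∈ m', (one (PE M w m i (η ω)) * one (PE M w m' j (η ω))) *
          (4 * (1 / 2) ^ (m ∪ m').card) :=
          sum_le_sum fun i hi => sum_le_sum fun j hj => mul_le_mul_of_nonneg_left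
            (px_near hi hj) (mul_nonneg (Dnf.one_nonneg _) (Dnf.one_nonneg _))
      _ = (4 * (1 / 2) ^ (m ∪ m').card) * ((∑ i ∈ m, one (PE M w m i (η ω))) *
          ∑ j ∈ m', one (PE M w m' j (η ω))) := by
          rw [sum_mul_sum, mul_sum]
          refine sum_congr rfl fun i _ => ?_
          rw [mul_sum]
          exact sum_congr rfl fun j _ => mul_comm _ _
      _ ≤ (4 * (1 / 2) ^ (m ∪ m').card) * ((∑ i ∈ m, one (PE M w m i (η ω))) * 1) :=
          mul_le_mul_of_nonneg_left (mul_le_mul_of_nonneg_left (xpr_pe_sum_le_one _) hs0) hc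
      _ ≤ (4 * (1 / 2) ^ (m ∪ m').card) * (1 - one (Disjoint (η ω) m)) := by
          refine mul_le_mul_of_nonneg_left ?_ hc
          rw [mul_one, ← Dnf.one_not]
          refine (pe_sum (η ω)).trans (Dnf.one_mono fun h => ?_)
          rwa [disjoint_comm]
  refine (avg_mono h1).trans ?_
  rw [avg_mul_left, avg_sub, avg_const]
  refine mul_le_mul_of_nonneg_left ?_ (by positivity)
  have := (abs_le.1 (hη m hs)).1
  linarith

theorem aw_lower (hM : Rd r M) {m : Finset (Fin n)} (hm : m ∈ M) (hp : 0 ≤ p) (hp1 : p ≤ 1 / 2) :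
    (1 / 4) ^ r * ((1 / 2) ^ m.card * (1 - (1 - p) ^ m.card)) ≤ aw p M w m := by
  rw [← xpr_geom, aw, mul_sum, mul_sum]
  refine sum_le_sum fun i hi => ?_
  have hk := kl_card (w := w) hM hm hi
  have hq : (1 / 2 : ℝ) ≤ 1 - p := by linarith
  have hq0 : (0 : ℝ) ≤ 1 - p := by linarith
  have h1 : (1 / 4 : ℝ) ^ r ≤ (1 / 4) ^ (kl M w m i).card :=
    pow_le_pow_of_le_one (by norm_num) (by norm_num) (by omega)
  have h2 : (1 / 2 : ℝ) ^ m.card ≤ (1 / 2) ^ (m.card - 1) :=
    pow_le_pow_of_le_one (by norm_num) (by norm_num) (Nat.sub_le _ _)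
  have h3 : (1 / 2 : ℝ) ^ (kl M w m i).card ≤ (1 - p) ^ (kl M w m i).card :=
    pow_le_pow_left₀ (by norm_num) hq _
  have h4 : (1 / 4 : ℝ) ^ (kl M w m i).card =
      (1 / 2) ^ (kl M w m i).card * (1 / 2) ^ (kl M w m i).card := by
    rw [← mul_pow]; norm_num
  calc (1 / 4 : ℝ) ^ r * ((1 / 2) ^ m.card * (p * (1 - p) ^ (later m i).card))
      ≤ (1 / 4) ^ (kl M w m i).card * ((1 / 2) ^ (m.card - 1) * (p * (1 - p) ^ (later m i).card)) :=
        mul_le_mul h1 (mul_le_mul_of_nonneg_right h2 (by positivity)) (by positivity)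
          (by positivity)
    _ = (p * (1 - p) ^ (later m i).card * (1 / 2) ^ (m.card - 1) * (1 / 2) ^ (kl M w m i).card) *
        (1 / 2) ^ (kl M w m i).card := by rw [h4]; ring
    _ ≤ (p * (1 - p) ^ (later m i).card * (1 / 2) ^ (m.card - 1) * (1 / 2) ^ (kl M w m i).card) *
        (1 - p) ^ (kl M w m i).card := mul_le_mul_of_nonneg_left h3 (by positivity)
    _ = _ := by rw [pow_add, pow_add]; ring

theorem aw_upper {m : Finset (Fin n)} (hp : 0 ≤ p) (hp1 : p ≤ 1 / 2) :
    aw p M w m ≤ 2 * ((1 / 2) ^ m.card * (1 - (1 - p) ^ m.card)) := by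
  rw [← xpr_geom, aw, mul_sum, mul_sum]
  refine sum_le_sum fun i hi => ?_
  have hq0 : (0 : ℝ) ≤ 1 - p := by linarith
  have hq1 : 1 - p ≤ 1 := by linarith
  have hm0 : 0 < m.card := card_pos.2 ⟨i, hi⟩
  have h1 : (1 - p) ^ (kl M w m i).card ≤ 1 := pow_le_one₀ hq0 hq1
  have h2 : (1 / 2 : ℝ) ^ (kl M w m i).card ≤ 1 := pow_le_one₀ (by norm_num) (by norm_num)
  have h3 : (1 / 2 : ℝ) ^ (m.card - 1) = 2 * (1 / 2) ^ m.card := by
    obtain ⟨k, hk⟩ : ∃ k, m.card = k + 1 := ⟨m.card - 1, by omega⟩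
    rw [hk, Nat.add_sub_cancel, pow_succ]
    ring
  have h0 : 0 ≤ p * (1 - p) ^ (later m i).card * (1 / 2) ^ (m.card - 1) := by positivity
  calc p * (1 - p) ^ ((later m i).card + (kl M w m i).card) *
        (1 / 2) ^ (m.card - 1 + (kl M w m i).card)
      = (p * (1 - p) ^ (later m i).card * (1 / 2) ^ (m.card - 1)) *
        ((1 - p) ^ (kl M w m i).card * (1 / 2) ^ (kl M w m i).card) := by
        rw [pow_add, pow_add]; ring
    _ ≤ (p * (1 - p) ^ (later m i).card * (1 / 2) ^ (m.card - 1)) * 1 :=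
        mul_le_mul_of_nonneg_left (mul_le_one₀ h1 (by positivity) h2) h0
    _ = _ := by rw [h3]; ring

end PR

end Pool.Agent.MP_ca1109_lc.Xg
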