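import Pool.Agent.MP_ca1109_lc.Xg.VR
import Pool.Agent.MP_ca1109_lc.Xg.PR

/-! # Row PV: little weight on pivots is unlikely -/

namespace Pool.Agent.MP_ca1109_lc.Xg

open Finset Pool.Agent.H66 Pool.Agent.MP_ca1109_lc.Mpg Pool.Agent.MP_ca1109_lc.Agp
open Pool.Agent.MP_ca1109_lc.Xp
open Pool.Agent.MP_ca1109_lc.Dnf (Cube ch one E mix)

variable {n : ℕ}

theorem xpv_small {δ N w : ℝ} (hδ : 0 ≤ δ) (hN : 0 ≤ N) (hw : 0 ≤ w)
    (h : δ * (N + 1) ^ 2 * (w + 1) ^ 2 ≤ 1) :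
    δ * N ≤ 1 ∧ δ * (w * N) ^ 2 ≤ 1 ∧ δ * (w * N) ≤ 1 := by
  have h0 : δ * (N + 1) ^ 2 * (w + 1) ^ 2 = δ * ((N + 1) ^ 2 * (w + 1) ^ 2) := by ring
  rw [h0] at h
  have key : ∀ a : ℝ, a ≤ (N + 1) ^ 2 * (w + 1) ^ 2 → δ * a ≤ 1 := fun a ha =>
    (mul_le_mul_of_nonneg_left ha hδ).trans h
  have hN1 : N ≤ (N + 1) ^ 2 := by nlinarith
  have hN2 : N ^ 2 ≤ (N + 1) ^ 2 := by nlinarith
  have hw1 : w ≤ (w + 1) ^ 2 := by nlinarith
  have hw2 : w ^ 2 ≤ (w + 1) ^ 2 := by nlinarith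
  have hw3 : 1 ≤ (w + 1) ^ 2 := by nlinarith
  refine ⟨key _ ?_, key _ ?_, key _ ?_⟩
  · calc N = N * 1 := by ring
      _ ≤ _ := mul_le_mul hN1 hw3 (by norm_num) (by positivity)
  · calc (w * N) ^ 2 = N ^ 2 * w ^ 2 := by ring
      _ ≤ _ := mul_le_mul hN2 hw2 (by positivity) (by positivity)
  · calc w * N = N * w := by ring
      _ ≤ _ := mul_le_mul hN1 hw1 (by positivity) (by positivity)

theorem xpv_var {δ NCr m₀ μ X₁ X₂ a b c : ℝ} (hμ : 0 ≤ μ) (hm : 1 ≤ m₀)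
    (hNC : 0 ≤ NCr) (h4 : μ ≤ 2 * m₀) (e1 : δ * a ≤ 1) (e2 : δ * b ≤ 1) (e3 : δ * c ≤ 1)
    (e0 : 0 ≤ δ * c) (hmean : μ - 2 * δ * c ≤ X₁)
    (hsq : X₂ ≤ μ ^ 2 + 8 * NCr * (m₀ + δ * a) + 4 * δ * b) :
    X₂ - 2 * μ * X₁ + μ ^ 2 ≤ (16 * NCr + 12) * m₀ := by
  have g2 : 2 * μ * (μ - 2 * δ * c) ≤ 2 * μ * X₁ :=
    mul_le_mul_of_nonneg_left hmean (by positivity)
  have g3 : 8 * NCr * (m₀ + δ * a) ≤ 8 * NCr * (m₀ + m₀) :=
    mul_le_mul_of_nonneg_left (by linarith) (by positivity)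
  have g4 : μ * (δ * c) ≤ (2 * m₀) * 1 := mul_le_mul h4 e3 e0 (by linarith)
  have g6 : 2 * μ * (μ - 2 * δ * c) = 2 * μ ^ 2 - 4 * (μ * (δ * c)) := by ring
  have g7 : 8 * NCr * (m₀ + m₀) = 16 * NCr * m₀ := by ring
  have g8 : 4 * δ * b = 4 * (δ * b) := by ring
  have g9 : (16 * NCr + 12) * m₀ = 16 * NCr * m₀ + 12 * m₀ := by ring
  linarith

/-- Chebyshev's inequality in exponential form. -/
theorem xpv_cheb {Ω : Type} [Fintype Ω] [Nonempty Ω] (X : Ω → Cube n → ℝ) {μ V : ℝ}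
    (hX : ∀ ω x, 0 ≤ X ω x) (hμ : 0 < μ)
    (h : (avg fun ω => E fun x => (X ω x - μ) ^ 2) ≤ V) :
    (avg fun ω => E fun x => Real.exp (-(X ω x) / 2)) ≤ Real.exp (-μ / 4) + 4 * V / μ ^ 2 := by
  have h1 : ∀ ω x, Real.exp (-(X ω x) / 2) ≤
      Real.exp (-μ / 4) + (4 / μ ^ 2) * (X ω x - μ) ^ 2 := by
    intro ω x
    rcases le_or_gt (μ / 2) (X ω x) with hk | hk
    · have h2 : Real.exp (-(X ω x) / 2) ≤ Real.exp (-μ / 4) := Real.exp_le_exp.2 (by linarith)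
      have h3 : 0 ≤ (4 / μ ^ 2) * (X ω x - μ) ^ 2 := by positivity
      linarith
    · have h2 : Real.exp (-(X ω x) / 2) ≤ 1 := Real.exp_le_one_iff.2 (by linarith [hX ω x])
      have h3 : 0 ≤ Real.exp (-μ / 4) := (Real.exp_pos _).le
      have h5 : μ / 2 ≤ μ - X ω x := by linarith
      have h6 : (μ / 2) ^ 2 ≤ (X ω x - μ) ^ 2 := by nlinarith
      have h7 : (4 / μ ^ 2) * (μ / 2) ^ 2 ≤ (4 / μ ^ 2) * (X ω x - μ) ^ 2 :=
        mul_le_mul_of_nonneg_left h6 (by positivity)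
      have h8 : (4 / μ ^ 2) * (μ / 2) ^ 2 = 1 := by field_simp; norm_num
      linarith
  have h2 : (avg fun ω => E fun x => Real.exp (-(X ω x) / 2)) ≤
      avg fun ω => E fun x => Real.exp (-μ / 4) + (4 / μ ^ 2) * (X ω x - μ) ^ 2 :=
    avg_mono fun ω => Dnf.E_mono fun x => h1 ω x
  have h3 : (avg fun ω => E fun x => Real.exp (-μ / 4) + (4 / μ ^ 2) * (X ω x - μ) ^ 2) =
      Real.exp (-μ / 4) + (4 / μ ^ 2) * avg fun ω => E fun x => (X ω x - μ) ^ 2 := by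
    have h4 : ∀ ω, (E fun x => Real.exp (-μ / 4) + (4 / μ ^ 2) * (X ω x - μ) ^ 2) =
        Real.exp (-μ / 4) + (4 / μ ^ 2) * E fun x => (X ω x - μ) ^ 2 := by
      intro ω
      rw [Dnf.E_add, Dnf.E_const, Dnf.E_smul]
    simp only [h4]
    rw [avg_add, avg_const, avg_mul_left]
  have h4 : (4 / μ ^ 2) * (avg fun ω => E fun x => (X ω x - μ) ^ 2) ≤ (4 / μ ^ 2) * V :=
    mul_le_mul_of_nonneg_left h (by positivity)
  have h5 : (4 / μ ^ 2) * V = 4 * V / μ ^ 2 := by ring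
  linarith

/-- The quantitative form. -/
theorem pvq (r : ℕ) :
    ∃ κ C : ℝ, 0 < κ ∧ 0 < C ∧ ∀ (n W : ℕ) (M : Finset (Finset (Fin n)))
      (w : Finset (Fin n) → Finset (Fin n) → Fin n) (c : Finset (Fin n) → ℝ), Fam r W M → Kil r M w →
      (∀ m ∈ M, 0 ≤ c m) → (∀ m ∈ M, c m ≤ 1) →
      ∀ p δ : ℝ, 0 ≤ p → p ≤ 1 / 2 → 0 ≤ δ → 1 ≤ mw p c M →
        δ * ((M.card : ℝ) + 1) ^ 2 * ((W : ℝ) + 1) ^ 2 ≤ 1 →
        ∀ {Ω : Type} [Fintype Ω] [Nonempty Ω] (η : Ω → Finset (Fin n)),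
          Miss (2 * (W + r)) p δ η →
          (avg fun ω => E fun x => Real.exp (-(cw c M w (η ω) x) / 2)) ≤
            Real.exp (-(κ * mw p c M)) + C / mw p c M := by
  have hNC : 0 ≤ NC r := by unfold NC; positivity
  refine ⟨(1 / 4) ^ r / 4, 4 * (16 * NC r + 12) / ((1 / 4) ^ r) ^ 2, by positivity,
    by positivity, ?_⟩
  intro n W M w c hM hw hc hc1 p δ hp hp1 hδ hm1 hsm Ω _ _ η hη
  set b : ℝ := (1 / 4) ^ r with hb
  have hb0 : 0 < b := by positivity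
  set m₀ : ℝ := mw p c M with hm0
  set μ : ℝ := ∑ m ∈ M, c m * aw p M w m with hμ
  have h3 : b * m₀ ≤ μ := by
    rw [hm0, mw, mul_sum]
    refine sum_le_sum fun m hm => ?_
    have h := mul_le_mul_of_nonneg_left (aw_lower (w := w) hM.rd hm hp hp1) (hc m hm)
    calc b * (c m * ((1 / 2) ^ m.card * (1 - (1 - p) ^ m.card)))
        = c m * ((1 / 4) ^ r * ((1 / 2) ^ m.card * (1 - (1 - p) ^ m.card))) := by rw [hb]; ring
      _ ≤ _ := h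
  have h4 : μ ≤ 2 * m₀ := by
    rw [hm0, mw, mul_sum]
    refine sum_le_sum fun m hm => ?_
    have h := mul_le_mul_of_nonneg_left (aw_upper (M := M) (w := w) (m := m) hp hp1) (hc m hm)
    calc c m * aw p M w m ≤ c m * (2 * ((1 / 2) ^ m.card * (1 - (1 - p) ^ m.card))) := h
      _ = _ := by ring
  have hm00 : 0 < m₀ := lt_of_lt_of_le one_pos hm1
  have hμ0 : 0 < μ := lt_of_lt_of_le (by positivity) h3
  have hmean := cw_mean hM hw hc hc1 hη hδ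
  have hsq := cw_sq hM hw hc hc1 hη hδ hp hp1
  obtain ⟨e1, e2, e3⟩ := xpv_small hδ (by positivity : (0 : ℝ) ≤ M.card)
    (by positivity : (0 : ℝ) ≤ W) hsm
  have hV : (avg fun ω => E fun x => (cw c M w (η ω) x - μ) ^ 2) ≤ (16 * NC r + 12) * m₀ := by
    have g1 : ∀ ω, (E fun x => (cw c M w (η ω) x - μ) ^ 2) =
        (E fun x => (cw c M w (η ω) x) ^ 2) - 2 * μ * (E fun x => cw c M w (η ω) x) + μ ^ 2 := by
      intro ω
      have : (fun x => (cw c M w (η ω) x - μ) ^ 2) = fun x =>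
          ((cw c M w (η ω) x) ^ 2 - 2 * μ * (cw c M w (η ω) x)) + μ ^ 2 := by
        funext x; ring
      rw [this, Dnf.E_add, Dnf.E_sub, Dnf.E_smul, Dnf.E_const]
    simp only [g1]
    rw [avg_add, avg_sub, avg_mul_left, avg_const]
    generalize (avg fun ω => E fun x => cw c M w (η ω) x) = X₁ at hmean ⊢
    generalize (avg fun ω => E fun x => (cw c M w (η ω) x) ^ 2) = X₂ at hsq ⊢
    exact xpv_var hμ0.le hm1 hNC h4 e1 e2 e3 (by positivity) hmean hsq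
  have hX : ∀ ω x, 0 ≤ cw c M w (η ω) x := fun ω x =>
    sum_nonneg fun m hm => mul_nonneg (hc m hm) (Dnf.one_nonneg _)
  refine le_trans (xpv_cheb (fun ω x => cw c M w (η ω) x) hX hμ0 hV) ?_
  have g0 : Real.exp (-μ / 4) ≤ Real.exp (-(b / 4 * m₀)) := Real.exp_le_exp.2 (by linarith)
  have g1 : 4 * ((16 * NC r + 12) * m₀) / μ ^ 2 ≤
      4 * ((16 * NC r + 12) * m₀) / (b * m₀) ^ 2 :=
    div_le_div_of_nonneg_left (by positivity) (by positivity)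
      (pow_le_pow_left₀ (by positivity) h3 2)
  have g2 : 4 * ((16 * NC r + 12) * m₀) / (b * m₀) ^ 2 =
      4 * (16 * NC r + 12) / b ^ 2 / m₀ := by field_simp
  linarith

theorem pv (r : ℕ) {ε : ℝ} (hε : 0 < ε) :
    ∃ t : ℝ, 1 ≤ t ∧ ∀ (n W : ℕ) (M : Finset (Finset (Fin n)))
      (w : Finset (Fin n) → Finset (Fin n) → Fin n) (c : Finset (Fin n) → ℝ), Fam r W M → Kil r M w →
      (∀ m ∈ M, 0 ≤ c m) → (∀ m ∈ M, c m ≤ 1) →
      ∀ p δ : ℝ, 0 ≤ p → p ≤ 1 / 2 → 0 ≤ δ → t ≤ mw p c M →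
        δ * ((M.card : ℝ) + 1) ^ 2 * ((W : ℝ) + 1) ^ 2 ≤ 1 →
        ∀ {Ω : Type} [Fintype Ω] [Nonempty Ω] (η : Ω → Finset (Fin n)),
          Miss (2 * (W + r)) p δ η →
          (avg fun ω => E fun x => Real.exp (-(cw c M w (η ω) x) / 2)) ≤ ε := by
  obtain ⟨κ, C, hκ, hC, h⟩ := pvq r
  refine ⟨1 + (1 / κ + C) / ε, by have : 0 ≤ (1 / κ + C) / ε := by positivity
                                  linarith, ?_⟩
  intro n W M w c hM hw hc hc1 p δ hp hp1 hδ ht hsm Ω _ _ η hη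
  have h0 : 0 ≤ (1 / κ + C) / ε := by positivity
  have h1 : 1 ≤ mw p c M := by linarith
  refine le_trans (h n W M w c hM hw hc hc1 p δ hp hp1 hδ h1 hsm η hη) ?_
  set m₀ := mw p c M
  have hm : 0 < m₀ := by linarith
  have h2 : Real.exp (-(κ * m₀)) ≤ (1 / κ) / m₀ := by
    rw [Real.exp_neg, div_div, one_div]
    refine inv_anti₀ (by positivity) ?_
    linarith [Real.add_one_le_exp (κ * m₀)]
  have h3 : (1 / κ) / m₀ + C / m₀ ≤ ε := by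
    rw [← add_div, div_le_iff₀ hm]
    have h4 : (1 / κ + C) / ε ≤ m₀ := by linarith
    rw [div_le_iff₀ hε] at h4
    linarith
  linarith

end Pool.Agent.MP_ca1109_lc.Xg
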