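import Pool.Agent.MP_ca1109_lc.Xp.QDefs

/-!
# Weighted pivots and integer statistics: definitions

* `Kil r M w`: `w m m' ∈ m' \ m` is the killer of `m'` for `m`, whenever `m'` is not inside `m`.
* `kl`, `dom`: the killers for the pivot `i`, all relevant variables.
* `PE`, `PX`, `Pv`: `m` has a pivot; `cw c`: the total weight of these `m`.
* `Good`, `gap`, `gc`: monomials whose factor dominates the factors of the monomials inside.
* `stat w x = ∑ m, w m * x ^ m`.
-/

namespace Pool.Agent.MP_ca1109_lc.Xg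

open Finset Pool.Agent.MP_ca1109_lc.Mpg Pool.Agent.MP_ca1109_lc.Agp Pool.Agent.MP_ca1109_lc.Xp
open Pool.Agent.MP_ca1109_lc.Dnf (Cube ch one E)

variable {n : ℕ}

/-- Killers: `w m m' ∈ m' \ m` if `m'` meets `m` and is not inside `m`; every element of `m'`
is used by at most `r` monomials. -/
structure Kil (r : ℕ) (M : Finset (Finset (Fin n)))
    (w : Finset (Fin n) → Finset (Fin n) → Fin n) : Prop where
  mem : ∀ m ∈ M, ∀ m' ∈ M, ¬ m' ⊆ m → ¬ Disjoint m m' → w m m' ∈ m' \ m
  few : ∀ m' ∈ M, ∀ u : Fin n,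
    (M.filter fun m => ¬ m' ⊆ m ∧ ¬ Disjoint m m' ∧ w m m' = u).card ≤ r

/-- The killers for the monomials through `i` which are not inside `m`. -/
def kl (M : Finset (Finset (Fin n))) (w : Finset (Fin n) → Finset (Fin n) → Fin n)
    (m : Finset (Fin n)) (i : Fin n) : Finset (Fin n) :=
  (M.filter fun m' => ¬ m' ⊆ m ∧ i ∈ m').image (w m)

/-- The variables of `m` and all its killers. -/
def dom (M : Finset (Finset (Fin n))) (w : Finset (Fin n) → Finset (Fin n) → Fin n)
    (m : Finset (Fin n)) : Finset (Fin n) :=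
  m ∪ (M.filter fun m' => ¬ m' ⊆ m ∧ ¬ Disjoint m m').image (w m)

/-- `i` is the last element of `m` in `η`, and no killer for `i` is in `η`. -/
def PE (M : Finset (Finset (Fin n))) (w : Finset (Fin n) → Finset (Fin n) → Fin n)
    (m : Finset (Fin n)) (i : Fin n) (η : Finset (Fin n)) : Prop :=
  i ∈ η ∧ Disjoint η (later m i ∪ kl M w m i)

/-- The other variables of `m` are true, the killers for `i` are false. -/
def PX (M : Finset (Finset (Fin n))) (w : Finset (Fin n) → Finset (Fin n) → Fin n)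
    (m : Finset (Fin n)) (i : Fin n) (x : Cube n) : Prop :=
  Tr (m.erase i) x ∧ ∀ u ∈ kl M w m i, x u = false

/-- `m` has a pivot. -/
def Pv (M : Finset (Finset (Fin n))) (w : Finset (Fin n) → Finset (Fin n) → Fin n)
    (m : Finset (Fin n)) (η : Finset (Fin n)) (x : Cube n) : Prop :=
  ∃ i ∈ m, PE M w m i η ∧ PX M w m i x

/-- The total weight of the monomials with a pivot. -/
noncomputable def cw (c : Finset (Fin n) → ℝ) (M : Finset (Finset (Fin n)))
    (w : Finset (Fin n) → Finset (Fin n) → Fin n) (η : Finset (Fin n)) (x : Cube n) : ℝ :=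
  ∑ m ∈ M, c m * one (Pv M w m η x)

/-- The probability of `Pv` in the ideal case. -/
noncomputable def aw (p : ℝ) (M : Finset (Finset (Fin n)))
    (w : Finset (Fin n) → Finset (Fin n) → Fin n) (m : Finset (Fin n)) : ℝ :=
  ∑ i ∈ m, p * (1 - p) ^ ((later m i).card + (kl M w m i).card) *
    (1 / 2) ^ (m.card - 1 + (kl M w m i).card)

/-- The weighted mass at rate `p`. -/
noncomputable def mw (p : ℝ) (c : Finset (Fin n) → ℝ) (M : Finset (Finset (Fin n))) : ℝ :=
  ∑ m ∈ M, c m * ((1 / 2 : ℝ) ^ m.card * (1 - (1 - p) ^ m.card))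

/-- The weighted mass of the monomials which meet `η`. -/
noncomputable def hw (c : Finset (Fin n) → ℝ) (M : Finset (Finset (Fin n))) (η : Finset (Fin n)) : ℝ :=
  ∑ m ∈ M, c m * ((1 / 2 : ℝ) ^ m.card * one (¬ Disjoint m η))

/-- The weight of `m`. -/
noncomputable def gap (ζ : Finset (Fin n) → ℂ) (m : Finset (Fin n)) : ℝ := ‖1 - ζ m‖ ^ 2 / 4

/-- The factor of `m` dominates the factors of the monomials strictly inside `m`. -/
def Good (r : ℕ) (ζ : Finset (Fin n) → ℂ) (M : Finset (Finset (Fin n))) (m : Finset (Fin n)) : Prop :=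
  ∀ m' ∈ M, m' ⊂ m → 2 * (r : ℝ) * ‖1 - ζ m'‖ ≤ ‖1 - ζ m‖

open Classical in
/-- The weight of `m`, if `m` is good. -/
noncomputable def gc (r : ℕ) (ζ : Finset (Fin n) → ℂ) (M : Finset (Finset (Fin n)))
    (m : Finset (Fin n)) : ℝ := if Good r ζ M m then gap ζ m / 4 else 0

/-- The statistic with the integer weights `w`. -/
def stat (w : Finset (Fin n) → ℤ) (x : Cube n) : ℤ :=
  ∑ m : Finset (Fin n), if ∀ i ∈ m, x i = true then w m else 0

end Pool.Agent.MP_ca1109_lc.Xg
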