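import Pool.Agent.MP_ca1109_lc.Xg.Defs

/-!
# Killers and counts
-/

namespace Pool.Agent.MP_ca1109_lc.Xg

open Finset Pool.Agent.MP_ca1109_lc.Xp

variable {n : ℕ}

/-- The killers exist. -/
theorem kil_exists (hn : 0 < n) {r : ℕ} {M : Finset (Finset (Fin n))} (hM : Rd r M) :
    ∃ w, Kil r M w := by
  classical
  choose σ hσ _ using fun s : Finset (Fin n) => Finset.exists_cycleOn s
  have key : ∀ m ∈ M, ∀ m' ∈ M, ¬ m' ⊆ m → ¬ Disjoint m m' →
      ∃ u, u ∈ m ∧ u ∈ m' ∧ σ m' u ∉ m := by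
    intro m hm m' hm' hne hd
    by_contra hcon
    push Not at hcon
    obtain ⟨u, hu, hu'⟩ := Finset.not_disjoint_iff.1 hd
    have hpow : ∀ k : ℕ, (σ m' ^ k) u ∈ m ∧ (σ m' ^ k) u ∈ m' := by
      intro k
      induction k with
      | zero => exact ⟨hu, hu'⟩
      | succ k ih =>
        rw [pow_succ', Equiv.Perm.mul_apply]
        refine ⟨hcon _ ih.1 ih.2, ?_⟩
        exact Finset.mem_coe.1 ((hσ m').1.mapsTo (Finset.mem_coe.2 ih.2))
    have hsub : m' ⊆ m := by
      intro v hv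
      obtain ⟨k, -, hk⟩ := (hσ m').exists_pow_eq hu' hv
      exact hk ▸ (hpow k).1
    exact hne hsub
  refine ⟨fun m m' => if h : ∃ u, u ∈ m ∧ u ∈ m' ∧ σ m' u ∉ m then σ m' h.choose else ⟨0, hn⟩,
    ?_, ?_⟩
  · intro m hm m' hm' hne hd
    have h := key m hm m' hm' hne hd
    rw [dif_pos h]
    obtain ⟨_, h2, h3⟩ := h.choose_spec
    exact Finset.mem_sdiff.2
      ⟨Finset.mem_coe.1 ((hσ m').1.mapsTo (Finset.mem_coe.2 h2)), h3⟩
  · intro m' hm' v
    refine (Finset.card_le_card fun m hm => ?_).trans (hM ((σ m').symm v))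
    obtain ⟨hmn, hne, hd, hw⟩ := Finset.mem_filter.1 hm
    have h := key m hmn m' hm' hne hd
    rw [dif_pos h] at hw
    rw [Finset.mem_filter]
    refine ⟨hmn, ?_⟩
    rw [← hw, Equiv.symm_apply_apply]
    exact h.choose_spec.1

section counts

variable {r : ℕ} {M : Finset (Finset (Fin n))} {w : Finset (Fin n) → Finset (Fin n) → Fin n}

theorem kl_card (hM : Rd r M) {m : Finset (Fin n)} (hm : m ∈ M) {i : Fin n} (hi : i ∈ m) :
    (kl M w m i).card + 1 ≤ r := by
  have h1 : (M.filter fun m' => ¬ m' ⊆ m ∧ i ∈ m') ⊆ (M.filter fun m' => i ∈ m').erase m := by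
    intro m' hm'
    obtain ⟨h1, h2, h3⟩ := Finset.mem_filter.1 hm'
    exact Finset.mem_erase.2 ⟨fun h => h2 h.subset, Finset.mem_filter.2 ⟨h1, h3⟩⟩
  have h2 : (kl M w m i).card ≤ ((M.filter fun m' => i ∈ m').erase m).card := by
    unfold kl
    exact Finset.card_image_le.trans (Finset.card_le_card h1)
  have h3 := Finset.card_erase_add_one (Finset.mem_filter.2 ⟨hm, hi⟩ :
    m ∈ M.filter fun m' => i ∈ m')
  have h4 := hM i
  omega

theorem kl_disj (hw : Kil r M w) {m : Finset (Fin n)} (hm : m ∈ M) {i : Fin n} (hi : i ∈ m) :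
    Disjoint (kl M w m i) m := by
  rw [Finset.disjoint_left]
  intro u hu
  unfold kl at hu
  obtain ⟨m', hm', rfl⟩ := Finset.mem_image.1 hu
  obtain ⟨h1, h2, h3⟩ := Finset.mem_filter.1 hm'
  exact (Finset.mem_sdiff.1 (hw.mem m hm m' h1 h2 (Finset.not_disjoint_iff.2 ⟨i, hi, h3⟩))).2

theorem kl_dom (hw : Kil r M w) {m : Finset (Fin n)} (hm : m ∈ M) {i : Fin n} (hi : i ∈ m) :
    m ∪ kl M w m i ⊆ dom M w m := by
  unfold kl dom
  refine Finset.union_subset_union subset_rfl (Finset.image_subset_image fun m' hm' => ?_)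
  obtain ⟨h1, h2, h3⟩ := Finset.mem_filter.1 hm'
  exact Finset.mem_filter.2 ⟨h1, h2, Finset.not_disjoint_iff.2 ⟨i, hi, h3⟩⟩

theorem xkl_meet (hM : Rd r M) {m : Finset (Fin n)} (hm : m ∈ M) :
    (M.filter fun m' => ¬ m' ⊆ m ∧ ¬ Disjoint m m').card + m.card ≤ r * m.card := by
  have h1 : (M.filter fun m' => ¬ m' ⊆ m ∧ ¬ Disjoint m m') ⊆
      m.biUnion fun i => (M.filter fun m' => i ∈ m').erase m := by
    intro m' hm'
    obtain ⟨h1, h2, h3⟩ := Finset.mem_filter.1 hm'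
    obtain ⟨i, hi, hi'⟩ := Finset.not_disjoint_iff.1 h3
    exact Finset.mem_biUnion.2
      ⟨i, hi, Finset.mem_erase.2 ⟨fun h => h2 h.subset, Finset.mem_filter.2 ⟨h1, hi'⟩⟩⟩
  have h2 : (M.filter fun m' => ¬ m' ⊆ m ∧ ¬ Disjoint m m').card ≤
      ∑ i ∈ m, ((M.filter fun m' => i ∈ m').erase m).card :=
    (Finset.card_le_card h1).trans Finset.card_biUnion_le
  calc (M.filter fun m' => ¬ m' ⊆ m ∧ ¬ Disjoint m m').card + m.card
      ≤ ∑ i ∈ m, ((M.filter fun m' => i ∈ m').erase m).card + ∑ _i ∈ m, 1 := by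
        rw [Finset.sum_const, smul_eq_mul, mul_one]
        omega
    _ = ∑ i ∈ m, (((M.filter fun m' => i ∈ m').erase m).card + 1) := by
        rw [Finset.sum_add_distrib]
    _ ≤ ∑ _i ∈ m, r := by
        refine Finset.sum_le_sum fun i hi => ?_
        rw [Finset.card_erase_add_one (Finset.mem_filter.2 ⟨hm, hi⟩)]
        exact hM i
    _ = r * m.card := by rw [Finset.sum_const, smul_eq_mul, mul_comm]

theorem dom_card (hM : Rd r M) {m : Finset (Fin n)} (hm : m ∈ M) :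
    (dom M w m).card ≤ r * m.card := by
  unfold dom
  have h1 := xkl_meet hM hm
  have h2 := Finset.card_union_le m ((M.filter fun m' => ¬ m' ⊆ m ∧ ¬ Disjoint m m').image (w m))
  have h3 : ((M.filter fun m' => ¬ m' ⊆ m ∧ ¬ Disjoint m m').image (w m)).card ≤
      (M.filter fun m' => ¬ m' ⊆ m ∧ ¬ Disjoint m m').card := Finset.card_image_le
  omega

theorem dom_few (hM : Rd r M) (hw : Kil r M w) (v : Fin n) :
    (M.filter fun m => v ∈ dom M w m).card ≤ r + r ^ 2 := by
  have h3 : (M.filter fun m => v ∈ dom M w m) ⊆ (M.filter fun m => v ∈ m) ∪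
      (M.filter fun m' => v ∈ m').biUnion fun m' =>
        M.filter fun m => ¬ m' ⊆ m ∧ ¬ Disjoint m m' ∧ w m m' = v := by
    intro m hm
    obtain ⟨hmn, hv⟩ := Finset.mem_filter.1 hm
    unfold dom at hv
    rw [Finset.mem_union] at hv ⊢
    rcases hv with hv | hv
    · exact Or.inl (Finset.mem_filter.2 ⟨hmn, hv⟩)
    · obtain ⟨m', hm', h⟩ := Finset.mem_image.1 hv
      obtain ⟨h4, h5, h6⟩ := Finset.mem_filter.1 hm'
      refine Or.inr (Finset.mem_biUnion.2 ⟨m', Finset.mem_filter.2 ⟨h4, ?_⟩,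
        Finset.mem_filter.2 ⟨hmn, h5, h6, h⟩⟩)
      rw [← h]
      exact (Finset.mem_sdiff.1 (hw.mem m hmn m' h4 h5 h6)).1
  calc (M.filter fun m => v ∈ dom M w m).card
      ≤ _ := Finset.card_le_card h3
    _ ≤ (M.filter fun m => v ∈ m).card + _ := Finset.card_union_le _ _
    _ ≤ r + ∑ m' ∈ M.filter (fun m' => v ∈ m'), r := by
        refine Nat.add_le_add (hM v) (Finset.card_biUnion_le.trans ?_)
        exact Finset.sum_le_sum fun m' hm' => hw.few m' (Finset.mem_filter.1 hm').1 v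
    _ = r + (M.filter fun m' => v ∈ m').card * r := by rw [Finset.sum_const, smul_eq_mul]
    _ ≤ r + r ^ 2 := by
        rw [pow_two]
        exact Nat.add_le_add_left (Nat.mul_le_mul_right r (hM v)) r

/-- At most `2 r` monomials share at least half of the variables of `m`. -/
theorem heavy_card (hM : Rd r M) {m : Finset (Fin n)} (hm : m.Nonempty) :
    (M.filter fun m' => m.card ≤ 2 * (m ∩ m').card).card ≤ 2 * r := by
  have h1 : ∑ m' ∈ M, (m ∩ m').card ≤ m.card * r := by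
    have h2 : ∑ m' ∈ M, (m ∩ m').card = ∑ i ∈ m, (M.filter fun m' => i ∈ m').card := by
      simp_rw [Finset.card_eq_sum_ones, Finset.sum_filter, ← Finset.filter_mem_eq_inter,
        Finset.sum_filter]
      exact Finset.sum_comm
    rw [h2]
    calc ∑ i ∈ m, (M.filter fun m' => i ∈ m').card ≤ ∑ _i ∈ m, r :=
          Finset.sum_le_sum fun i _ => hM i
      _ = m.card * r := by rw [Finset.sum_const, smul_eq_mul]
  have h3 : (M.filter fun m' => m.card ≤ 2 * (m ∩ m').card).card * m.card ≤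
      2 * ∑ m' ∈ M, (m ∩ m').card := by
    calc (M.filter fun m' => m.card ≤ 2 * (m ∩ m').card).card * m.card
        = ∑ _m' ∈ M.filter (fun m' => m.card ≤ 2 * (m ∩ m').card), m.card := by
          rw [Finset.sum_const, smul_eq_mul]
      _ ≤ ∑ m' ∈ M.filter (fun m' => m.card ≤ 2 * (m ∩ m').card), 2 * (m ∩ m').card :=
          Finset.sum_le_sum fun m' hm' => (Finset.mem_filter.1 hm').2
      _ ≤ ∑ m' ∈ M, 2 * (m ∩ m').card :=
          Finset.sum_le_sum_of_subset (Finset.filter_subset _ _)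
      _ = 2 * ∑ m' ∈ M, (m ∩ m').card := by rw [Finset.mul_sum]
  have h4 : 0 < m.card := hm.card_pos
  have h5 : (M.filter fun m' => m.card ≤ 2 * (m ∩ m').card).card * m.card ≤ 2 * r * m.card := by
    calc _ ≤ 2 * ∑ m' ∈ M, (m ∩ m').card := h3
      _ ≤ 2 * (m.card * r) := Nat.mul_le_mul_left 2 h1
      _ = 2 * r * m.card := by ring
  exact Nat.le_of_mul_le_mul_right h5 h4

end counts

end Pool.Agent.MP_ca1109_lc.Xg
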