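import Pool.Agent.MP_ca1109_lc.Xg.OS
import Pool.Agent.MP_ca1109_lc.Xg.KL
import Pool.Agent.MP_ca1109_lc.Xg.GD
import Pool.Agent.MP_ca1109_lc.Xg.PV
import Pool.Agent.MP_ca1109_lc.Xg.HT

/-!
# The uniform distribution: the averages of characters of large weight are small
-/

namespace Pool.Agent.MP_ca1109_lc.Xg

open Finset Pool.Agent.H66 Pool.Agent.MP_ca1109_lc.Mpg Pool.Agent.MP_ca1109_lc.Agp
open Pool.Agent.MP_ca1109_lc.Xp
open Pool.Agent.MP_ca1109_lc.Dnf (Cube ch one E mix)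

variable {n : ℕ}

/-- A uniformly random set has density `1 / 2`. -/
theorem xsm_miss (n s : ℕ) : Miss s (1 / 2) 0 (fun η : Finset (Fin n) => η) := by
  classical
  intro A _
  have h1 : (avg fun η : Finset (Fin n) => one (Disjoint η A)) = (1 - 1 / 2) ^ A.card := by
    unfold avg
    have e1 : ∑ η : Finset (Fin n), one (Disjoint η A) = (2 : ℝ) ^ (n - A.card) := by
      have e2 : ∑ η : Finset (Fin n), one (Disjoint η A) = ∑ η ∈ (Aᶜ).powerset, (1 : ℝ) := by
        rw [← Finset.sum_filter_add_sum_filter_not univ (fun η : Finset (Fin n) => Disjoint η A)]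
        rw [Finset.sum_congr rfl fun η hη => Dnf.one_true (Finset.mem_filter.1 hη).2,
          Finset.sum_congr rfl fun η hη => Dnf.one_false (Finset.mem_filter.1 hη).2,
          Finset.sum_const_zero, add_zero]
        refine Finset.sum_congr ?_ fun _ _ => rfl
        ext η
        rw [Finset.mem_filter, Finset.mem_powerset]
        constructor
        · rintro ⟨-, h⟩ i hi
          exact Finset.mem_compl.2 (Finset.disjoint_left.1 h hi)
        · intro h
          exact ⟨Finset.mem_univ _, Finset.disjoint_left.2 fun i hi => Finset.mem_compl.1 (h hi)⟩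
      rw [e2, Finset.sum_const, Finset.card_powerset, Finset.card_compl, Fintype.card_fin, nsmul_eq_mul,
        mul_one]
      push_cast
      rfl
    have hA : A.card ≤ n := by
      have := Finset.card_le_univ A
      rwa [Fintype.card_fin] at this
    rw [e1, Fintype.card_finset, Fintype.card_fin]
    push_cast
    have h2 : (2 : ℝ) ^ n = 2 ^ (n - A.card) * 2 ^ A.card := by
      rw [← pow_add, Nat.sub_add_cancel hA]
    rw [h2]
    have h3 : (0 : ℝ) < 2 ^ (n - A.card) := by positivity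
    have h4 : (0 : ℝ) < 2 ^ A.card := by positivity
    have h5 : ((1 : ℝ) - 1 / 2) ^ A.card = 1 / 2 ^ A.card := by
      rw [show ((1 : ℝ) - 1 / 2) = 1 / 2 by norm_num, one_div_pow]
    rw [h5]
    field_simp
  rw [h1, sub_self, abs_zero]

theorem xsm_av_le (F : Cube n → ℂ) (η : Finset (Fin n)) :
    ‖av F‖ ≤ E fun z => ‖av fun x : Cube n => F (mix η x z)‖ := by
  classical
  have h1 : ∀ f : Cube n → ℝ, E (fun z => E fun x => f (mix η x z)) = E f := fun f =>
    (xos_E_comm fun z x => f (mix η x z)).trans (Dnf.E_mix η f)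
  have e1 : av F = (∑ z, av fun x : Cube n => F (mix η x z)) / 2 ^ n := by
    have hre : ∀ G : Cube n → ℂ, (av G).re = E fun x => (G x).re := by
      intro G
      rw [xos_av]
      unfold E
      have : ((2 : ℂ) ^ n) = ((2 ^ n : ℝ) : ℂ) := by push_cast; rfl
      rw [this, Complex.div_ofReal_re, Complex.re_sum]
    have him : ∀ G : Cube n → ℂ, (av G).im = E fun x => (G x).im := by
      intro G
      rw [xos_av]
      unfold E
      have : ((2 : ℂ) ^ n) = ((2 ^ n : ℝ) : ℂ) := by push_cast; rfl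
      rw [this, Complex.div_ofReal_im, Complex.im_sum]
    rw [← xos_av (fun z => av fun x : Cube n => F (mix η x z))]
    apply Complex.ext
    · rw [hre, hre]
      simp only [hre]
      exact (h1 fun x => (F x).re).symm
    · rw [him, him]
      simp only [him]
      exact (h1 fun x => (F x).im).symm
  rw [e1, norm_div]
  unfold E
  have : ‖(2 : ℂ) ^ n‖ = 2 ^ n := by simp
  rw [this]
  exact div_le_div_of_nonneg_right (norm_sum_le _ _) (by positivity)

/-- The uniform average, for every set `η`. -/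
theorem xsm_bound {r : ℕ} {M : Finset (Finset (Fin n))} {w : Finset (Fin n) → Finset (Fin n) → Fin n}
    (hM : Rd r M) (hw : Kil r M w) (h0 : ∀ m ∈ M, m ≠ ∅) {ζ : Finset (Fin n) → ℂ}
    (hζ : ∀ m ∈ M, ‖ζ m‖ = 1) :
    ‖av (pr ζ M)‖ ≤ avg fun η : Finset (Fin n) => E fun x => Real.exp (-(cw (gc r ζ M) M w η x) / 2) := by
  classical
  have h1 : ∀ η : Finset (Fin n), ‖av (pr ζ M)‖ ≤ E fun x => Real.exp (-(cw (gc r ζ M) M w η x) / 2) := by
    intro η
    refine (xsm_av_le (pr ζ M) η).trans ((Dnf.E_mono fun z => oneshot hM hw h0 hζ η z).trans (le_of_eq ?_))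
    exact (xos_E_comm fun z x => Real.exp (-(cw (gc r ζ M) M w η (mix η x z)) / 2)).trans
      (Dnf.E_mix η fun x => Real.exp (-(cw (gc r ζ M) M w η x) / 2))
  unfold avg
  rw [le_div_iff₀ (by exact_mod_cast Fintype.card_pos)]
  calc ‖av (pr ζ M)‖ * (Fintype.card (Finset (Fin n)) : ℝ) = ∑ _η : Finset (Fin n), ‖av (pr ζ M)‖ := by
        rw [Finset.sum_const, Finset.card_univ, nsmul_eq_mul, mul_comm]
    _ ≤ _ := Finset.sum_le_sum fun η _ => h1 η

/-- SM: the uniform distribution, large mass. -/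
theorem small_av (r : ℕ) {ε : ℝ} (hε : 0 < ε) : ∃ V₀ : ℝ, ∀ (n : ℕ) (M : Finset (Finset (Fin n)))
    (ζ : Finset (Fin n) → ℂ), Rd r M → (∀ m ∈ M, m ≠ ∅) → (∀ m ∈ M, ‖ζ m‖ = 1) →
      V₀ ≤ ∑ m ∈ M, ‖1 - ζ m‖ ^ 2 * (1 / 2 : ℝ) ^ m.card → ‖av (pr ζ M)‖ ≤ ε := by
  classical
  obtain ⟨t, ht, hpv⟩ := pv r hε
  refine ⟨8 * (4 * r * (2 * r) ^ (2 * r)) * t + 1, fun n M ζ hM h0 hζ hV => ?_⟩
  have hempty : M.Nonempty := by
    rw [Finset.nonempty_iff_ne_empty]
    rintro rfl
    rw [Finset.sum_empty] at hV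
    have : (0 : ℝ) ≤ 8 * (4 * r * (2 * r) ^ (2 * r)) * t := by positivity
    linarith
  obtain ⟨m0, hm0⟩ := hempty
  obtain ⟨v0, hv0⟩ := Finset.nonempty_iff_ne_empty.2 (h0 m0 hm0)
  have hn : 0 < n := v0.pos
  have hr : 1 ≤ r :=
    (Finset.card_pos.2 ⟨m0, Finset.mem_filter.2 ⟨hm0, hv0⟩⟩).trans_le (hM v0)
  obtain ⟨w, hw⟩ := kil_exists hn hM
  have hgap : ∀ m ∈ M, 0 ≤ gap ζ m := fun m _ => by unfold gap; positivity
  have h1 : ∑ m ∈ M, ‖1 - ζ m‖ ^ 2 * (1 / 2 : ℝ) ^ m.card = 4 * ∑ m ∈ M, gap ζ m * (1 / 2 : ℝ) ^ m.card := by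
    rw [Finset.mul_sum]
    refine Finset.sum_congr rfl fun m _ => ?_
    unfold gap
    ring
  have h2 := sum_le_mw h0 hgap
  have h3 := transfer hr hM h0 (ζ := ζ) (p := 1 / 2) (by norm_num) (by norm_num)
  have hr' : (1 : ℝ) ≤ r := by exact_mod_cast hr
  have hK : (0 : ℝ) < 4 * r * (2 * r) ^ (2 * r) := by positivity
  have h4 : t ≤ mw (1 / 2) (gc r ζ M) M := by
    rw [h1] at hV
    have h5 : 8 * (4 * r * (2 * r) ^ (2 * r)) * t ≤ 8 * (4 * r * (2 * r) ^ (2 * r)) * mw (1 / 2) (gc r ζ M) M := by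
      nlinarith
    exact le_of_mul_le_mul_left h5 (by positivity)
  have hFam : Fam r n M := ⟨h0, hM, fun m _ => by
    have := Finset.card_le_univ m
    rwa [Fintype.card_fin] at this⟩
  refine (xsm_bound hM hw h0 hζ).trans ?_
  exact hpv n n M w (gc r ζ M) hFam hw (fun m _ => gc_nonneg) (fun m hm => gc_le (hζ m hm)) (1 / 2) 0
    (by norm_num) le_rfl le_rfl h4 (by simp) (fun η : Finset (Fin n) => η) (xsm_miss n _)

end Pool.Agent.MP_ca1109_lc.Xg
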