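import Pool.Agent.MP_ca1109_lc.Xg.TH
import Pool.Agent.MP_ca1109_lc.Xg.MA
import Pool.Agent.MP_ca1109_lc.Xg.SM

/-!
# Boolean functions of gates over monomials of bounded read: the theorem
-/

namespace Pool.Agent.MP_ca1109_lc.Xg

open Pool.Agent.MP_ca1109_lc.Mpg

theorem final (r B k : ℕ) {ε : ℝ} (hε : 0 < ε) : LogGen (D2Test r B k) ε :=
  d2_final r B k hε (fun r _ h => gx_all r h) (fun r _ h => small_av r h)

end Pool.Agent.MP_ca1109_lc.Xg
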