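import Pool.Agent.MP_ca1109_lc.Xg.KL

/-!
# The near pairs
-/

namespace Pool.Agent.MP_ca1109_lc.Xg

open Finset Pool.Agent.MP_ca1109_lc.Xp

variable {n : ℕ} {r : ℕ} {M : Finset (Finset (Fin n))} {w : Finset (Fin n) → Finset (Fin n) → Fin n}

private theorem xns_two {j : ℕ} (hj : 1 ≤ j) : 2 * j ≤ 2 ^ j := by
  obtain ⟨k, rfl⟩ : ∃ k, j = k + 1 := ⟨j - 1, by omega⟩
  clear hj
  induction k with
  | zero => norm_num
  | succ k ih =>
    rw [pow_succ]
    have : 1 ≤ 2 ^ (k + 1) := Nat.one_le_two_pow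
    omega

private theorem xns_inter (hr : Rd r M) (m : Finset (Fin n)) :
    ∑ m' ∈ M, (m ∩ m').card ≤ r * m.card := by
  classical
  have h1 : ∑ m' ∈ M, (m ∩ m').card = ∑ i ∈ m, (M.filter fun m' => i ∈ m').card := by
    simp_rw [Finset.card_eq_sum_ones, Finset.sum_filter, ← Finset.filter_mem_eq_inter,
      Finset.sum_filter]
    exact Finset.sum_comm
  rw [h1]
  calc ∑ i ∈ m, (M.filter fun m' => i ∈ m').card ≤ ∑ _i ∈ m, r := Finset.sum_le_sum fun i _ => hr i
    _ = r * m.card := by rw [Finset.sum_const, smul_eq_mul, mul_comm]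

private theorem xns_card (hM : Rd r M) (hw : Kil r M w) {m : Finset (Fin n)} (hm : m ∈ M) :
    (M.filter fun m' => ¬ Disjoint (dom M w m) (dom M w m')).card ≤ r * m.card * (r + r ^ 2) := by
  classical
  have h1 : (M.filter fun m' => ¬ Disjoint (dom M w m) (dom M w m')) ⊆
      (dom M w m).biUnion fun v => M.filter fun m' => v ∈ dom M w m' := by
    intro m' hm'
    rw [Finset.mem_filter, Finset.not_disjoint_iff] at hm'
    obtain ⟨h2, v, hv, hv'⟩ := hm'
    exact Finset.mem_biUnion.2 ⟨v, hv, Finset.mem_filter.2 ⟨h2, hv'⟩⟩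
  calc (M.filter fun m' => ¬ Disjoint (dom M w m) (dom M w m')).card ≤
        ((dom M w m).biUnion fun v => M.filter fun m' => v ∈ dom M w m').card :=
        Finset.card_le_card h1
    _ ≤ ∑ v ∈ dom M w m, (M.filter fun m' => v ∈ dom M w m').card := Finset.card_biUnion_le
    _ ≤ ∑ _v ∈ dom M w m, (r + r ^ 2) := Finset.sum_le_sum fun v _ => dom_few hM hw v
    _ = (dom M w m).card * (r + r ^ 2) := by rw [Finset.sum_const, smul_eq_mul]
    _ ≤ r * m.card * (r + r ^ 2) := Nat.mul_le_mul_right _ (dom_card hM hm)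

theorem near_sum (hM : Rd r M) (hw : Kil r M w) {m : Finset (Fin n)} (hm : m ∈ M)
    (hm0 : m.Nonempty) :
    ∑ m' ∈ M.filter (fun m' => m.card ≤ m'.card ∧ ¬ Disjoint (dom M w m) (dom M w m')),
      (1 / 2 : ℝ) ^ (m' \ m).card ≤ NC r := by
  classical
  obtain ⟨Nr, hNr⟩ : ∃ Nr, Nr = M.filter
      (fun m' => m.card ≤ m'.card ∧ ¬ Disjoint (dom M w m) (dom M w m')) := ⟨_, rfl⟩
  rw [← hNr]
  have hm1 : 1 ≤ m.card := Finset.card_pos.2 hm0
  have hA : ∑ m' ∈ Nr.filter (fun m' => m.card < 2 * (m ∩ m').card), (1 / 2 : ℝ) ^ (m' \ m).card ≤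
      2 * r := by
    obtain ⟨B, hB⟩ : ∃ B, B = Nr.filter fun m' => m.card < 2 * (m ∩ m').card := ⟨_, rfl⟩
    rw [← hB]
    have h1 : B.card * m.card ≤ 2 * (r * m.card) := by
      calc B.card * m.card = ∑ _m' ∈ B, m.card := by rw [Finset.sum_const, smul_eq_mul]
        _ ≤ ∑ m' ∈ B, 2 * (m ∩ m').card := Finset.sum_le_sum fun m' hm' => by
            rw [hB] at hm'
            exact (Finset.mem_filter.1 hm').2.le
        _ = 2 * ∑ m' ∈ B, (m ∩ m').card := by rw [Finset.mul_sum]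
        _ ≤ 2 * ∑ m' ∈ M, (m ∩ m').card := by
            refine Nat.mul_le_mul_left 2 (Finset.sum_le_sum_of_subset fun m' hm' => ?_)
            rw [hB, hNr] at hm'
            exact (Finset.mem_filter.1 (Finset.mem_filter.1 hm').1).1
        _ ≤ 2 * (r * m.card) := Nat.mul_le_mul_left 2 (xns_inter hM m)
    have h2 : B.card ≤ 2 * r := by
      refine Nat.le_of_mul_le_mul_right (c := m.card) ?_ hm1
      calc B.card * m.card ≤ 2 * (r * m.card) := h1
        _ = 2 * r * m.card := by ring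
    calc ∑ m' ∈ B, (1 / 2 : ℝ) ^ (m' \ m).card ≤ ∑ _m' ∈ B, (1 : ℝ) :=
          Finset.sum_le_sum fun m' _ => pow_le_one₀ (by norm_num) (by norm_num)
      _ = B.card := by rw [Finset.sum_const, nsmul_eq_mul, mul_one]
      _ ≤ 2 * r := by exact_mod_cast h2
  have hO : ∑ m' ∈ Nr.filter (fun m' => ¬ m.card < 2 * (m ∩ m').card),
      (1 / 2 : ℝ) ^ (m' \ m).card ≤ r * (r + r ^ 2) := by
    obtain ⟨O, hO⟩ : ∃ O, O = Nr.filter fun m' => ¬ m.card < 2 * (m ∩ m').card := ⟨_, rfl⟩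
    rw [← hO]
    obtain ⟨j, hj, hj2⟩ : ∃ j, m.card ≤ 2 * j ∧ 2 * j ≤ m.card + 1 :=
      ⟨(m.card + 1) / 2, by omega, by omega⟩
    have hj1 : 1 ≤ j := by omega
    have h1 : ∀ m' ∈ O, (1 / 2 : ℝ) ^ (m' \ m).card ≤ (1 / 2) ^ j := by
      intro m' hm'
      rw [hO, Finset.mem_filter, hNr, Finset.mem_filter] at hm'
      refine pow_le_pow_of_le_one (by norm_num) (by norm_num) ?_
      have h2 := Finset.card_sdiff_add_card_inter m' m
      rw [Finset.inter_comm m' m] at h2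
      omega
    have h2 : O.card ≤ r * m.card * (r + r ^ 2) := by
      refine (Finset.card_le_card fun m' hm' => ?_).trans (xns_card hM hw hm)
      rw [hO, hNr] at hm'
      have h3 := Finset.mem_filter.1 (Finset.mem_filter.1 hm').1
      exact Finset.mem_filter.2 ⟨h3.1, h3.2.2⟩
    have h3 : (m.card : ℝ) * (1 / 2) ^ j ≤ 1 := by
      have h4 : (m.card : ℝ) ≤ 2 ^ j := by
        have := xns_two hj1
        exact_mod_cast hj.trans this
      rw [one_div, inv_pow, ← div_eq_mul_inv, div_le_one (by positivity)]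
      exact h4
    calc ∑ m' ∈ O, (1 / 2 : ℝ) ^ (m' \ m).card ≤ ∑ _m' ∈ O, (1 / 2 : ℝ) ^ j :=
          Finset.sum_le_sum h1
      _ = O.card * (1 / 2) ^ j := by rw [Finset.sum_const, nsmul_eq_mul]
      _ ≤ ((r * m.card * (r + r ^ 2) : ℕ) : ℝ) * (1 / 2) ^ j :=
          mul_le_mul_of_nonneg_right (by exact_mod_cast h2) (by positivity)
      _ = r * (r + r ^ 2) * (m.card * (1 / 2) ^ j) := by push_cast; ring
      _ ≤ r * (r + r ^ 2) * 1 := mul_le_mul_of_nonneg_left h3 (by positivity)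
      _ = r * (r + r ^ 2) := mul_one _
  have hsum := Finset.sum_filter_add_sum_filter_not Nr (fun m' => m.card < 2 * (m ∩ m').card)
    (fun m' => (1 / 2 : ℝ) ^ (m' \ m).card)
  rw [← hsum]
  unfold NC
  have hr0 : (0 : ℝ) ≤ r := Nat.cast_nonneg r
  nlinarith [mul_nonneg hr0 hr0, mul_nonneg (mul_nonneg hr0 hr0) hr0]

end Pool.Agent.MP_ca1109_lc.Xg
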