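import Pool.Agent.MP_ca1109_lc.Xg.Defs
import Pool.Agent.MP_ca1109_lc.Dnf.B3

/-!
# The average over the bits in `η` and the pivots
-/

namespace Pool.Agent.MP_ca1109_lc.Xg

open Finset Pool.Agent.MP_ca1109_lc.Mpg Pool.Agent.MP_ca1109_lc.Agp Pool.Agent.MP_ca1109_lc.Xp
open Pool.Agent.MP_ca1109_lc.Dnf (Cube ch one E mix)

variable {n : ℕ}


/-- The bit `v` is set to `b`. -/
abbrev xos_upd (z : Cube n) (v : Fin n) (b : Bool) : Cube n := Function.update z v b

theorem xos_upd_ne {z : Cube n} {v u : Fin n} {b : Bool} (h : u ≠ v) : xos_upd z v b u = z u :=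
  Function.update_of_ne h _ _

theorem xos_upd_self (z : Cube n) (v : Fin n) (b : Bool) : xos_upd z v b v = b := Function.update_self _ _ _

/-- The average over the bits in the list. -/
noncomputable def xos_avg {K : Type*} [Field K] : List (Fin n) → (Cube n → K) → Cube n → K
  | [], G, z => G z
  | v :: l, G, z => (xos_avg l G (xos_upd z v false) + xos_avg l G (xos_upd z v true)) / 2

theorem xos_avg_congr {K : Type*} [Field K] (l : List (Fin n)) {G G' : Cube n → K} :
    ∀ z : Cube n, (∀ y, (∀ u, u ∉ l → y u = z u) → G y = G' y) → xos_avg l G z = xos_avg l G' z := by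
  induction l with
  | nil => intro z h; exact h z fun _ _ => rfl
  | cons v l ih =>
      intro z h
      unfold xos_avg
      have key : ∀ b, xos_avg l G (xos_upd z v b) = xos_avg l G' (xos_upd z v b) := by
        intro b
        refine ih _ fun y hy => h y fun u hu => ?_
        rw [List.mem_cons, not_or] at hu
        rw [hy u hu.2, xos_upd_ne hu.1]
      rw [key, key]

theorem xos_avg_mul {K : Type*} [Field K] (a : K) (l : List (Fin n)) (G : Cube n → K) :
    ∀ z, xos_avg l (fun y => a * G y) z = a * xos_avg l G z := by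
  induction l with
  | nil => intro z; rfl
  | cons v l ih =>
      intro z
      unfold xos_avg
      rw [ih, ih]
      ring

/-- The sum over the cube, one bit split off. -/
theorem xos_sum_split {K : Type*} [Field K] [CharZero K] (v : Fin n) (G : Cube n → K) :
    ∑ z, (G (xos_upd z v false) + G (xos_upd z v true)) = 2 * ∑ z, G z := by
  classical
  have h1 : ∀ z : Cube n, G (xos_upd z v false) + G (xos_upd z v true) =
      G z + G (xos_upd z v (!(z v))) := by
    intro z
    cases hz : z v with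
    | false =>
        have : xos_upd z v false = z := by rw [← hz]; exact Function.update_eq_self v z
        rw [this]; rfl
    | true =>
        have : xos_upd z v true = z := by rw [← hz]; exact Function.update_eq_self v z
        rw [this]
        rw [add_comm]; rfl
  have h2 : ∑ z : Cube n, G (xos_upd z v (!(z v))) = ∑ z, G z := by
    refine Finset.sum_bij' (fun z _ => xos_upd z v (!(z v))) (fun z _ => xos_upd z v (!(z v)))
      (fun _ _ => Finset.mem_univ _) (fun _ _ => Finset.mem_univ _) ?_ ?_ (fun _ _ => rfl)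
    · intro z _
      funext u
      by_cases hu : u = v
      · subst hu; simp
      · simp [hu]
    · intro z _
      funext u
      by_cases hu : u = v
      · subst hu; simp
      · simp [hu]
  rw [Finset.sum_congr rfl fun z _ => h1 z, Finset.sum_add_distrib, h2]
  ring

theorem xos_sum_avg {K : Type*} [Field K] [CharZero K] (l : List (Fin n)) (G : Cube n → K) :
    ∑ z, xos_avg l G z = ∑ z, G z := by
  induction l with
  | nil => rfl
  | cons v l ih =>
      have h1 : ∀ z, xos_avg (v :: l) G z = (xos_avg l G (xos_upd z v false) + xos_avg l G (xos_upd z v true)) / 2 :=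
        fun z => rfl
      rw [Finset.sum_congr rfl fun z _ => h1 z, ← Finset.sum_div, xos_sum_split v (xos_avg l G), ih]
      field_simp

/-- The average over all bits. -/
theorem xos_avg_all {K : Type*} [Field K] [CharZero K] (l : List (Fin n)) (hl : ∀ v, v ∈ l) (G : Cube n → K)
    (z : Cube n) : xos_avg l G z = (∑ y, G y) / 2 ^ n := by
  classical
  have h1 : ∀ y : Cube n, xos_avg l G y = xos_avg l G z := by
    have : ∀ (l : List (Fin n)) (y z : Cube n), (∀ u, u ∉ l → y u = z u) → xos_avg l G y = xos_avg l G z := by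
      intro l
      induction l with
      | nil => intro y z h; have : y = z := funext fun u => h u (by simp)
               rw [this]
      | cons v l ih =>
          intro y z h
          have key : ∀ b, xos_avg l G (xos_upd y v b) = xos_avg l G (xos_upd z v b) := by
            intro b
            refine ih _ _ fun u hu => ?_
            by_cases hv : u = v
            · subst hv; simp
            · rw [xos_upd_ne hv, xos_upd_ne hv]
              exact h u (by simp [hv, hu])
          unfold xos_avg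
          rw [key, key]
    intro y
    exact this l y z fun u hu => absurd (hl u) hu
  have h2 := xos_sum_avg l G
  rw [Finset.sum_congr rfl fun y _ => h1 y, Finset.sum_const, Finset.card_univ] at h2
  have h3 : Fintype.card (Cube n) = 2 ^ n := by simp
  rw [h3, nsmul_eq_mul] at h2
  push_cast at h2
  rw [← h2]
  field_simp

/-- The bound, bit by bit: at the bit `v` the factor `ρ v z`. -/
noncomputable def xos_bnd (ρ : Fin n → Cube n → ℝ) : List (Fin n) → Cube n → ℝ
  | [], _ => 1
  | v :: l, z => ρ v z * ((xos_bnd ρ l (xos_upd z v false) + xos_bnd ρ l (xos_upd z v true)) / 2)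

theorem xos_bnd_eq (ρ : Fin n → Cube n → ℝ) (l : List (Fin n)) (hl : l.Nodup)
    (hdep : l.Pairwise fun v w => ∀ z b, ρ v (xos_upd z w b) = ρ v z)
    (hself : ∀ v z b, ρ v (xos_upd z v b) = ρ v z) :
    ∀ z, xos_bnd ρ l z = xos_avg l (fun y => (l.map fun v => ρ v y).prod) z := by
  induction l with
  | nil => intro z; rfl
  | cons v l ih =>
      intro z
      rw [List.pairwise_cons] at hdep
      rw [List.nodup_cons] at hl
      have hkey : ∀ y : Cube n, (∀ u, u ∉ v :: l → y u = z u) → ρ v y = ρ v z := by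
        have : ∀ (l' : List (Fin n)), (∀ w ∈ l', ∀ z b, ρ v (xos_upd z w b) = ρ v z) →
            ∀ y z : Cube n, (∀ u, u ∉ l' → y u = z u) → ρ v y = ρ v z := by
          intro l'
          induction l' with
          | nil => intro _ y z h; have : y = z := funext fun u => h u (by simp)
                   rw [this]
          | cons w l' ih' =>
              intro hw y z h
              have h1 := ih' (fun w' hw' => hw w' (List.mem_cons_of_mem _ hw')) (xos_upd y w (z w)) z (by
                intro u hu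
                by_cases huw : u = w
                · subst huw; simp
                · rw [xos_upd_ne huw]
                  exact h u (by simp [huw, hu]))
              exact (hw w (by simp) y (z w)).symm.trans h1
        intro y hy
        refine this (v :: l) ?_ y z hy
        intro w hw
        rcases List.mem_cons.1 hw with rfl | hw
        · exact hself w
        · exact hdep.1 w hw
      have h2 : ∀ b, xos_bnd ρ l (xos_upd z v b) =
          xos_avg l (fun y => (l.map fun v => ρ v y).prod) (xos_upd z v b) :=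
        fun b => ih hl.2 hdep.2 _
      unfold xos_bnd xos_avg
      rw [h2, h2]
      have h3 : ∀ b, xos_avg l (fun y => ((v :: l).map fun v => ρ v y).prod) (xos_upd z v b) =
          ρ v z * xos_avg l (fun y => (l.map fun v => ρ v y).prod) (xos_upd z v b) := by
        intro b
        rw [← xos_avg_mul]
        refine xos_avg_congr l _ fun y hy => ?_
        rw [List.map_cons, List.prod_cons]
        have h4 : ρ v y = ρ v z := by
          refine hkey y fun u hu => ?_
          rw [List.mem_cons, not_or] at hu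
          rw [hy u hu.2, xos_upd_ne hu.1]
        rw [h4]
      rw [h3, h3]
      ring

/-- At the bit `v` the function changes by a factor `ζ` with `|1 + ζ| ≤ 2 ρ`, or `ρ = 1`. -/
theorem xos_avg_le (G : Cube n → ℂ) (ρ : Fin n → Cube n → ℝ) (hG : ∀ z, ‖G z‖ ≤ 1)
    (l : List (Fin n)) (hl : l.Nodup)
    (hf : ∀ (v : Fin n) (l' : List (Fin n)), (v :: l') <:+ l → ∀ z, ρ v z = 1 ∨ ∃ ζ : ℂ, ‖ζ‖ = 1 ∧
      ‖1 + ζ‖ / 2 ≤ ρ v z ∧ ∀ y, (∀ u, u ∉ v :: l' → y u = z u) →
        G (xos_upd y v true) = ζ * G (xos_upd y v false)) :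
    ∀ z, ‖xos_avg l G z‖ ≤ xos_bnd ρ l z := by
  induction l with
  | nil => intro z; exact hG z
  | cons v l ih =>
      intro z
      rw [List.nodup_cons] at hl
      have ih' := ih hl.2 (fun v' l' h' => hf v' l' (h'.trans (List.suffix_cons v l)))
      have hmul : ∀ (l' : List (Fin n)) (ζ : ℂ), v ∉ l' → ∀ z : Cube n,
          (∀ y, (∀ u, u ∉ v :: l' → y u = z u) → G (xos_upd y v true) = ζ * G (xos_upd y v false)) →
          xos_avg l' G (xos_upd z v true) = ζ * xos_avg l' G (xos_upd z v false) := by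
        intro l' ζ
        induction l' with
        | nil =>
            intro _ z h
            exact h z fun _ _ => rfl
        | cons w l' ih2 =>
            intro hv z h
            rw [List.mem_cons, not_or] at hv
            have key : ∀ b b', xos_upd (xos_upd z v b) w b' = xos_upd (xos_upd z w b') v b := by
              intro b b'
              exact Function.update_comm (Ne.symm hv.1) _ _ _ |>.symm
            have h3 : ∀ b', xos_avg l' G (xos_upd (xos_upd z w b') v true) = ζ * xos_avg l' G (xos_upd (xos_upd z w b') v false) := by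
              intro b'
              refine ih2 hv.2 _ fun y hy => h y fun u hu => ?_
              rw [List.mem_cons, not_or, List.mem_cons, not_or] at hu
              rw [hy u (by simp [hu.1, hu.2.2]), xos_upd_ne hu.2.1]
            unfold xos_avg
            rw [key, key, key, key, h3, h3]
            ring
      have h7 := ih' (xos_upd z v false)
      have h8 := ih' (xos_upd z v true)
      have h9 : ‖(2 : ℂ)‖ = 2 := by simp
      unfold xos_avg xos_bnd
      rcases hf v l (List.suffix_refl _) z with hc | ⟨ζ, hζ, hζ2, hy⟩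
      · rw [hc, one_mul, norm_div, h9]
        have := norm_add_le (xos_avg l G (xos_upd z v false)) (xos_avg l G (xos_upd z v true))
        linarith
      · have h4 := hmul l ζ hl.1 z hy
        rw [h4]
        have h5 : xos_avg l G (xos_upd z v false) + ζ * xos_avg l G (xos_upd z v false) =
            (1 + ζ) * xos_avg l G (xos_upd z v false) := by ring
        rw [h5, norm_div, norm_mul, h9]
        have h6 : ‖xos_avg l G (xos_upd z v true)‖ = ‖xos_avg l G (xos_upd z v false)‖ := by
          rw [h4, norm_mul, hζ, one_mul]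
        rw [h6] at h8
        have hρ : 0 ≤ ρ v z := le_trans (by positivity) hζ2
        calc ‖1 + ζ‖ * ‖xos_avg l G (xos_upd z v false)‖ / 2 = ‖1 + ζ‖ / 2 * ‖xos_avg l G (xos_upd z v false)‖ := by ring
          _ ≤ ρ v z * ‖xos_avg l G (xos_upd z v false)‖ := mul_le_mul_of_nonneg_right hζ2 (norm_nonneg _)
          _ ≤ ρ v z * ((xos_bnd ρ l (xos_upd z v false) + xos_bnd ρ l (xos_upd z v true)) / 2) := by
              refine mul_le_mul_of_nonneg_left ?_ hρ
              linarith

/-- The exposure of the bits in the order of decreasing labels. -/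
theorem xos_expose (G : Cube n → ℂ) (ρ : Fin n → Cube n → ℝ) (hG : ∀ z, ‖G z‖ ≤ 1) (lab : Fin n → ℕ)
    (hdep : ∀ v z z', (∀ u, lab v < lab u → z u = z' u) → ρ v z = ρ v z')
    (hfac : ∀ v z, ρ v z = 1 ∨ ∃ ζ : ℂ, ‖ζ‖ = 1 ∧ ‖1 + ζ‖ / 2 ≤ ρ v z ∧
      ∀ z', (∀ u, lab v < lab u → z' u = z u) → G (xos_upd z' v true) = ζ * G (xos_upd z' v false)) :
    ‖(∑ z, G z) / 2 ^ n‖ ≤ E fun z => ∏ v, ρ v z := by
  classical
  set r : Fin n → Fin n → Prop := fun a b => lab b ≤ lab a with hr
  have : DecidableRel r := fun a b => inferInstance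
  have : IsTrans (Fin n) r := ⟨fun a b c h1 h2 => le_trans h2 h1⟩
  have htot : Std.Total r := ⟨fun a b => le_total _ _⟩
  set l : List (Fin n) := (List.finRange n).insertionSort r with hl
  have hperm : l.Perm (List.finRange n) := List.perm_insertionSort r _
  have hmem : ∀ v, v ∈ l := fun v => hperm.mem_iff.2 (List.mem_finRange v)
  have hnd : l.Nodup := hperm.nodup_iff.2 (List.nodup_finRange n)
  have hsort : l.Pairwise r := List.pairwise_insertionSort r _
  have h1 : ∀ z, ‖xos_avg l G z‖ ≤ xos_bnd ρ l z := by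
    refine xos_avg_le G ρ hG l hnd ?_
    intro v l' hs z
    rcases hfac v z with hz | ⟨ζ, a1, a2, a3⟩
    · exact Or.inl hz
    refine Or.inr ⟨ζ, a1, a2, fun y hy => a3 y fun u hu => hy u ?_⟩
    intro hmem'
    have hs' : (v :: l').Pairwise r := hsort.sublist hs.sublist
    rcases List.mem_cons.1 hmem' with h | h
    · subst h; omega
    · have := (List.pairwise_cons.1 hs').1 u h
      simp only [hr] at this
      omega
  have hself : ∀ v z b, ρ v (xos_upd z v b) = ρ v z := by
    intro v z b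
    refine hdep v _ _ fun u hu => ?_
    exact Function.update_of_ne (by rintro rfl; omega) _ _
  have h2 : ∀ z, xos_bnd ρ l z = xos_avg l (fun y => (l.map fun v => ρ v y).prod) z := by
    refine xos_bnd_eq ρ l hnd ?_ hself
    refine hsort.imp fun {a b} hab z c => ?_
    refine hdep a _ _ fun u hu => ?_
    simp only [hr] at hab
    exact Function.update_of_ne (by rintro rfl; omega) _ _
  have h3 : ∀ y, (l.map fun v => ρ v y).prod = ∏ v, ρ v y := by
    intro y
    have e1 : (l.map fun v => ρ v y).prod = ∏ v ∈ l.toFinset, ρ v y :=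
      (List.prod_toFinset _ hnd).symm
    have e2 : l.toFinset = univ := by
      ext v; simp [hmem v]
    rw [e1, e2]
  have h4 := h1 (fun _ => false)
  rw [h2, xos_avg_all l hmem, xos_avg_all l hmem] at h4
  refine h4.trans (le_of_eq ?_)
  unfold E
  rw [Finset.sum_congr rfl fun y _ => h3 y]

/-! ## Pivots -/

/-- The bit `v` in `η` is a pivot at `x`, with the monomial `m`: it is the last bit of `m` in `η`,
the other bits of `m` are true, and every monomial which contains `v` and is alive, that is, has all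
its bits outside `η` true, is inside `m`. -/
def xos_Piv (M : Finset (Finset (Fin n))) (η : Finset (Fin n)) (m : Finset (Fin n)) (v : Fin n)
    (x : Cube n) : Prop :=
  v ∈ η ∧ m ∈ M ∧ v ∈ m ∧ Tr (m.erase v) x ∧ (∀ i ∈ m, i ∈ η → i ≤ v) ∧
    ∀ m' ∈ M, v ∈ m' → Tr (m' \ η) x → m' ⊆ m

/-- The factor. -/
def xos_Z (ζ : Finset (Fin n) → ℂ) (M : Finset (Finset (Fin n))) (m : Finset (Fin n)) (v : Fin n) : ℂ :=
  ∏ m' ∈ M.filter (fun m' => v ∈ m' ∧ m' ⊆ m), ζ m'

theorem xos_norm_pr {ζ : Finset (Fin n) → ℂ} {M : Finset (Finset (Fin n))} (hζ : ∀ m ∈ M, ‖ζ m‖ = 1)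
    (x : Cube n) : ‖pr ζ M x‖ = 1 := by
  classical
  unfold pr
  rw [norm_prod]
  refine Finset.prod_eq_one fun m hm => ?_
  split_ifs
  · exact hζ m hm
  · exact norm_one

theorem xos_mix_upd {η : Finset (Fin n)} {v : Fin n} (hv : v ∈ η) (x z : Cube n) (b : Bool) :
    mix η (xos_upd x v b) z = xos_upd (mix η x z) v b := by
  classical
  funext i
  unfold Dnf.mix
  by_cases hi : i = v
  · subst hi
    rw [if_pos hv, xos_upd_self, xos_upd_self]
  · rw [xos_upd_ne hi, xos_upd_ne hi]

theorem xos_tr_congr {S : Finset (Fin n)} {x y : Cube n} (h : ∀ i ∈ S, x i = y i) : Tr S x ↔ Tr S y :=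
  ⟨fun hx i hi => (h i hi).symm.trans (hx i hi), fun hy i hi => (h i hi).trans (hy i hi)⟩

/-- The dependence on a pivot. -/
theorem xos_pr_pivot {ζ : Finset (Fin n) → ℂ} {M : Finset (Finset (Fin n))} {η m : Finset (Fin n)}
    {v : Fin n} {x : Cube n} (h : xos_Piv M η m v x) :
    pr ζ M (xos_upd x v true) = xos_Z ζ M m v * pr ζ M (xos_upd x v false) := by
  classical
  obtain ⟨hv, hm, hvm, ht, -, hal⟩ := h
  unfold pr xos_Z
  rw [Finset.prod_filter, ← Finset.prod_mul_distrib]
  refine Finset.prod_congr rfl fun m' hm' => ?_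
  by_cases hvm' : v ∈ m'
  · have h2 : ¬ Tr m' (xos_upd x v false) := by
      intro h
      have := h v hvm'
      rw [xos_upd_self] at this
      exact Bool.false_ne_true this
    rw [if_neg h2, mul_one]
    by_cases hsub : m' ⊆ m
    · have h1 : Tr m' (xos_upd x v true) := by
        intro i hi
        by_cases hiv : i = v
        · subst hiv; exact xos_upd_self _ _ _
        · rw [xos_upd_ne hiv]; exact ht i (Finset.mem_erase.2 ⟨hiv, hsub hi⟩)
      rw [if_pos h1, if_pos ⟨hvm', hsub⟩]
    · have h3 : ¬ Tr m' (xos_upd x v true) := by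
        intro h
        refine hsub (hal m' hm' hvm' fun i hi => ?_)
        obtain ⟨hi1, hi2⟩ := Finset.mem_sdiff.1 hi
        have hiv : i ≠ v := fun e => hi2 (e ▸ hv)
        have := h i hi1
        rwa [xos_upd_ne hiv] at this
      rw [if_neg h3, if_neg fun h => hsub h.2]
  · rw [if_neg (fun h : v ∈ m' ∧ m' ⊆ m => hvm' h.1), one_mul]
    refine if_congr (xos_tr_congr fun i hi => ?_) rfl rfl
    have hiv : i ≠ v := fun e => hvm' (e ▸ hi)
    rw [xos_upd_ne hiv, xos_upd_ne hiv]

theorem xos_unique {M : Finset (Finset (Fin n))} {η m m2 : Finset (Fin n)} {v : Fin n} {x : Cube n}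
    (h : xos_Piv M η m v x) (h2 : xos_Piv M η m2 v x) : m = m2 := by
  have key : ∀ {a b : Finset (Fin n)}, xos_Piv M η a v x → xos_Piv M η b v x → b ⊆ a := by
    intro a b ha hb
    refine ha.2.2.2.2.2 b hb.2.1 hb.2.2.1 fun j hj => ?_
    obtain ⟨hj1, hj2⟩ := Finset.mem_sdiff.1 hj
    refine hb.2.2.2.1 j (Finset.mem_erase.2 ⟨?_, hj1⟩)
    rintro rfl
    exact hj2 ha.1
  exact Finset.Subset.antisymm (key h2 h) (key h h2)

theorem xos_prod_sub {ι : Type*} (s : Finset ι) (a : ι → ℂ) (ha : ∀ i ∈ s, ‖a i‖ = 1) :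
    ‖1 - ∏ i ∈ s, a i‖ ≤ ∑ i ∈ s, ‖1 - a i‖ := by
  classical
  induction s using Finset.induction_on with
  | empty => simp
  | insert i s hi ih =>
      rw [Finset.prod_insert hi, Finset.sum_insert hi]
      have h1 : 1 - a i * ∏ j ∈ s, a j = (1 - a i) + a i * (1 - ∏ j ∈ s, a j) := by ring
      rw [h1]
      refine (norm_add_le _ _).trans ?_
      rw [norm_mul, ha i (Finset.mem_insert_self _ _), one_mul]
      have := ih fun j hj => ha j (Finset.mem_insert_of_mem hj)
      linarith

theorem xos_norm_Z {ζ : Finset (Fin n) → ℂ} {M : Finset (Finset (Fin n))} (hζ : ∀ m ∈ M, ‖ζ m‖ = 1)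
    (m : Finset (Fin n)) (v : Fin n) : ‖xos_Z ζ M m v‖ = 1 := by
  unfold xos_Z
  rw [norm_prod]
  exact Finset.prod_eq_one fun m' hm' => hζ m' (Finset.mem_filter.1 hm').1

/-- At a good monomial the factor is far from `1`. -/
theorem xos_Z_far {r : ℕ} {ζ : Finset (Fin n) → ℂ} {M : Finset (Finset (Fin n))} (hM : Rd r M)
    (hζ : ∀ m ∈ M, ‖ζ m‖ = 1) {m : Finset (Fin n)} {v : Fin n} (hm : m ∈ M) (hv : v ∈ m)
    (hg : Good r ζ M m) : ‖1 - ζ m‖ / 2 ≤ ‖1 - xos_Z ζ M m v‖ := by
  classical
  set F := M.filter (fun m' => v ∈ m' ∧ m' ⊆ m) with hF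
  have hmF : m ∈ F := Finset.mem_filter.2 ⟨hm, hv, Finset.Subset.refl _⟩
  have hcard : F.card ≤ r := by
    refine (Finset.card_le_card ?_).trans (hM v)
    intro m' hm'
    obtain ⟨h1, h2, -⟩ := Finset.mem_filter.1 hm'
    exact Finset.mem_filter.2 ⟨h1, h2⟩
  have hr : 1 ≤ r := (Finset.card_pos.2 ⟨m, hmF⟩).trans_le hcard
  have hr' : (0 : ℝ) < r := by exact_mod_cast hr
  have hZ : xos_Z ζ M m v = ζ m * ∏ m' ∈ F.erase m, ζ m' := by
    unfold xos_Z
    exact (Finset.mul_prod_erase F ζ hmF).symm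
  have h1 : ‖1 - ∏ m' ∈ F.erase m, ζ m'‖ ≤ ∑ m' ∈ F.erase m, ‖1 - ζ m'‖ :=
    xos_prod_sub _ _ fun m' hm' => hζ m' (Finset.mem_filter.1 (Finset.mem_of_mem_erase hm')).1
  have h2 : ∑ m' ∈ F.erase m, ‖1 - ζ m'‖ ≤ ‖1 - ζ m‖ / 2 := by
    have h3 : ∀ m' ∈ F.erase m, ‖1 - ζ m'‖ ≤ ‖1 - ζ m‖ / (2 * r) := by
      intro m' hm'
      obtain ⟨hne, hm'F⟩ := Finset.mem_erase.1 hm'
      obtain ⟨h4, -, h5⟩ := Finset.mem_filter.1 hm'F
      have h6 := hg m' h4 (Finset.ssubset_iff_subset_ne.2 ⟨h5, hne⟩)
      rw [le_div_iff₀ (by positivity)]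
      linarith
    refine (Finset.sum_le_card_nsmul _ _ _ h3).trans ?_
    rw [nsmul_eq_mul]
    have h7 : ((F.erase m).card : ℝ) ≤ r := by
      exact_mod_cast (Finset.card_le_card (Finset.erase_subset _ _)).trans hcard
    calc ((F.erase m).card : ℝ) * (‖1 - ζ m‖ / (2 * r)) ≤ r * (‖1 - ζ m‖ / (2 * r)) :=
          mul_le_mul_of_nonneg_right h7 (by positivity)
      _ = ‖1 - ζ m‖ / 2 := by field_simp
  have h3 : 1 - ζ m = (1 - ζ m * ∏ m' ∈ F.erase m, ζ m') - ζ m * (1 - ∏ m' ∈ F.erase m, ζ m') := by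
    ring
  have h4 := norm_sub_le (1 - ζ m * ∏ m' ∈ F.erase m, ζ m') (ζ m * (1 - ∏ m' ∈ F.erase m, ζ m'))
  rw [← h3, norm_mul, hζ m hm, one_mul] at h4
  rw [hZ]
  linarith

theorem xos_half {z : ℂ} (hz : ‖z‖ = 1) : ‖1 + z‖ / 2 ≤ Real.exp (-(‖1 - z‖ ^ 2) / 8) := by
  have h1 : ‖1 + z‖ ^ 2 + ‖1 - z‖ ^ 2 = 4 := by
    have h2 : ‖z‖ ^ 2 = 1 := by rw [hz]; norm_num
    rw [← Complex.normSq_eq_norm_sq, Complex.normSq_apply] at h2
    rw [← Complex.normSq_eq_norm_sq, ← Complex.normSq_eq_norm_sq, Complex.normSq_apply,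
      Complex.normSq_apply]
    simp only [Complex.add_re, Complex.add_im, Complex.sub_re, Complex.sub_im, Complex.one_re,
      Complex.one_im]
    nlinarith
  have h2 : (‖1 + z‖ / 2) ^ 2 ≤ (Real.exp (-(‖1 - z‖ ^ 2) / 8)) ^ 2 := by
    rw [← Real.exp_nat_mul]
    have h3 := Real.add_one_le_exp (-(‖1 - z‖ ^ 2) / 4)
    have h4 : ((2 : ℕ) : ℝ) * (-(‖1 - z‖ ^ 2) / 8) = -(‖1 - z‖ ^ 2) / 4 := by push_cast; ring
    rw [h4]
    refine le_trans ?_ h3
    rw [div_pow]
    linarith
  exact le_of_sq_le_sq h2 (Real.exp_pos _).le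

open Classical in
/-- The factor at the bit `v`. -/
noncomputable def xos_rho (r : ℕ) (ζ : Finset (Fin n) → ℂ) (M : Finset (Finset (Fin n)))
    (η : Finset (Fin n)) (v : Fin n) (x : Cube n) : ℝ :=
  ∏ m ∈ M, if xos_Piv M η m v x then Real.exp (-(gc r ζ M m) / 2) else 1

theorem xos_gc_nonneg (r : ℕ) (ζ : Finset (Fin n) → ℂ) (M : Finset (Finset (Fin n)))
    (m : Finset (Fin n)) : 0 ≤ gc r ζ M m := by
  classical
  unfold gc gap
  split_ifs
  · positivity
  · exact le_rfl

theorem xos_piv_congr {M : Finset (Finset (Fin n))} {η m : Finset (Fin n)} {v : Fin n} {x y : Cube n}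
    (h : ∀ i, (i ∈ η → i < v) → x i = y i) (hp : xos_Piv M η m v x) : xos_Piv M η m v y := by
  obtain ⟨h1, h2, h3, h4, h5, h6⟩ := hp
  refine ⟨h1, h2, h3, ?_, h5, ?_⟩
  · refine (xos_tr_congr fun i hi => h i fun hη => ?_).1 h4
    obtain ⟨hi1, hi2⟩ := Finset.mem_erase.1 hi
    exact lt_of_le_of_ne (h5 i hi2 hη) hi1
  · intro m' hm' hv' ht
    refine h6 m' hm' hv' ((xos_tr_congr fun i hi => h i fun hη => ?_).2 ht)
    exact absurd hη (Finset.mem_sdiff.1 hi).2

/-- The average over the bits in `η`. -/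
theorem xos_main {r : ℕ} {M : Finset (Finset (Fin n))} (hM : Rd r M) {ζ : Finset (Fin n) → ℂ}
    (hζ : ∀ m ∈ M, ‖ζ m‖ = 1) (η : Finset (Fin n)) (z : Cube n) :
    ‖(∑ x, pr ζ M (mix η x z)) / 2 ^ n‖ ≤ E fun x => ∏ v, xos_rho r ζ M η v (mix η x z) := by
  classical
  have hlt : ∀ {v : Fin n} {x x' : Cube n},
      (∀ u : Fin n, n - (v : ℕ) < n - (u : ℕ) → x u = x' u) →
      ∀ i, (i ∈ η → i < v) → mix η x z i = mix η x' z i := by
    intro v x x' hx i hi
    unfold Dnf.mix
    by_cases hη : i ∈ η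
    · rw [if_pos hη, if_pos hη]
      refine hx i ?_
      have h9 : (i : ℕ) < v := hi hη
      have := v.2
      omega
    · rw [if_neg hη, if_neg hη]
  refine xos_expose (fun x => pr ζ M (mix η x z)) (fun v x => xos_rho r ζ M η v (mix η x z))
    (fun x => (xos_norm_pr hζ _).le) (fun v => n - v) ?_ ?_
  · intro v x x' hx
    unfold xos_rho
    refine Finset.prod_congr rfl fun m _ => if_congr ?_ rfl rfl
    exact ⟨fun h => xos_piv_congr (hlt hx) h,
      fun h => xos_piv_congr (fun i hi => (hlt hx i hi).symm) h⟩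
  · intro v x
    by_cases hc : ∃ m ∈ M, Good r ζ M m ∧ xos_Piv M η m v (mix η x z)
    · obtain ⟨m, hm, hg, hp⟩ := hc
      right
      refine ⟨xos_Z ζ M m v, xos_norm_Z hζ m v, ?_, fun x' hx' => ?_⟩
      · have h1 : xos_rho r ζ M η v (mix η x z) = Real.exp (-(gc r ζ M m) / 2) := by
          unfold xos_rho
          rw [Finset.prod_eq_single m]
          · rw [if_pos hp]
          · intro m2 _ hne
            rw [if_neg fun h2 => hne (xos_unique h2 hp)]
          · intro h; exact absurd hm h
        rw [h1]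
        refine (xos_half (xos_norm_Z hζ m v)).trans (Real.exp_le_exp.2 ?_)
        have h2 := xos_Z_far hM hζ hm hp.2.2.1 hg
        have h3 : (‖1 - ζ m‖ / 2) ^ 2 ≤ ‖1 - xos_Z ζ M m v‖ ^ 2 :=
          pow_le_pow_left₀ (by positivity) h2 2
        have h4 : gc r ζ M m = ‖1 - ζ m‖ ^ 2 / 4 / 4 := by
          unfold gc gap
          rw [if_pos hg]
        rw [h4]
        rw [div_pow] at h3
        linarith
      · have hp' : xos_Piv M η m v (mix η x' z) :=
          xos_piv_congr (fun i hi => (hlt hx' i hi).symm) hp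
        simp only [xos_mix_upd hp.1]
        exact xos_pr_pivot hp'
    · left
      unfold xos_rho
      refine Finset.prod_eq_one fun m hm => ?_
      split_ifs with hp
      · have hng : ¬ Good r ζ M m := fun hg => hc ⟨m, hm, hg, hp⟩
        unfold gc
        rw [if_neg hng]
        simp
      · rfl

/-- The factors and the weight of the pivots. -/
theorem xos_rho_le {r : ℕ} {M : Finset (Finset (Fin n))} {w : Finset (Fin n) → Finset (Fin n) → Fin n}
    (hw : Kil r M w) {ζ : Finset (Fin n) → ℂ} (η : Finset (Fin n)) (x : Cube n) :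
    ∏ v, xos_rho r ζ M η v x ≤ Real.exp (-(cw (gc r ζ M) M w η x) / 2) := by
  classical
  have key : ∀ m ∈ M, ∀ i ∈ m, PE M w m i η → PX M w m i x → xos_Piv M η m i x := by
    intro m hm i hi hE hX
    refine ⟨hE.1, hm, hi, hX.1, ?_, ?_⟩
    · intro j hj hjη
      by_contra hcon
      have h1 : j ∈ later m i ∪ kl M w m i :=
        Finset.mem_union_left _ (Finset.mem_filter.2 ⟨hj, not_le.1 hcon⟩)
      exact Finset.disjoint_left.1 hE.2 hjη h1
    · intro m' hm' him' hT
      by_contra hne
      have h1 : w m m' ∈ kl M w m i :=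
        Finset.mem_image_of_mem _ (Finset.mem_filter.2 ⟨hm', hne, him'⟩)
      have h2 := hw.mem m hm m' hm' hne (Finset.not_disjoint_iff.2 ⟨i, hi, him'⟩)
      have h3 : w m m' ∉ η := fun h => Finset.disjoint_left.1 hE.2 h (Finset.mem_union_right _ h1)
      have h4 := hT _ (Finset.mem_sdiff.2 ⟨(Finset.mem_sdiff.1 h2).1, h3⟩)
      rw [hX.2 _ h1] at h4
      exact Bool.false_ne_true h4
  unfold xos_rho
  rw [Finset.prod_comm]
  have h1 : Real.exp (-(cw (gc r ζ M) M w η x) / 2) =
      ∏ m ∈ M, Real.exp (-(gc r ζ M m * one (Pv M w m η x)) / 2) := by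
    rw [← Real.exp_sum]
    congr 1
    unfold cw
    rw [← Finset.sum_div, ← Finset.sum_neg_distrib]
  rw [h1]
  refine Finset.prod_le_prod (fun m _ => Finset.prod_nonneg fun v _ => ?_) fun m hm => ?_
  · split_ifs
    · exact (Real.exp_pos _).le
    · exact zero_le_one
  · have hle1 : Real.exp (-(gc r ζ M m) / 2) ≤ 1 := by
      rw [Real.exp_le_one_iff]
      have := xos_gc_nonneg r ζ M m
      linarith
    have hf : ∀ v : Fin n, 0 ≤ (if xos_Piv M η m v x then Real.exp (-(gc r ζ M m) / 2) else 1) ∧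
        (if xos_Piv M η m v x then Real.exp (-(gc r ζ M m) / 2) else 1) ≤ 1 := by
      intro v
      split_ifs
      · exact ⟨(Real.exp_pos _).le, hle1⟩
      · exact ⟨zero_le_one, le_rfl⟩
    by_cases hP : Pv M w m η x
    · rw [Dnf.one_true hP, mul_one]
      obtain ⟨i, hi, hE, hX⟩ := hP
      have hp := key m hm i hi hE hX
      rw [← Finset.mul_prod_erase univ _ (Finset.mem_univ i), if_pos hp]
      refine mul_le_of_le_one_right (Real.exp_pos _).le ?_
      exact Finset.prod_le_one (fun v _ => (hf v).1) fun v _ => (hf v).2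
    · rw [Dnf.one_false hP, mul_zero, neg_zero, zero_div, Real.exp_zero]
      exact Finset.prod_le_one (fun v _ => (hf v).1) fun v _ => (hf v).2

theorem xos_av (F : Cube n → ℂ) : av F = (∑ x, F x) / 2 ^ n := by
  unfold av
  have : (Fintype.card (Cube n) : ℂ) = 2 ^ n := by simp
  rw [this]

theorem oneshot {r : ℕ} {M : Finset (Finset (Fin n))} {w : Finset (Fin n) → Finset (Fin n) → Fin n}
    (hM : Rd r M) (hw : Kil r M w) (h0 : ∀ m ∈ M, m ≠ ∅) {ζ : Finset (Fin n) → ℂ}
    (hζ : ∀ m ∈ M, ‖ζ m‖ = 1) (η : Finset (Fin n)) (z : Cube n) :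
    ‖av fun x : Cube n => pr ζ M (mix η x z)‖ ≤
      E fun x => Real.exp (-(cw (gc r ζ M) M w η (mix η x z)) / 2) := by
  rw [xos_av]
  exact (xos_main hM hζ η z).trans (Dnf.E_mono fun x => xos_rho_le hw η _)

theorem xos_E_comm (F : Cube n → Cube n → ℝ) :
    E (fun x => E fun y => F x y) = E fun y => E fun x => F x y := by
  unfold E
  rw [← Finset.sum_div, ← Finset.sum_div, Finset.sum_comm]

theorem restr_le {r : ℕ} {M : Finset (Finset (Fin n))} {w : Finset (Fin n) → Finset (Fin n) → Fin n}
    (hM : Rd r M) (hw : Kil r M w) (h0 : ∀ m ∈ M, m ≠ ∅) {ζ : Finset (Fin n) → ℂ}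
    (hζ : ∀ m ∈ M, ‖ζ m‖ = 1) (η : Finset (Fin n)) :
    (E fun z => ‖av fun x : Cube n => pr ζ M (mix η x z)‖ ^ 2) ≤
      E fun x => Real.exp (-(cw (gc r ζ M) M w η x) / 2) := by
  have h1 : ∀ z, ‖av fun x : Cube n => pr ζ M (mix η x z)‖ ≤ 1 := by
    intro z
    rw [xos_av, norm_div, norm_pow, Complex.norm_ofNat, div_le_one (by positivity)]
    refine (norm_sum_le _ _).trans ?_
    rw [Finset.sum_congr rfl fun x _ => xos_norm_pr hζ _, Finset.sum_const, Finset.card_univ]
    simp
  have h2 : ∀ z, ‖av fun x : Cube n => pr ζ M (mix η x z)‖ ^ 2 ≤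
      E fun x => Real.exp (-(cw (gc r ζ M) M w η (mix η x z)) / 2) := by
    intro z
    refine le_trans ?_ (oneshot hM hw h0 hζ η z)
    rw [pow_two]
    exact mul_le_of_le_one_left (norm_nonneg _) (h1 z)
  refine (Dnf.E_mono h2).trans (le_of_eq ?_)
  exact (xos_E_comm fun z x => Real.exp (-(cw (gc r ζ M) M w η (mix η x z)) / 2)).trans
    (Dnf.E_mix η fun x => Real.exp (-(cw (gc r ζ M) M w η x) / 2))

end Pool.Agent.MP_ca1109_lc.Xg
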