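import Pool.Agent.MP_ca1109_lc.Xg.TH2
import Pool.Agent.MP_ca1109_lc.Xg.Test
import Pool.Agent.MP_ca1109_lc.Agp.G3
import Pool.Agent.MP_ca1109_lc.Mpg.G0

/-!
# Boolean functions of modular gates and threshold gates over monomials of bounded read
-/

namespace Pool.Agent.MP_ca1109_lc.Xg

open Finset Pool.Agent.H66 Pool.Agent.MP_ca1109_lc.Mpg Pool.Agent.MP_ca1109_lc.Agp
open Pool.Agent.MP_ca1109_lc.Xp
open Pool.Agent.MP_ca1109_lc.Dnf (Cube ch one one_le one_nonneg one_true one_false)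

variable {n : ℕ}

theorem Cmb.sup {M M' : Finset (Finset (Fin n))} (h : M ⊆ M') {B : ℝ} {f : Cube n → ℂ}
    (hf : Cmb M B f) : Cmb M' B f := by
  classical
  obtain ⟨ι, hι, c, ζ, h1, h2, h3⟩ := hf
  refine ⟨ι, hι, c, fun i m => if m ∈ M then ζ i m else 1, fun i m _ => ?_, h2, fun x => ?_⟩
  · show ‖if m ∈ M then ζ i m else 1‖ = 1
    split_ifs with hm
    · exact h1 i m hm
    · exact norm_one
  · rw [h3]
    refine sum_congr rfl fun i _ => ?_
    congr 1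
    unfold Xp.pr
    symm
    refine (prod_subset h fun m _ hm => ?_).symm.trans ?_
    · show (if Tr m x then (if m ∈ M then ζ i m else 1) else 1) = 1
      rw [if_neg hm, ite_self]
    · refine prod_congr rfl fun m hm => ?_
      show (if Tr m x then (if m ∈ M then ζ i m else 1) else 1) = _
      rw [if_pos hm]

theorem Fools.mono {r r' : ℕ} {ε ε' : ℝ} (hr : r ≤ r') (hε : ε' ≤ ε) {Ω : Type*} [Fintype Ω]
    {X : Ω → Cube n} (h : Fools r' ε' X) : Fools r ε X :=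
  fun M ζ hM hζ => (h M ζ (fun i => (hM i).trans hr) hζ).trans hε

theorem fools_id (r : ℕ) {ε : ℝ} (hε : 0 ≤ ε) : Fools r ε (fun x : Cube n => x) := by
  intro M ζ _ _
  rw [show (av fun ω : Cube n => pr ζ M ω) = av (pr ζ M) from rfl, sub_self, norm_zero]
  exact hε

open Classical in
theorem xth_rd {G : Type} [AddCommGroup G] {r : ℕ} {c : Finset (Fin n) → G}
    (h : ∀ i, {m | i ∈ m ∧ c m ≠ 0}.ncard ≤ r) (M : Finset (Finset (Fin n)))
    (hM : ∀ m ∈ M, c m ≠ 0) : Rd r M := by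
  intro i
  refine le_trans ?_ (h i)
  rw [← Set.ncard_coe_finset]
  refine Set.ncard_le_ncard (fun m hm => ?_) (Set.toFinite _)
  rw [Finset.mem_coe, mem_filter] at hm
  exact ⟨hm.2, hM m hm.1⟩

/-- Gates are approximable. -/
theorem gate_apx (r B : ℕ) {ε₁ : ℝ} (h1 : 0 < ε₁)
    (SM : ∀ ε' : ℝ, 0 < ε' → ∃ V₀ : ℝ, ∀ (n : ℕ) (M : Finset (Finset (Fin n)))
      (ζ : Finset (Fin n) → ℂ), Rd (r + 1) M → (∀ m ∈ M, m ≠ ∅) → (∀ m ∈ M, ‖ζ m‖ = 1) →
      V₀ ≤ ∑ m ∈ M, ‖1 - ζ m‖ ^ 2 * (1 / 2 : ℝ) ^ m.card → ‖av (pr ζ M)‖ ≤ ε') :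
    ∃ C : ℝ, 0 ≤ C ∧ ∃ ε₀ : ℝ, 0 < ε₀ ∧ ∀ (n : ℕ) (g : Cube n → Bool), Gate r B g →
      ∃ (M : Finset (Finset (Fin n))) (H : Cube n → ℝ), Rd (r + 1) M ∧
        (∀ x, 0 ≤ H x ∧ H x ≤ 1) ∧ Cmb M C (fun x => ((H x : ℝ) : ℂ)) ∧
        ∀ {Ω : Type} [Fintype Ω] [Nonempty Ω] (X : Ω → Cube n), Fools (r + 1) ε₀ X →
          (avg fun ω => |ind (g (X ω)) - H (X ω)|) ≤ ε₁ := by
  classical
  obtain ⟨C, hC, ε₀, hε₀, hthr⟩ := xth_thr (r + 1) (Nat.succ_pos r) B h1 SM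
  refine ⟨max C B, le_max_of_le_left hC, ε₀, hε₀, ?_⟩
  intro n g hg
  have hind : ∀ (P : Prop) (b : Bool), (b = true ↔ P) → ind b = one P := by
    intro P b hb
    by_cases h : P
    · rw [one_true h, hb.2 h]
      rfl
    · rw [one_false h]
      have : b = false := by
        cases b
        · rfl
        · exact absurd (hb.1 rfl) h
      rw [this]
      rfl
  rcases hg with ⟨G, i1, i2, c, A, hA, hr, hgx⟩ | ⟨w, θ, hw, hr, hgx⟩
  · have : Fintype G := Fintype.ofFinite G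
    set M : Finset (Finset (Fin n)) := univ.filter fun m => c m ≠ 0 with hM
    have hv : ∀ x : Cube n, vl c M x =
        ∑ m : Finset (Fin n), if ∀ i ∈ m, x i = true then c m else 0 := by
      intro x
      unfold vl
      rw [hM, sum_filter]
      refine sum_congr rfl fun m _ => ?_
      by_cases h : c m = 0
      · rw [if_neg (not_not.2 h), h, ite_self]
      · rw [if_pos h]
        by_cases h' : Tr m x
        · rw [if_pos h', if_pos (show ∀ i ∈ m, x i = true from h')]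
        · rw [if_neg h', if_neg (show ¬ ∀ i ∈ m, x i = true from h')]
    refine ⟨M, fun x => one (vl c M x ∈ A), ?_, fun x => ⟨one_nonneg _, one_le _⟩, ?_, ?_⟩
    · have := xth_rd hr M fun m hm => (mem_filter.1 hm).2
      exact fun i => (this i).trans (Nat.le_succ r)
    · exact (cmb_abl c M A).mono ((Nat.cast_le.2 hA).trans (le_max_right _ _))
    · intro Ω _ _ X _
      have e : (fun ω => |ind (g (X ω)) - one (vl c M (X ω) ∈ A)|) = fun _ => 0 := by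
        funext ω
        rw [hind (vl c M (X ω) ∈ A) (g (X ω)) (by rw [hv]; exact hgx _), sub_self, abs_zero]
      rw [e, avg_const]
      exact h1.le
  · set M : Finset (Finset (Fin n)) := univ.filter fun m => w m ≠ 0 ∧ m ≠ ∅ with hM
    have hRd : Rd (r + 1) M := by
      have := xth_rd hr M fun m hm => (mem_filter.1 hm).2.1
      exact fun i => (this i).trans (Nat.le_succ r)
    have hv : ∀ x : Cube n, (∑ m : Finset (Fin n), if ∀ i ∈ m, x i = true then w m else 0) =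
        vl w M x + w ∅ := by
      intro x
      unfold vl
      rw [hM, sum_filter, ← Finset.add_sum_erase univ _ (mem_univ (∅ : Finset (Fin n))), add_comm]
      congr 1
      · rw [← Finset.add_sum_erase univ _ (mem_univ (∅ : Finset (Fin n)))]
        rw [if_neg (fun h => h.2 rfl), zero_add]
        refine sum_congr rfl fun m hm => ?_
        have hm0 : m ≠ ∅ := (mem_erase.1 hm).1
        by_cases h : w m = 0
        · simp [h]
        · have hc : w m ≠ 0 ∧ m ≠ ∅ := ⟨h, hm0⟩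
          rw [if_pos hc]
          by_cases h' : ∀ i ∈ m, x i = true
          · rw [if_pos h', if_pos (show Tr m x from h')]
          · rw [if_neg h', if_neg (show ¬ Tr m x from h')]
      · rw [if_pos fun i hi => absurd hi (notMem_empty i)]
    obtain ⟨H, h01, hH, happ⟩ := hthr n M hRd (fun m hm => (mem_filter.1 hm).2.2) w
      (fun m _ => hw m) (θ - w ∅)
    refine ⟨M, H, hRd, h01, hH.mono (le_max_left _ _), ?_⟩
    intro Ω _ _ X hX
    have e : (fun ω => |ind (g (X ω)) - H (X ω)|) =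
        fun ω => |one (θ - w ∅ ≤ vl w M (X ω)) - H (X ω)| := by
      funext ω
      rw [hind (θ - w ∅ ≤ vl w M (X ω)) (g (X ω)) (by rw [hgx, hv]; constructor <;> intro h <;> linarith)]
    rw [e]
    exact happ X hX

/-- Larger classes for small `n` do not matter. -/
theorem xth_eventually {𝒯 𝒯' : ∀ n : ℕ, ((Fin n → Bool) → Bool) → Prop} {ε : ℝ}
    (h : LogGen 𝒯 ε) (n₀ : ℕ) (h' : ∀ n ≥ n₀, ∀ T, 𝒯' n T → 𝒯 n T) : LogGen 𝒯' ε := by
  obtain ⟨D, G, hD, hG, hl, c, hc⟩ := h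
  refine ⟨D, G, hD, hG, hl, c, ?_⟩
  filter_upwards [hc, Filter.eventually_ge_atTop n₀] with n hn hn'
  exact ⟨hn.1, hn.2.1, fun T hT => hn.2.2 T (h' n hn' T hT)⟩

theorem xth_avg_fin (M : ℕ) (F : ℕ → ℝ) : avg (fun a : Fin M => F a) = nr M F := by
  unfold avg nr
  rw [Fintype.card_fin, Fin.sum_univ_eq_sum_range F M]

/-- The final theorem, from the two main theorems. -/
theorem d2_final (r B k : ℕ) {ε : ℝ} (hε : 0 < ε)
    (GX : ∀ (r : ℕ) {ε : ℝ}, 0 < ε → ∃ E G, NG E G ∧ ∃ n₀ : ℕ, ∀ n ≥ n₀,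
      ∀ (M : Finset (Finset (Fin n))) (ζ : Finset (Fin n) → ℂ), Rd r M →
        (∀ m ∈ M, ‖ζ m‖ = 1) →
        ‖na (2 ^ E n) (fun p => pr ζ M (out G n p)) - av (pr ζ M)‖ ≤ ε)
    (SM : ∀ (r : ℕ) {ε : ℝ}, 0 < ε → ∃ V₀ : ℝ, ∀ (n : ℕ) (M : Finset (Finset (Fin n)))
      (ζ : Finset (Fin n) → ℂ), Rd r M → (∀ m ∈ M, m ≠ ∅) → (∀ m ∈ M, ‖ζ m‖ = 1) →
      V₀ ≤ ∑ m ∈ M, ‖1 - ζ m‖ ^ 2 * (1 / 2 : ℝ) ^ m.card → ‖av (pr ζ M)‖ ≤ ε) :
    LogGen (D2Test r B k) ε := by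
  classical
  have hk : (0 : ℝ) < 4 * (2 ^ k * ((k : ℝ) + 1)) := by positivity
  obtain ⟨C, hC, ε₀, hε₀, hg⟩ := gate_apx r B (ε₁ := ε / (4 * (2 ^ k * ((k : ℝ) + 1))))
    (by positivity) fun ε' h => SM (r + 1) h
  have hCk : (0 : ℝ) < 2 * (2 ^ k * (1 + C) ^ k) := by positivity
  obtain ⟨ε₂, hε₂⟩ : ∃ ε₂ : ℝ, ε₂ = min ε₀ (ε / (2 * (2 ^ k * (1 + C) ^ k))) := ⟨_, rfl⟩
  have hε₂0 : 0 < ε₂ := by rw [hε₂]; exact lt_min hε₀ (by positivity)
  have hε₂1 : ε₂ ≤ ε₀ := by rw [hε₂]; exact min_le_left _ _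
  have hε₂2 : ε₂ ≤ ε / (2 * (2 ^ k * (1 + C) ^ k)) := by rw [hε₂]; exact min_le_right _ _
  obtain ⟨E, G, hNG, n₀, HG⟩ := GX (k * (r + 1) + (r + 1)) hε₂0
  refine xth_eventually (𝒯 := fun n T => n₀ ≤ n ∧ D2Test r B k n T)
    (logGen_of hNG fun n T hT => ?_) n₀ fun n hn T hT => ⟨hn, hT⟩
  obtain ⟨hn, g, F, hgate, hT⟩ := hT
  have hne : Nonempty (Fin (2 ^ E n)) := ⟨⟨0, by positivity⟩⟩
  have hX : Fools (k * (r + 1) + (r + 1)) ε₂ (fun p : Fin (2 ^ E n) => out G n p) := by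
    intro M ζ hM hζ
    have := HG n hn M ζ hM hζ
    rwa [← av_fin (2 ^ E n) (fun p => pr ζ M (out G n p))] at this
  choose M H hRd h01 hH happ using fun j => hg n (g j) (hgate j)
  set U : Finset (Finset (Fin n)) := univ.biUnion M with hU
  have hMU : ∀ j, M j ⊆ U := fun j => subset_biUnion_of_mem M (mem_univ j)
  have hRdU : Rd (k * (r + 1) + (r + 1)) U := by
    intro i
    have h2 : (U.filter fun m => i ∈ m) ⊆ univ.biUnion fun j => (M j).filter fun m => i ∈ m := by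
      intro m hm
      rw [mem_filter, hU, mem_biUnion] at hm
      obtain ⟨⟨j, hj, hmj⟩, hi⟩ := hm
      rw [mem_biUnion]
      exact ⟨j, hj, mem_filter.2 ⟨hmj, hi⟩⟩
    refine (card_le_card h2).trans (card_biUnion_le.trans ?_)
    refine (sum_le_sum fun j _ => hRd j i).trans ?_
    rw [sum_const, card_univ, Fintype.card_fin, smul_eq_mul]
    omega
  have key := fool_bool (ε₁ := ε / (4 * (2 ^ k * ((k : ℝ) + 1)))) hε₂0.le hC hRdU F g H h01
    (fun j => (hH j).sup (hMU j)) hX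
    (fun j => happ j (fun x : Cube n => x) (fools_id _ hε₀.le))
    (fun j => happ j _ (hX.mono (by omega) hε₂1))
  have e1 : nr (2 ^ E n) (fun p => ind (T (out G n p))) =
      avg fun p : Fin (2 ^ E n) => ind (F fun j => g j (out G n p)) := by
    rw [← xth_avg_fin]
    congr 1
    funext p
    rw [hT]
  have e2 : prob T = avg fun x : Cube n => ind (F fun j => g j x) := by
    rw [prob_eq_avg]
    congr 1
    funext x
    rw [hT]
  rw [e1, e2]
  refine key.trans ?_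
  have e3 : 2 * (2 ^ k * ((k : ℝ) * (ε / (4 * (2 ^ k * ((k : ℝ) + 1)))))) ≤ ε / 2 := by
    rw [show 2 * (2 ^ k * ((k : ℝ) * (ε / (4 * (2 ^ k * ((k : ℝ) + 1)))))) =
      ε / 2 * ((k : ℝ) / ((k : ℝ) + 1)) by field_simp; ring]
    have : (k : ℝ) / ((k : ℝ) + 1) ≤ 1 := by
      rw [div_le_one (by positivity)]
      linarith
    nlinarith
  have e4 : 2 ^ k * (1 + C) ^ k * ε₂ ≤ ε / 2 := by
    calc 2 ^ k * (1 + C) ^ k * ε₂ ≤ 2 ^ k * (1 + C) ^ k * (ε / (2 * (2 ^ k * (1 + C) ^ k))) :=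
          mul_le_mul_of_nonneg_left hε₂2 (by positivity)
      _ = ε / 2 := by field_simp
  linarith

end Pool.Agent.MP_ca1109_lc.Xg
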