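import Mathlib

/-!
# A periodic trapezoid and its Fourier coefficients
-/

namespace Pool.Agent.MP_ca1109_lc.Xg

open Finset

variable {Q : ℕ} [NeZero Q]

theorem sum_char (k : ZMod Q) : ∑ b : ZMod Q, ZMod.stdAddChar (b * k) = if k = 0 then (Q : ℂ) else 0 := by
  have h := AddChar.sum_mulShift k (ZMod.isPrimitive_stdAddChar Q)
  rw [h, ZMod.card]
  split_ifs <;> simp

theorem norm_char (k : ZMod Q) : ‖(ZMod.stdAddChar k : ℂ)‖ = 1 := AddChar.norm_apply _ _

theorem conj_char (k : ZMod Q) : (starRingEnd ℂ) (ZMod.stdAddChar k : ℂ) = ZMod.stdAddChar (-k) :=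
  (AddChar.map_neg_eq_conj _ _).symm

/-- The Fourier coefficients. -/
noncomputable def fo (u : ZMod Q → ℂ) (b : ZMod Q) : ℂ :=
  (∑ t, u t * ZMod.stdAddChar (b * (-t))) / Q

theorem Q_ne : (Q : ℂ) ≠ 0 := Nat.cast_ne_zero.2 (NeZero.ne Q)

theorem fo_inv (u : ZMod Q → ℂ) (s : ZMod Q) : ∑ b, fo u b * ZMod.stdAddChar (b * s) = u s := by
  have h1 : ∀ b : ZMod Q, fo u b * ZMod.stdAddChar (b * s) =
      (∑ t, u t * ZMod.stdAddChar (b * (s - t))) / Q := by
    intro b
    unfold fo
    rw [div_mul_eq_mul_div, Finset.sum_mul]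
    congr 1
    refine Finset.sum_congr rfl fun t _ => ?_
    rw [mul_assoc, ← AddChar.map_add_eq_mul]
    congr 2
    ring
  simp_rw [h1]
  rw [← Finset.sum_div, Finset.sum_comm]
  have h2 : ∀ t : ZMod Q, ∑ b : ZMod Q, u t * ZMod.stdAddChar (b * (s - t)) =
      if t = s then u s * Q else 0 := by
    intro t
    rw [← Finset.mul_sum, sum_char]
    by_cases h : t = s
    · rw [if_pos h, if_pos (by rw [h, sub_self]), h]
    · rw [if_neg h, if_neg (fun h' => h (sub_eq_zero.1 h').symm), mul_zero]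
  rw [Finset.sum_congr rfl fun t _ => h2 t, Finset.sum_ite_eq' Finset.univ s, if_pos (Finset.mem_univ _),
    mul_div_assoc, div_self Q_ne, mul_one]

theorem fo_parseval (u : ZMod Q → ℂ) : ∑ b, ‖fo u b‖ ^ 2 = (∑ t, ‖u t‖ ^ 2) / Q := by
  have hc : ∀ b : ZMod Q, (starRingEnd ℂ) (fo u b) =
      (∑ t, (starRingEnd ℂ) (u t) * ZMod.stdAddChar (b * t)) / Q := by
    intro b
    unfold fo
    rw [map_div₀, map_sum, map_natCast]
    congr 1
    refine Finset.sum_congr rfl fun t _ => ?_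
    rw [map_mul, conj_char]
    congr 2
    ring
  have h : ((∑ b, ‖fo u b‖ ^ 2 : ℝ) : ℂ) = (((∑ t, ‖u t‖ ^ 2) / Q : ℝ) : ℂ) := by
    push_cast
    have e1 : ∀ z : ℂ, ((‖z‖ : ℂ)) ^ 2 = z * (starRingEnd ℂ) z := fun z => by
      rw [Complex.mul_conj, Complex.normSq_eq_norm_sq]
      push_cast
      ring
    simp_rw [e1, hc]
    calc ∑ b, fo u b * ((∑ t, (starRingEnd ℂ) (u t) * ZMod.stdAddChar (b * t)) / Q)
        = (∑ b, ∑ t, (starRingEnd ℂ) (u t) * (fo u b * ZMod.stdAddChar (b * t))) / Q := by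
          rw [Finset.sum_div]
          refine Finset.sum_congr rfl fun b _ => ?_
          rw [mul_div_assoc', Finset.mul_sum]
          congr 1
          refine Finset.sum_congr rfl fun t _ => ?_
          ring
      _ = (∑ t, (starRingEnd ℂ) (u t) * u t) / Q := by
          rw [Finset.sum_comm]
          congr 1
          refine Finset.sum_congr rfl fun t _ => ?_
          rw [← Finset.mul_sum, fo_inv]
      _ = (∑ t, u t * (starRingEnd ℂ) (u t)) / Q := by
          congr 1
          exact Finset.sum_congr rfl fun t _ => mul_comm _ _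
  exact_mod_cast h

/-- The Fourier coefficients of the average over `J` shifts. -/
noncomputable def sh (Q J : ℕ) [NeZero Q] (b : ZMod Q) : ℂ :=
  (∑ j ∈ range J, (ZMod.stdAddChar (b * (-(j : ZMod Q))) : ℂ)) / J

theorem sh_parseval {J : ℕ} (hJ : 1 ≤ J) (hJQ : J ≤ Q) : ∑ b, ‖sh Q J b‖ ^ 2 = Q / J := by
  have hJ0 : (J : ℝ) ≠ 0 := by positivity
  have hJ0' : (J : ℂ) ≠ 0 := Nat.cast_ne_zero.2 (by omega)
  have h : ((∑ b, ‖sh Q J b‖ ^ 2 : ℝ) : ℂ) = ((Q / J : ℝ) : ℂ) := by
    push_cast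
    have e1 : ∀ z : ℂ, ((‖z‖ : ℂ)) ^ 2 = z * (starRingEnd ℂ) z := fun z => by
      rw [Complex.mul_conj, Complex.normSq_eq_norm_sq]
      push_cast
      ring
    have e2 : ∀ b : ZMod Q, ((‖sh Q J b‖ : ℂ)) ^ 2 = (∑ i ∈ range J, ∑ j ∈ range J,
        (ZMod.stdAddChar (b * ((j : ZMod Q) - (i : ZMod Q))) : ℂ)) / (J * J) := by
      intro b
      rw [e1]
      unfold sh
      rw [map_div₀, map_sum, map_natCast, div_mul_div_comm, Finset.sum_mul_sum]
      congr 1
      refine Finset.sum_congr rfl fun i _ => Finset.sum_congr rfl fun j _ => ?_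
      rw [conj_char, ← AddChar.map_add_eq_mul]
      congr 1
      ring
    simp_rw [e2]
    rw [← Finset.sum_div, Finset.sum_comm]
    have e3 : ∀ i ∈ range J, ∑ b : ZMod Q, ∑ j ∈ range J,
        (ZMod.stdAddChar (b * ((j : ZMod Q) - (i : ZMod Q))) : ℂ) = Q := by
      intro i hi
      rw [Finset.sum_comm]
      have e4 : ∀ j ∈ range J, ∑ b : ZMod Q, (ZMod.stdAddChar (b * ((j : ZMod Q) - (i : ZMod Q))) : ℂ) =
          if j = i then (Q : ℂ) else 0 := by
        intro j hj
        rw [sum_char]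
        by_cases hij : j = i
        · rw [if_pos hij, if_pos (by rw [hij, sub_self])]
        · rw [if_neg hij, if_neg]
          intro h0
          apply hij
          have h1 : ((j : ℕ) : ZMod Q) = ((i : ℕ) : ZMod Q) := sub_eq_zero.1 h0
          rw [ZMod.natCast_eq_natCast_iff'] at h1
          rw [Finset.mem_range] at hi hj
          rwa [Nat.mod_eq_of_lt (by omega), Nat.mod_eq_of_lt (by omega)] at h1
      rw [Finset.sum_congr rfl e4, Finset.sum_ite_eq' (range J) i, if_pos hi]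
    rw [Finset.sum_congr rfl e3, Finset.sum_const, Finset.card_range, nsmul_eq_mul,
      mul_div_mul_left _ _ hJ0']
  exact_mod_cast h

theorem trap_sum (u : ZMod Q → ℂ) (J : ℕ) (s : ZMod Q) :
    ∑ b, fo u b * sh Q J b * ZMod.stdAddChar (b * s) = (∑ j ∈ range J, u (s - (j : ZMod Q))) / J := by
  have h1 : ∀ b : ZMod Q, fo u b * sh Q J b * ZMod.stdAddChar (b * s) =
      (∑ j ∈ range J, fo u b * ZMod.stdAddChar (b * (s - (j : ZMod Q)))) / J := by
    intro b
    unfold sh
    rw [mul_div_assoc', div_mul_eq_mul_div, Finset.mul_sum, Finset.sum_mul]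
    congr 1
    refine Finset.sum_congr rfl fun j _ => ?_
    rw [mul_assoc, ← AddChar.map_add_eq_mul]
    congr 2
    ring
  simp_rw [h1]
  rw [← Finset.sum_div, Finset.sum_comm]
  congr 1
  exact Finset.sum_congr rfl fun j _ => fo_inv u _

/-- The trapezoid: a periodic function which is the indicator of `[θ, ∞)` on a window of length
`Q - J`, up to a ramp of length `J`, with coefficients of total size at most `√(Q / J)`. -/
theorem trap {Q J : ℕ} [NeZero Q] (hJ : 1 ≤ J) (A θ : ℤ) :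
    ∃ (c : ZMod Q → ℂ) (h : ℤ → ℝ), (∑ b, ‖c b‖ ≤ Real.sqrt ((Q : ℝ) / J)) ∧
      (∀ S, 0 ≤ h S ∧ h S ≤ 1) ∧
      (∀ S : ℤ, ((h S : ℝ) : ℂ) = ∑ b, c b * (ZMod.stdAddChar (b * (S : ZMod Q)) : ℂ)) ∧
      ∀ S : ℤ, A ≤ S → S < A - J + Q → ((S < θ → h S = 0) ∧ (θ + J - 1 ≤ S → h S = 1)) := by
  classical
  by_cases hJQ : Q < J
  · refine ⟨fun _ => 0, fun _ => 0, ?_, fun _ => ⟨le_rfl, zero_le_one⟩, fun S => ?_, ?_⟩
    · rw [Finset.sum_eq_zero fun b _ => norm_zero]
      exact Real.sqrt_nonneg _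
    · simp
    · intro S h1 h2
      exfalso
      omega
  push Not at hJQ
  have hJ0 : (0 : ℝ) < J := by exact_mod_cast hJ
  have hQ0 : (0 : ℝ) < Q := by exact_mod_cast (hJ.trans hJQ)
  set I : Finset (ZMod Q) :=
    (Finset.Ico (max θ (A - J)) (A - J + Q)).image fun s : ℤ => (s : ZMod Q) with hI
  set u : ZMod Q → ℂ := fun t => if t ∈ I then 1 else 0 with hu
  refine ⟨fun b => fo u b * sh Q J b,
    fun s => (∑ j ∈ range J, if ((s : ZMod Q) - j) ∈ I then (1 : ℝ) else 0) / J, ?_, ?_, ?_, ?_⟩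
  · have hu2 : ∑ b, ‖fo u b‖ ^ 2 ≤ 1 := by
      rw [fo_parseval, div_le_one hQ0]
      calc ∑ t, ‖u t‖ ^ 2 ≤ ∑ _t : ZMod Q, (1 : ℝ) := by
            refine Finset.sum_le_sum fun t _ => ?_
            simp only [hu]
            split_ifs <;> simp
        _ = Q := by simp [ZMod.card]
    have hcs := Finset.sum_mul_sq_le_sq_mul_sq Finset.univ (fun b => ‖fo u b‖) (fun b => ‖sh Q J b‖)
    rw [sh_parseval hJ hJQ] at hcs
    simp_rw [norm_mul]
    refine Real.le_sqrt_of_sq_le (hcs.trans ?_)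
    calc (∑ b, ‖fo u b‖ ^ 2) * (Q / J) ≤ 1 * (Q / J) :=
          mul_le_mul_of_nonneg_right hu2 (by positivity)
      _ = Q / J := one_mul _
  · intro s
    constructor
    · refine div_nonneg (Finset.sum_nonneg fun j _ => ?_) hJ0.le
      split_ifs <;> norm_num
    · rw [div_le_one hJ0]
      calc ∑ j ∈ range J, (if ((s : ZMod Q) - j) ∈ I then (1 : ℝ) else 0)
          ≤ ∑ _j ∈ range J, (1 : ℝ) := Finset.sum_le_sum fun j _ => by split_ifs <;> norm_num
        _ = J := by simp
  · intro s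
    rw [trap_sum]
    push_cast
    congr 1
    refine Finset.sum_congr rfl fun j _ => ?_
    simp only [hu]
    split_ifs <;> simp
  · intro s hs1 hs2
    constructor
    · intro hs3
      show (∑ j ∈ range J, if ((s : ZMod Q) - j) ∈ I then (1 : ℝ) else 0) / J = 0
      rw [Finset.sum_eq_zero, zero_div]
      intro j hj
      rw [if_neg]
      intro hmem
      rw [hI, Finset.mem_image] at hmem
      obtain ⟨s', hs', he⟩ := hmem
      rw [Finset.mem_Ico] at hs'
      rw [Finset.mem_range] at hj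
      have h3 : ((s' - s + j : ℤ) : ZMod Q) = 0 := by
        push_cast
        rw [he]
        ring
      rw [ZMod.intCast_zmod_eq_zero_iff_dvd] at h3
      have h6 := hs'.1
      have h7 : θ ≤ s' := (le_max_left _ _).trans h6
      have h4 : (0 : ℤ) < s' - s + j := by omega
      have h5 := Int.le_of_dvd h4 h3
      omega
    · intro hs3
      show (∑ j ∈ range J, if ((s : ZMod Q) - j) ∈ I then (1 : ℝ) else 0) / J = 1
      have h3 : ∀ j ∈ range J, (if ((s : ZMod Q) - j) ∈ I then (1 : ℝ) else 0) = 1 := by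
        intro j hj
        rw [Finset.mem_range] at hj
        rw [if_pos]
        rw [hI, Finset.mem_image]
        refine ⟨s - j, Finset.mem_Ico.2 ⟨max_le (by omega) (by omega), by omega⟩, ?_⟩
        push_cast
        ring
      rw [Finset.sum_congr rfl h3, Finset.sum_const, Finset.card_range, nsmul_eq_mul, mul_one,
        div_self hJ0.ne']

end Pool.Agent.MP_ca1109_lc.Xg
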