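import Pool.Agent.MP_ca1109_lc.Xg.TH1
import Pool.Agent.MP_ca1109_lc.Xg.TR
import Pool.Agent.MP_ca1109_lc.Xg.FJ
import Pool.Agent.MP_ca1109_lc.Yt.YA

/-!
# Thresholds of monomials of bounded read are approximable
-/

namespace Pool.Agent.MP_ca1109_lc.Xg

open Finset Pool.Agent.H66 Pool.Agent.MP_ca1109_lc.Mpg Pool.Agent.MP_ca1109_lc.Agp
open Pool.Agent.MP_ca1109_lc.Xp
open Pool.Agent.MP_ca1109_lc.Dnf (Cube ch one one_le one_nonneg one_true one_false)

variable {n : ℕ}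

/-! ## Tails from characteristic functions -/

theorem xth_chord {φ : ℝ} (h1 : |φ| ≤ Real.pi) :
    2 / Real.pi * |φ| ≤ ‖Complex.exp (Complex.I * φ) - 1‖ := by
  rw [Complex.norm_exp_I_mul_ofReal_sub_one]
  have h2 : |φ / 2| ≤ Real.pi / 2 := by
    rw [abs_div, abs_of_pos (by norm_num : (0 : ℝ) < 2)]
    linarith
  have h3 := Real.mul_abs_le_abs_sin h2
  rw [Real.norm_eq_abs, abs_mul, abs_of_pos (by norm_num : (0 : ℝ) < 2)]
  rw [abs_div, abs_of_pos (by norm_num : (0 : ℝ) < 2)] at h3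
  linarith

theorem xth_point {L : ℕ} (hL : 0 < L) {φ : ℝ} (h1 : |φ| ≤ Real.pi) (h2 : 2 * Real.pi ≤ L * |φ|) :
    (L : ℝ) / 2 ≤ ∑ k ∈ range L, (1 - Real.cos (k * φ)) := by
  have hL' : (0 : ℝ) < L := by exact_mod_cast hL
  have hπ := Real.pi_pos
  have hφ : 0 < |φ| := by
    rcases (abs_nonneg φ).lt_or_eq with h | h
    · exact h
    · rw [← h, mul_zero] at h2
      linarith
  set z : ℂ := Complex.exp (Complex.I * φ) with hz
  have hc := xth_chord h1
  rw [← hz] at hc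
  have hpos : 0 < 2 / Real.pi * |φ| := by positivity
  have hz1 : z ≠ 1 := by
    intro h
    rw [h, sub_self, norm_zero] at hc
    linarith
  have hnz : ‖z‖ = 1 := by
    rw [hz, mul_comm]
    exact Complex.norm_exp_ofReal_mul_I φ
  have hg := geom_sum_eq hz1 L
  have hn : ‖∑ k ∈ range L, z ^ k‖ ≤ L / 2 := by
    rw [hg, norm_div]
    have e1 : ‖z ^ L - 1‖ ≤ 2 := by
      refine (norm_sub_le _ _).trans ?_
      rw [norm_pow, hnz, one_pow, norm_one]
      norm_num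
    have e2 : ‖z ^ L - 1‖ / ‖z - 1‖ ≤ 2 / (2 / Real.pi * |φ|) :=
      div_le_div₀ (by norm_num) e1 hpos hc
    refine e2.trans ?_
    rw [div_le_iff₀ hpos]
    have e3 : (L : ℝ) / 2 * (2 / Real.pi * |φ|) = L * |φ| / Real.pi := by
      field_simp
    rw [e3, le_div_iff₀ hπ]
    exact h2
  have hre : ∑ k ∈ range L, Real.cos (k * φ) = (∑ k ∈ range L, z ^ k).re := by
    rw [Complex.re_sum]
    refine sum_congr rfl fun k _ => ?_
    have : z ^ k = Complex.exp (((k * φ : ℝ) : ℂ) * Complex.I) := by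
      rw [hz, ← Complex.exp_nat_mul]
      congr 1
      push_cast
      ring
    rw [this, Complex.exp_ofReal_mul_I_re]
  rw [sum_sub_distrib, hre, sum_const, card_range, nsmul_eq_mul, mul_one]
  have := (Complex.re_le_norm (∑ k ∈ range L, z ^ k)).trans hn
  linarith

theorem xth_re_av {Ω : Type*} [Fintype Ω] (y : Ω → ℝ) :
    (av fun ω => Complex.exp ((y ω : ℝ) * Complex.I)).re = avg fun ω => Real.cos (y ω) := by
  unfold av avg
  rw [← Complex.ofReal_natCast, Complex.div_ofReal_re, Complex.re_sum]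
  congr 1
  exact sum_congr rfl fun ω _ => Complex.exp_ofReal_mul_I_re _

theorem xth_tail {Ω : Type*} [Fintype Ω] [Nonempty Ω] (y : Ω → ℝ) {τ V ε : ℝ} (hτ : 0 < τ)
    (hV : 0 ≤ V) (h : ∀ t, 0 ≤ t → t ≤ τ → 1 - (avg fun ω => Real.cos (t * y ω)) ≤ t ^ 2 * V + ε) :
    (avg fun ω => one (2 * Real.pi / τ ≤ |y ω|)) ≤ 2 * (τ ^ 2 * V + ε) := by
  obtain ⟨Y, hY⟩ : ∃ Y : ℝ, ∀ ω, |y ω| ≤ Y := by
    refine ⟨∑ ω, |y ω|, fun ω => ?_⟩
    exact single_le_sum (f := fun ω => |y ω|) (fun i _ => abs_nonneg _) (mem_univ ω)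
  obtain ⟨L₀, hL₀⟩ := exists_nat_ge (τ * Y)
  set L : ℕ := L₀ + 1 with hL
  have hL' : (0 : ℝ) < L := by positivity
  have hLY : τ * Y ≤ L := by
    rw [hL]
    push_cast
    linarith
  set σ : ℝ := τ / L with hσ
  have hσ0 : 0 < σ := by positivity
  have hσL : (L : ℝ) * σ = τ := by rw [hσ]; field_simp
  have h1 : ∀ ω, one (2 * Real.pi / τ ≤ |y ω|) ≤
      2 / L * ∑ k ∈ range L, (1 - Real.cos ((k * σ) * y ω)) := by
    intro ω
    have hnn : 0 ≤ 2 / (L : ℝ) * ∑ k ∈ range L, (1 - Real.cos ((k * σ) * y ω)) := by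
      refine mul_nonneg (by positivity) (sum_nonneg fun k _ => ?_)
      linarith [Real.cos_le_one ((k * σ) * y ω)]
    by_cases hy : 2 * Real.pi / τ ≤ |y ω|
    · rw [one_true hy]
      have habs : |σ * y ω| = σ * |y ω| := by rw [abs_mul, abs_of_pos hσ0]
      have e1 : |σ * y ω| ≤ Real.pi := by
        rw [habs]
        have : σ * |y ω| ≤ σ * Y := mul_le_mul_of_nonneg_left (hY ω) hσ0.le
        have h2 : σ * Y ≤ 1 := by
          rw [hσ, div_mul_eq_mul_div, div_le_one hL']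
          exact hLY
        linarith [Real.pi_gt_three]
      have e2 : 2 * Real.pi ≤ L * |σ * y ω| := by
        rw [habs, ← mul_assoc, hσL]
        rw [div_le_iff₀ hτ] at hy
        linarith
      have e3 := xth_point (L := L) (by omega) e1 e2
      have e4 : ∑ k ∈ range L, (1 - Real.cos (k * (σ * y ω))) =
          ∑ k ∈ range L, (1 - Real.cos ((k * σ) * y ω)) :=
        sum_congr rfl fun k _ => by rw [mul_assoc]
      rw [e4] at e3
      calc (1 : ℝ) = 2 / L * (L / 2) := by field_simp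
        _ ≤ _ := mul_le_mul_of_nonneg_left e3 (by positivity)
    · rw [one_false hy]
      exact hnn
  refine (avg_mono h1).trans ?_
  rw [avg_mul_left, avg_sum]
  have h2 : ∀ k ∈ range L, (avg fun ω => 1 - Real.cos ((k * σ) * y ω)) ≤ τ ^ 2 * V + ε := by
    intro k hk
    rw [mem_range] at hk
    have hk' : (k : ℝ) ≤ L := by exact_mod_cast hk.le
    have ht : (k : ℝ) * σ ≤ τ := by
      rw [← hσL]
      exact mul_le_mul_of_nonneg_right hk' hσ0.le
    have ht0 : 0 ≤ (k : ℝ) * σ := by positivity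
    have h3 := h (k * σ) ht0 ht
    rw [avg_sub, avg_const]
    have h4 : ((k : ℝ) * σ) ^ 2 * V ≤ τ ^ 2 * V :=
      mul_le_mul_of_nonneg_right (pow_le_pow_left₀ ht0 ht 2) hV
    linarith
  have h3 := sum_le_sum h2
  rw [sum_const, card_range, nsmul_eq_mul] at h3
  calc 2 / (L : ℝ) * ∑ k ∈ range L, (avg fun ω => 1 - Real.cos ((k * σ) * y ω))
      ≤ 2 / L * (L * (τ ^ 2 * V + ε)) := mul_le_mul_of_nonneg_left h3 (by positivity)
    _ = 2 * (τ ^ 2 * V + ε) := by field_simp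

/-! ## Characters of integer statistics -/

theorem xth_vl_real (w : Finset (Fin n) → ℤ) (M : Finset (Finset (Fin n))) (x : Cube n) :
    ((vl w M x : ℤ) : ℝ) = ∑ m ∈ M, (w m : ℝ) * mon m x := by
  classical
  unfold vl
  push_cast
  refine sum_congr rfl fun m _ => ?_
  unfold mon
  by_cases h : Tr m x
  · rw [if_pos h, one_true h, mul_one]
  · rw [if_neg h, one_false h, mul_zero]

theorem xth_exp (w : Finset (Fin n) → ℤ) (M : Finset (Finset (Fin n))) (t : ℝ) (x : Cube n) :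
    Complex.exp ((t * ((vl w M x : ℤ) : ℝ) : ℝ) * Complex.I) =
      pr (fun m => Complex.exp ((t * (w m : ℝ) : ℝ) * Complex.I)) M x := by
  classical
  unfold vl pr
  induction M using Finset.induction_on with
  | empty => simp
  | insert a s ha ih =>
    rw [sum_insert ha, prod_insert ha, ← ih, Int.cast_add, mul_add, Complex.ofReal_add, add_mul,
      Complex.exp_add]
    congr 1
    split_ifs
    · rfl
    · simp

theorem xth_std {Q : ℕ} [NeZero Q] (b : ZMod Q) (w : Finset (Fin n) → ℤ)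
    (M : Finset (Finset (Fin n))) (x : Cube n) :
    (ZMod.stdAddChar (b * ((vl w M x : ℤ) : ZMod Q)) : ℂ) =
      pr (fun m => (ZMod.stdAddChar (b * ((w m : ℤ) : ZMod Q)) : ℂ)) M x := by
  classical
  unfold vl pr
  induction M using Finset.induction_on with
  | empty => simp
  | insert a s ha ih =>
    rw [sum_insert ha, prod_insert ha, ← ih, Int.cast_add, mul_add, AddChar.map_add_eq_mul]
    congr 1
    split_ifs
    · rfl
    · simp

theorem xth_avg_E (f : Cube n → ℝ) : avg f = Dnf.E f := by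
  unfold avg Dnf.E
  congr 1
  simp

/-- The second moment. -/
theorem xth_var {r B : ℕ} (hr : 0 < r) {M : Finset (Finset (Fin n))} (hM : Rd r M)
    {w : Finset (Fin n) → ℤ} (hw : ∀ m ∈ M, |w m| ≤ B) {D : ℝ} (hD : 1 ≤ D)
    (hl : ∑ m ∈ M, (w m : ℝ) ^ 2 * (1 / 2) ^ m.card ≤ D ^ 2) :
    (avg fun x : Cube n => (((vl w M x : ℤ) : ℝ) - ∑ m ∈ M, (w m : ℝ) * (1 / 2) ^ m.card) ^ 2) ≤
      12 * (r : ℝ) ^ 2 * ((B : ℝ) + 1) ^ 2 * D ^ 2 := by
  have hr' : (1 : ℝ) ≤ r := by exact_mod_cast hr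
  have hb : (1 : ℝ) ≤ (B : ℝ) + 1 := by linarith [Nat.cast_nonneg (α := ℝ) B]
  have hwb : ∀ m ∈ M, |((w m : ℤ) : ℝ)| ≤ (B : ℝ) + 1 := by
    intro m hm
    have h1 : ((|w m| : ℤ) : ℝ) ≤ ((B : ℤ) : ℝ) := by exact_mod_cast hw m hm
    rw [Int.cast_abs] at h1
    have h2 : (((B : ℕ) : ℤ) : ℝ) = (B : ℝ) := by norm_cast
    rw [h2] at h1
    linarith
  set b : ℝ := (B : ℝ) + 1 with hbdef
  set t : ℝ := 1 / (r * b * D) with ht
  have ht0 : 0 < t := by positivity
  have ht1 : t * (r * b) ≤ 1 := by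
    rw [ht, div_mul_eq_mul_div, one_mul, div_le_one (by positivity)]
    calc (r : ℝ) * b = r * b * 1 := (mul_one _).symm
      _ ≤ r * b * D := mul_le_mul_of_nonneg_left hD (by positivity)
  have h := Yt.moment hr hM (w := fun m => (w m : ℝ)) hwb ht0 ht1 2
  rw [xth_avg_E]
  have e1 : (fun x : Cube n => (((vl w M x : ℤ) : ℝ) - ∑ m ∈ M, (w m : ℝ) * (1 / 2) ^ m.card) ^ 2) =
      fun x => |∑ m ∈ M, (w m : ℝ) * (mon m x - (1 / 2) ^ m.card)| ^ 2 := by
    funext x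
    rw [sq_abs, xth_vl_real, ← sum_sub_distrib]
    congr 1
    exact sum_congr rfl fun m _ => by ring
  rw [e1]
  refine h.trans ?_
  have e2 : (r : ℝ) * t ^ 2 * ∑ m ∈ M, (w m : ℝ) ^ 2 * (1 / 2) ^ m.card ≤ 1 := by
    calc (r : ℝ) * t ^ 2 * ∑ m ∈ M, (w m : ℝ) ^ 2 * (1 / 2) ^ m.card
        ≤ r * t ^ 2 * D ^ 2 := mul_le_mul_of_nonneg_left hl (by positivity)
      _ = 1 / (r * b ^ 2) := by
          rw [ht]
          field_simp
      _ ≤ 1 := by
          rw [div_le_one (by positivity)]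
          nlinarith [mul_le_mul hr' (show (1 : ℝ) ≤ b ^ 2 by nlinarith) (by norm_num) (by positivity)]
  have e3 : Real.exp ((r : ℝ) * t ^ 2 * ∑ m ∈ M, (w m : ℝ) ^ 2 * (1 / 2) ^ m.card) ≤ 3 :=
    (Real.exp_le_exp.2 e2).trans (by linarith [Real.exp_one_lt_d9])
  have e4 : 2 * ((Nat.factorial 2 : ℕ) : ℝ) / t ^ 2 = 4 * (r * b * D) ^ 2 := by
    rw [ht]
    simp only [Nat.factorial_two]
    field_simp
    norm_num
  rw [e4]
  calc 4 * ((r : ℝ) * b * D) ^ 2 * Real.exp _ ≤ 4 * ((r : ℝ) * b * D) ^ 2 * 3 :=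
        mul_le_mul_of_nonneg_left e3 (by positivity)
    _ = 12 * (r : ℝ) ^ 2 * b ^ 2 * D ^ 2 := by ring

/-- Small characteristic functions. -/
theorem xth_cf {B L : ℕ} {M : Finset (Finset (Fin n))}
    {w : Finset (Fin n) → ℤ} (hw : ∀ m ∈ M, |w m| ≤ B) {ε' V : ℝ}
    (SM : ∀ (ζ : Finset (Fin n) → ℂ), (∀ m ∈ M, ‖ζ m‖ = 1) →
      V ≤ ∑ m ∈ M, ‖1 - ζ m‖ ^ 2 * (1 / 2 : ℝ) ^ m.card → ‖av (pr ζ M)‖ ≤ ε')
    {t J : ℝ} (hJ : 1 ≤ J) (ht0 : 1 / (L * (J * ((B : ℝ) + 1))) ≤ t) (hL : 0 < L)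
    (ht1 : t ≤ 1 / (J * ((B : ℝ) + 1)))
    (hV : V ≤ (∑ m ∈ M, (w m : ℝ) ^ 2 * (1 / 2) ^ m.card) / (4 * (L : ℝ) ^ 2 * J ^ 2 * ((B : ℝ) + 1) ^ 2)) :
    ‖av fun x : Cube n => Complex.exp ((t * ((vl w M x : ℤ) : ℝ) : ℝ) * Complex.I)‖ ≤ ε' := by
  have hb : (1 : ℝ) ≤ (B : ℝ) + 1 := by linarith [Nat.cast_nonneg (α := ℝ) B]
  have hL' : (0 : ℝ) < L := by exact_mod_cast hL
  have hJ0 : 0 < J := by linarith
  have htpos : 0 < t := lt_of_lt_of_le (by positivity) ht0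
  simp only [xth_exp]
  refine SM _ (fun m _ => Complex.norm_exp_ofReal_mul_I _) (hV.trans ?_)
  rw [sum_div]
  refine sum_le_sum fun m hm => ?_
  have hwb : |((w m : ℤ) : ℝ)| ≤ (B : ℝ) := by
    have h1 : ((|w m| : ℤ) : ℝ) ≤ ((B : ℤ) : ℝ) := by exact_mod_cast hw m hm
    rw [Int.cast_abs] at h1
    have h2 : (((B : ℕ) : ℤ) : ℝ) = (B : ℝ) := by norm_cast
    rwa [h2] at h1
  have hu : |t * (w m : ℝ)| ≤ 1 := by
    rw [abs_mul, abs_of_pos htpos]
    calc t * |(w m : ℝ)| ≤ 1 / (J * ((B : ℝ) + 1)) * ((B : ℝ) + 1) :=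
          mul_le_mul ht1 (by linarith) (abs_nonneg _) (by positivity)
      _ = 1 / J := by field_simp
      _ ≤ 1 := by rw [div_le_one hJ0]; exact hJ
  have hc := xth_chord (φ := t * (w m : ℝ)) (by linarith [Real.pi_gt_three])
  have hn : ‖Complex.exp (Complex.I * ((t * (w m : ℝ) : ℝ) : ℂ)) - 1‖ =
      ‖1 - Complex.exp (((t * (w m : ℝ) : ℝ) : ℂ) * Complex.I)‖ := by
    rw [mul_comm, norm_sub_rev]
  rw [hn] at hc
  have hpi : (1 : ℝ) / 2 ≤ 2 / Real.pi := by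
    rw [div_le_div_iff₀ (by norm_num) Real.pi_pos]
    linarith [Real.pi_lt_four]
  have h1 : 1 / 2 * |t * (w m : ℝ)| ≤ ‖1 - Complex.exp (((t * (w m : ℝ) : ℝ) : ℂ) * Complex.I)‖ :=
    (mul_le_mul_of_nonneg_right hpi (abs_nonneg _)).trans hc
  have h2 : (1 / 2 * |t * (w m : ℝ)|) ^ 2 ≤
      ‖1 - Complex.exp (((t * (w m : ℝ) : ℝ) : ℂ) * Complex.I)‖ ^ 2 :=
    pow_le_pow_left₀ (by positivity) h1 2
  have h3 : (1 / 2 * |t * (w m : ℝ)|) ^ 2 = t ^ 2 / 4 * (w m : ℝ) ^ 2 := by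
    rw [mul_pow, sq_abs]
    ring
  rw [h3] at h2
  have h4 : 1 / (4 * (L : ℝ) ^ 2 * J ^ 2 * ((B : ℝ) + 1) ^ 2) ≤ t ^ 2 / 4 := by
    have h5 : (1 / (L * (J * ((B : ℝ) + 1)))) ^ 2 ≤ t ^ 2 := pow_le_pow_left₀ (by positivity) ht0 2
    calc 1 / (4 * (L : ℝ) ^ 2 * J ^ 2 * ((B : ℝ) + 1) ^ 2)
        = (1 / (L * (J * ((B : ℝ) + 1)))) ^ 2 / 4 := by
          field_simp
      _ ≤ t ^ 2 / 4 := by linarith
  calc (w m : ℝ) ^ 2 * (1 / 2) ^ m.card / (4 * (L : ℝ) ^ 2 * J ^ 2 * ((B : ℝ) + 1) ^ 2)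
      = 1 / (4 * (L : ℝ) ^ 2 * J ^ 2 * ((B : ℝ) + 1) ^ 2) * (w m : ℝ) ^ 2 * (1 / 2) ^ m.card := by
        ring
    _ ≤ t ^ 2 / 4 * (w m : ℝ) ^ 2 * (1 / 2) ^ m.card := by
        apply mul_le_mul_of_nonneg_right _ (by positivity)
        exact mul_le_mul_of_nonneg_right h4 (by positivity)
    _ ≤ _ := mul_le_mul_of_nonneg_right h2 (by positivity)

theorem xth_abs_le_one (P : Prop) {h : ℝ} (h0 : 0 ≤ h) (h1 : h ≤ 1) : |one P - h| ≤ 1 := by
  have a := one_nonneg P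
  have b := one_le P
  rw [abs_le]
  constructor <;> linarith

/-- Thresholds are approximable. -/
theorem xth_thr (r : ℕ) (hr : 0 < r) (B : ℕ) {ε₁ : ℝ} (h1 : 0 < ε₁)
    (SM : ∀ ε' : ℝ, 0 < ε' → ∃ V₀ : ℝ, ∀ (n : ℕ) (M : Finset (Finset (Fin n)))
      (ζ : Finset (Fin n) → ℂ), Rd r M → (∀ m ∈ M, m ≠ ∅) → (∀ m ∈ M, ‖ζ m‖ = 1) →
      V₀ ≤ ∑ m ∈ M, ‖1 - ζ m‖ ^ 2 * (1 / 2 : ℝ) ^ m.card → ‖av (pr ζ M)‖ ≤ ε') :
    ∃ C : ℝ, 0 ≤ C ∧ ∃ ε₀ : ℝ, 0 < ε₀ ∧ ∀ (n : ℕ) (M : Finset (Finset (Fin n))), Rd r M →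
      (∀ m ∈ M, m ≠ ∅) → ∀ w : Finset (Fin n) → ℤ, (∀ m ∈ M, |w m| ≤ B) → ∀ θ : ℤ,
      ∃ H : Cube n → ℝ, (∀ x, 0 ≤ H x ∧ H x ≤ 1) ∧ Cmb M C (fun x => ((H x : ℝ) : ℂ)) ∧
        ∀ {Ω : Type} [Fintype Ω] [Nonempty Ω] (X : Ω → Cube n), Fools r ε₀ X →
          (avg fun ω => |one (θ ≤ vl w M (X ω)) - H (X ω)|) ≤ ε₁ := by
  have hr' : (1 : ℝ) ≤ r := by exact_mod_cast hr
  obtain ⟨V₀, hV₀⟩ := SM (ε₁ / 64) (by positivity)
  obtain ⟨b, hbdef⟩ : ∃ b : ℝ, b = (B : ℝ) + 1 := ⟨_, rfl⟩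
  have hb : (1 : ℝ) ≤ b := by rw [hbdef]; linarith [Nat.cast_nonneg (α := ℝ) B]
  obtain ⟨C₁, hC₁⟩ : ∃ C₁ : ℝ, C₁ = 12 * (r : ℝ) ^ 2 * b ^ 2 := ⟨_, rfl⟩
  have hC₁0 : 0 < C₁ := by rw [hC₁]; positivity
  obtain ⟨R, hR⟩ : ∃ R : ℝ, R = 1 + 160 * C₁ / ε₁ := ⟨_, rfl⟩
  have hR1 : 1 ≤ R := by
    rw [hR]
    have : 0 ≤ 160 * C₁ / ε₁ := by positivity
    linarith
  have hR2 : 40 * C₁ / R ^ 2 ≤ ε₁ / 4 := by
    have h2 : 160 * C₁ / ε₁ ≤ R ^ 2 := by
      have : 160 * C₁ / ε₁ ≤ R := by rw [hR]; linarith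
      nlinarith
    rw [div_le_iff₀ h1] at h2
    rw [div_le_iff₀ (by positivity)]
    linarith
  obtain ⟨L₀, hL₀⟩ := exists_nat_ge (32 / ε₁)
  obtain ⟨L, hL⟩ : ∃ L : ℕ, L = L₀ + 1 := ⟨_, rfl⟩
  have hLpos : 0 < L := by omega
  have hL' : (1 : ℝ) ≤ L := by exact_mod_cast hLpos
  have hL32 : 4 * (1 / (L : ℝ)) ≤ ε₁ / 8 := by
    have h2 : 32 / ε₁ ≤ (L : ℝ) := by
      rw [hL]
      push_cast
      linarith
    rw [div_le_iff₀ h1] at h2
    rw [mul_one_div, div_le_iff₀ (by linarith)]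
    linarith
  obtain ⟨V₁, hV₁⟩ : ∃ V₁ : ℝ, V₁ = max V₀ 1 := ⟨_, rfl⟩
  have hV₁1 : 1 ≤ V₁ := by rw [hV₁]; exact le_max_right _ _
  have hV₁0 : V₀ ≤ V₁ := by rw [hV₁]; exact le_max_left _ _
  obtain ⟨δ, hδ⟩ : ∃ δ : ℝ, δ = 1 / (4 * L * b * V₁) := ⟨_, rfl⟩
  have hδ0 : 0 < δ := by rw [hδ]; positivity
  have hδ1 : δ ≤ 1 := by
    rw [hδ, div_le_one (by positivity)]
    have h2 : 1 ≤ (L : ℝ) * b := by nlinarith
    have h3 : 1 ≤ (L : ℝ) * b * V₁ := by nlinarith
    nlinarith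
  refine ⟨2 * R / δ + 4, by positivity, ε₁ / 64, by positivity, ?_⟩
  intro n M hM hne w hw θ
  set a : ℝ := ∑ m ∈ M, (w m : ℝ) * (1 / 2) ^ m.card with ha
  set lam : ℝ := ∑ m ∈ M, (w m : ℝ) ^ 2 * (1 / 2) ^ m.card with hlam
  have hlam0 : 0 ≤ lam := sum_nonneg fun m _ => by positivity
  set D : ℝ := max 1 (Real.sqrt lam) with hD
  have hD1 : 1 ≤ D := le_max_left _ _
  have hD2 : lam ≤ D ^ 2 := by
    calc lam = Real.sqrt lam ^ 2 := (Real.sq_sqrt hlam0).symm
      _ ≤ D ^ 2 := pow_le_pow_left₀ (Real.sqrt_nonneg _) (le_max_right _ _) 2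
  set J : ℕ := ⌈δ * D⌉₊ with hJ
  have hJ1 : 1 ≤ J := Nat.ceil_pos.2 (by positivity)
  have hJ1' : (1 : ℝ) ≤ J := by exact_mod_cast hJ1
  have hJδ : δ * D ≤ J := Nat.le_ceil _
  set lo : ℤ := ⌊a - R * D⌋ with hlo
  set hi : ℤ := ⌈a + R * D⌉ with hhi
  have hRD : 0 < R * D := by positivity
  have hlh : lo ≤ hi := by
    have e1 : (lo : ℝ) ≤ a - R * D := Int.floor_le _
    have e2 : a + R * D ≤ (hi : ℝ) := Int.le_ceil _
    have : (lo : ℝ) ≤ hi := by linarith
    exact_mod_cast this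
  set Q : ℕ := (hi - lo).toNat + J + 1 with hQ
  have : NeZero Q := ⟨by omega⟩
  have hQJ : (Q : ℝ) / J ≤ 2 * R / δ + 4 := by
    have e1 : (((hi - lo).toNat : ℕ) : ℝ) ≤ 2 * (R * D) + 2 := by
      have e2 : (((hi - lo).toNat : ℕ) : ℝ) = (hi : ℝ) - lo := by
        have : (((hi - lo).toNat : ℕ) : ℤ) = hi - lo := Int.toNat_of_nonneg (by omega)
        have h3 : ((((hi - lo).toNat : ℕ) : ℤ) : ℝ) = ((hi - lo : ℤ) : ℝ) := by rw [this]
        push_cast at h3
        exact_mod_cast h3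
      rw [e2]
      have e3 : a - R * D < (lo : ℝ) + 1 := Int.lt_floor_add_one _
      have e4 : (hi : ℝ) < a + R * D + 1 := Int.ceil_lt_add_one _
      linarith
    have e5 : (Q : ℝ) ≤ 2 * (R * D) + 3 + J := by
      rw [hQ]
      push_cast
      linarith
    have hJ0 : (0 : ℝ) < J := by linarith
    rw [div_le_iff₀ hJ0]
    have e6 : 2 * (R * D) ≤ 2 * R / δ * J := by
      calc 2 * (R * D) = 2 * R / δ * (δ * D) := by field_simp
        _ ≤ 2 * R / δ * J := mul_le_mul_of_nonneg_left hJδ (by positivity)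
    nlinarith
  obtain ⟨c, h, hc, h01, hch, hval⟩ := trap (Q := Q) hJ1 lo θ
  refine ⟨fun x => h (vl w M x), fun x => h01 _, ?_, ?_⟩
  · -- the combination
    refine ⟨ZMod Q, inferInstance, c, fun b m => (ZMod.stdAddChar (b * ((w m : ℤ) : ZMod Q)) : ℂ),
      fun b m _ => AddChar.norm_apply _ _, ?_, fun x => ?_⟩
    · refine hc.trans ?_
      have hQJ1 : 1 ≤ (Q : ℝ) / J := by
        rw [le_div_iff₀ (by linarith), one_mul]
        have : J ≤ Q := by omega
        exact_mod_cast this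
      have : Real.sqrt ((Q : ℝ) / J) ≤ (Q : ℝ) / J := by
        rw [Real.sqrt_le_left (by linarith)]
        nlinarith
      exact this.trans hQJ
    · show ((h (vl w M x) : ℝ) : ℂ) = _
      rw [hch]
      exact sum_congr rfl fun b _ => by rw [xth_std]
  intro Ω _ _ X hX
  set y : Cube n → ℝ := fun x => ((vl w M x : ℤ) : ℝ) - a with hy
  -- pointwise
  have hpt : ∀ x : Cube n, |one (θ ≤ vl w M x) - h (vl w M x)| ≤
      one (R * D ≤ |y x|) + one (2 ≤ J ∧ |((vl w M x : ℤ) : ℝ) - θ| ≤ J) := by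
    intro x
    have n1 := one_nonneg (R * D ≤ |y x|)
    have n2 := one_nonneg (2 ≤ J ∧ |((vl w M x : ℤ) : ℝ) - θ| ≤ J)
    by_cases hyx : R * D ≤ |y x|
    · have := xth_abs_le_one (θ ≤ vl w M x) (h01 (vl w M x)).1 (h01 (vl w M x)).2
      rw [one_true hyx]
      linarith
    · rw [not_le, abs_lt] at hyx
      simp only [hy] at hyx
      set S : ℤ := vl w M x with hS
      have l1 : lo ≤ S := by
        have e1 : (lo : ℝ) ≤ a - R * D := Int.floor_le _
        have : (lo : ℝ) ≤ S := by linarith [hyx.1]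
        exact_mod_cast this
      have l2 : S ≤ hi := by
        have e2 : a + R * D ≤ (hi : ℝ) := Int.le_ceil _
        have : (S : ℝ) ≤ hi := by linarith [hyx.2]
        exact_mod_cast this
      have l3 : S < lo - J + Q := by
        have : (((hi - lo).toNat : ℕ) : ℤ) = hi - lo := Int.toNat_of_nonneg (by omega)
        rw [hQ]
        push_cast
        omega
      obtain ⟨v1, v2⟩ := hval S l1 l3
      by_cases c1 : S < θ
      · rw [v1 c1, one_false (not_le.2 c1)]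
        simp only [sub_self, abs_zero]
        linarith
      · by_cases c2 : θ + J - 1 ≤ S
        · rw [v2 c2, one_true (not_lt.1 c1)]
          simp only [sub_self, abs_zero]
          linarith
        · have hJ2 : 2 ≤ J := by omega
          have hab : |(S : ℝ) - θ| ≤ J := by
            have e1 : (θ : ℝ) ≤ S := by exact_mod_cast not_lt.1 c1
            have e2 : (S : ℝ) < θ + J - 1 := by exact_mod_cast not_le.1 c2
            rw [abs_of_nonneg (by linarith)]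
            linarith
          have := xth_abs_le_one (θ ≤ S) (h01 S).1 (h01 S).2
          rw [one_true (show 2 ≤ J ∧ |(S : ℝ) - θ| ≤ J from ⟨hJ2, hab⟩)]
          linarith
  refine (avg_mono fun ω => hpt (X ω)).trans ?_
  rw [avg_add]
  -- characteristic functions
  have hcf : ∀ t : ℝ, ‖(av fun ω => Complex.exp ((t * ((vl w M (X ω) : ℤ) : ℝ) : ℝ) * Complex.I)) -
      av fun x : Cube n => Complex.exp ((t * ((vl w M x : ℤ) : ℝ) : ℝ) * Complex.I)‖ ≤ ε₁ / 64 := by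
    intro t
    simp only [xth_exp]
    exact hX M _ hM fun m _ => Complex.norm_exp_ofReal_mul_I _
  -- the tail
  have htail : (avg fun ω => one (R * D ≤ |y (X ω)|)) ≤ ε₁ / 4 + ε₁ / 32 := by
    set τ : ℝ := 2 * Real.pi / (R * D) with hτ
    have hτ0 : 0 < τ := by positivity
    have h2 : 2 * Real.pi / τ = R * D := by
      rw [hτ]
      field_simp
    have hvar := xth_var hr hM hw hD1 hD2
    have h3 := xth_tail (fun ω => y (X ω)) (τ := τ) (V := C₁ * D ^ 2 / 2) (ε := ε₁ / 64) hτ0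
      (by positivity) ?_
    · rw [h2] at h3
      refine h3.trans ?_
      have h4 : τ ^ 2 * (C₁ * D ^ 2 / 2) ≤ 20 * C₁ / R ^ 2 := by
        have hpi2 : Real.pi ^ 2 ≤ 10 := by
          have := Real.pi_lt_d2
          nlinarith [Real.pi_pos]
        have e1 : τ ^ 2 * (C₁ * D ^ 2 / 2) = 2 * Real.pi ^ 2 * C₁ / R ^ 2 := by
          rw [hτ]
          field_simp
        rw [e1]
        apply div_le_div_of_nonneg_right _ (by positivity)
        nlinarith
      have h5 : 2 * (20 * C₁ / R ^ 2) = 40 * C₁ / R ^ 2 := by ring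
      linarith
    · intro t ht0 ht1
      have e0 : ∀ {A : Type} [Fintype A] (Y : A → Cube n),
          (avg fun ω => Real.cos (t * y (Y ω))) =
            (Complex.exp ((-(t * a) : ℝ) * Complex.I) *
              av fun ω => Complex.exp ((t * ((vl w M (Y ω) : ℤ) : ℝ) : ℝ) * Complex.I)).re := by
        intro A _ Y
        rw [← xth_re_av]
        congr 1
        unfold av
        rw [mul_div_assoc', mul_sum]
        congr 1
        refine sum_congr rfl fun ω _ => ?_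
        rw [← Complex.exp_add]
        simp only [hy]
        push_cast
        ring_nf
      have e1 := e0 X
      have e2 := e0 (fun x : Cube n => x)
      have e3 : (avg fun x : Cube n => Real.cos (t * y x)) - (avg fun ω => Real.cos (t * y (X ω))) ≤
          ε₁ / 64 := by
        rw [e1]
        rw [show (avg fun x : Cube n => Real.cos (t * y x)) = _ from e2]
        rw [← Complex.sub_re, ← mul_sub]
        refine (Complex.re_le_norm _).trans ?_
        rw [norm_mul, Complex.norm_exp_ofReal_mul_I, one_mul, norm_sub_rev]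
        exact hcf t
      have e4 : 1 - (avg fun x : Cube n => Real.cos (t * y x)) ≤ t ^ 2 * (C₁ * D ^ 2 / 2) := by
        have e5 : ∀ x : Cube n, 1 - Real.cos (t * y x) ≤ t ^ 2 / 2 * (y x) ^ 2 := by
          intro x
          have := Real.one_sub_sq_div_two_le_cos (x := t * y x)
          nlinarith
        have e6 := avg_mono e5
        rw [avg_sub, avg_const, avg_mul_left] at e6
        refine e6.trans ?_
        have e7 : (avg fun x : Cube n => (y x) ^ 2) ≤ C₁ * D ^ 2 := by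
          rw [hC₁, hbdef]
          exact hvar
        calc t ^ 2 / 2 * (avg fun x : Cube n => (y x) ^ 2) ≤ t ^ 2 / 2 * (C₁ * D ^ 2) :=
              mul_le_mul_of_nonneg_left e7 (by positivity)
          _ = t ^ 2 * (C₁ * D ^ 2 / 2) := by ring
      linarith
  -- the ramp
  have hramp : (avg fun ω => one (2 ≤ J ∧ |((vl w M (X ω) : ℤ) : ℝ) - θ| ≤ J)) ≤
      ε₁ / 8 + 4 * (ε₁ / 64 + ε₁ / 64) := by
    by_cases hJ2 : 2 ≤ J
    · have h2 : (avg fun ω => one (2 ≤ J ∧ |((vl w M (X ω) : ℤ) : ℝ) - θ| ≤ J)) ≤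
          avg fun ω => one (|((vl w M (X ω) : ℤ) : ℝ) - θ| ≤ J * b) := by
        refine avg_mono fun ω => Dnf.one_mono fun hh => hh.2.trans ?_
        nlinarith
      refine h2.trans ?_
      have hDδ : 1 < δ * D := by
        by_contra hcon
        have : J ≤ 1 := Nat.ceil_le.2 (by push_cast; exact not_lt.1 hcon)
        omega
      have hJD : (J : ℝ) ≤ 2 * (δ * D) := by
        have := Nat.ceil_lt_add_one (show 0 ≤ δ * D by positivity)
        linarith
      have hDlam : D ^ 2 = lam := by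
        have hD3 : 1 < D := by
          by_contra hcon
          have : D ≤ 1 := not_lt.1 hcon
          nlinarith
        have hD4 : D = Real.sqrt lam := by
          rcases le_total 1 (Real.sqrt lam) with hh | hh
          · rw [hD, max_eq_right hh]
          · rw [hD, max_eq_left hh] at hD3
            exact absurd hD3 (lt_irrefl _)
        rw [hD4, Real.sq_sqrt hlam0]
      have hf := fejer (fun ω => ((vl w M (X ω) : ℤ) : ℝ)) (θ : ℝ) (J := J * b)
        (ε := ε₁ / 64 + ε₁ / 64) (by positivity) (L := L) hLpos (by positivity) ?_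
      · refine hf.trans ?_
        rw [mul_add]
        linarith
      · intro l hl1 hl2
        have hl1' : (1 : ℝ) ≤ l := by exact_mod_cast hl1
        have hl2' : (l : ℝ) ≤ L := by exact_mod_cast hl2.le
        have hLp : (0 : ℝ) < L := by linarith
        have h3 := hcf ((l : ℝ) / (L * (J * b)))
        have h4 := xth_cf (B := B) (L := L) (M := M) (w := w) hw (ε' := ε₁ / 64) (V := V₁)
          (fun ζ hζ hV => hV₀ n M ζ hM hne hζ (hV₁0.trans hV))
          (t := (l : ℝ) / (L * (J * b))) (J := J) hJ1' ?_ hLpos ?_ ?_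
        · calc ‖av fun ω => Complex.exp (((l : ℝ) / (L * (J * b)) * ((vl w M (X ω) : ℤ) : ℝ) : ℝ) *
                Complex.I)‖
              ≤ ‖(av fun ω => Complex.exp (((l : ℝ) / (L * (J * b)) * ((vl w M (X ω) : ℤ) : ℝ) : ℝ) *
                Complex.I)) - av fun x : Cube n => Complex.exp (((l : ℝ) / (L * (J * b)) *
                ((vl w M x : ℤ) : ℝ) : ℝ) * Complex.I)‖ + ‖av fun x : Cube n =>
                Complex.exp (((l : ℝ) / (L * (J * b)) * ((vl w M x : ℤ) : ℝ) : ℝ) * Complex.I)‖ :=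
                norm_le_norm_sub_add _ _
            _ ≤ ε₁ / 64 + ε₁ / 64 := add_le_add h3 h4
        · rw [← hbdef]
          exact div_le_div_of_nonneg_right hl1' (by positivity)
        · rw [← hbdef, div_le_div_iff₀ (by positivity) (by positivity)]
          nlinarith [mul_pos (show (0 : ℝ) < J by linarith) (show (0 : ℝ) < b by linarith)]
        · rw [← hlam, ← hbdef, le_div_iff₀ (by positivity), ← hDlam]
          have h5 : (J : ℝ) ^ 2 ≤ (2 * (δ * D)) ^ 2 := pow_le_pow_left₀ (by linarith) hJD 2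
          have h6 : V₁ * (4 * (L : ℝ) ^ 2 * (J : ℝ) ^ 2 * b ^ 2) ≤
              V₁ * (4 * (L : ℝ) ^ 2 * (2 * (δ * D)) ^ 2 * b ^ 2) := by
            apply mul_le_mul_of_nonneg_left _ (by linarith)
            apply mul_le_mul_of_nonneg_right _ (by positivity)
            exact mul_le_mul_of_nonneg_left h5 (by positivity)
          refine h6.trans ?_
          have h7 : V₁ * (4 * (L : ℝ) ^ 2 * (2 * (δ * D)) ^ 2 * b ^ 2) = D ^ 2 / V₁ := by
            rw [hδ]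
            field_simp
            ring_nf
          rw [h7]
          exact div_le_self (by positivity) hV₁1
    · have h2 : (avg fun ω => one (2 ≤ J ∧ |((vl w M (X ω) : ℤ) : ℝ) - θ| ≤ J)) = 0 := by
        have : (fun ω => one (2 ≤ J ∧ |((vl w M (X ω) : ℤ) : ℝ) - θ| ≤ J)) = fun _ => 0 := by
          funext ω
          exact one_false fun hh => hJ2 hh.1
        rw [this, avg_const]
      rw [h2]
      positivity
  linarith

end Pool.Agent.MP_ca1109_lc.Xg
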